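import Mathlib
import Pool.Agent.TH888.B1.PrimeSieve

/-!
# Almost all primes lie in two kinds of residue classes
-/

set_option autoImplicit false

namespace Pool.Agent.TH66.SG

open Finset Filter Topology

theorem alm_abs (R : Set ℕ) (hRp : ∀ w ∈ R, w.Prime ∧ w ≠ 2)
    (hdiv : ¬ Summable (fun n : ℕ => R.indicator (fun n : ℕ => (1 : ℝ) / n) n))
    (P₁ P₂ : ∀ w : ℕ, ZMod w → Prop)
    (hex : ∀ w ∈ R, ∃ q₁ q₂ : ZMod w, q₁ ≠ 0 ∧ q₂ ≠ 0 ∧ P₁ w q₁ ∧ P₂ w q₂) (Bad : ℕ → Prop)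
    (hbad : ∀ w₁ ∈ R, ∀ w₂ ∈ R, ∀ q : ℕ, q.Prime → P₁ w₁ q → P₂ w₂ q → ¬ Bad q) :
    Tendsto (fun N : ℕ => (({q : ℕ | q ≤ N ∧ q.Prime ∧ Bad q} : Set ℕ).ncard : ℝ) /
      Nat.primeCounting N) atTop (𝓝 0) := by
  classical
  have hex' : ∀ w : ℕ, ∃ t : ZMod w × ZMod w, w ∈ R → t.1 ≠ 0 ∧ t.2 ≠ 0 ∧
      P₁ w t.1 ∧ P₂ w t.2 := by
    intro w
    by_cases hw : w ∈ R
    · obtain ⟨q₁, q₂, h⟩ := hex w hw
      exact ⟨(q₁, q₂), fun _ => h⟩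
    · exact ⟨0, fun h => absurd h hw⟩
  choose τ hτ using hex'
  have hmain : ∀ ε : ℝ, 0 < ε → ∃ N₀ : ℕ, ∀ N : ℕ, N₀ ≤ N →
      (({q : ℕ | q ≤ N ∧ q.Prime ∧ Bad q} : Set ℕ).ncard : ℝ) ≤ ε * Nat.primeCounting N := by
    intro ε hε
    obtain ⟨σ₁, hσ₁⟩ : ∃ σ : ∀ w : ℕ, ZMod w, ∀ w, σ w = (τ w).1 := ⟨_, fun _ => rfl⟩
    obtain ⟨σ₂, hσ₂⟩ : ∃ σ : ∀ w : ℕ, ZMod w, ∀ w, σ w = (τ w).2 := ⟨_, fun _ => rfl⟩
    obtain ⟨F₁, hF₁, N₁, hN₁⟩ := Pool.Agent.TH888.B1.prime_avoid R hRp hdiv σ₁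
      (fun w hw => by rw [hσ₁]; exact (hτ w hw).1) (ε / 2) (by positivity)
    obtain ⟨F₂, hF₂, N₂, hN₂⟩ := Pool.Agent.TH888.B1.prime_avoid R hRp hdiv σ₂
      (fun w hw => by rw [hσ₂]; exact (hτ w hw).2.1) (ε / 2) (by positivity)
    refine ⟨max N₁ N₂, fun N hN => ?_⟩
    have h1 := hN₁ N (le_of_max_le_left hN)
    have h2 := hN₂ N (le_of_max_le_right hN)
    have hset : ({q : ℕ | q ≤ N ∧ q.Prime ∧ Bad q} : Set ℕ).ncard =
        ((range (N + 1)).filter (fun q : ℕ => q.Prime ∧ Bad q)).card := by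
      rw [← Set.ncard_coe_finset]
      congr 1
      ext q
      simp only [Set.mem_ofPred_eq, coe_filter, mem_range, Nat.lt_succ_iff]
    have hsub : (range (N + 1)).filter (fun q : ℕ => q.Prime ∧ Bad q) ⊆
        (range (N + 1)).filter (fun q : ℕ => q.Prime ∧ ∀ r ∈ F₁, (q : ZMod r) ≠ σ₁ r) ∪
        (range (N + 1)).filter (fun q : ℕ => q.Prime ∧ ∀ r ∈ F₂, (q : ZMod r) ≠ σ₂ r) := by
      intro q hq
      rw [mem_filter] at hq
      obtain ⟨hqN, hqp, hqb⟩ := hq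
      rw [mem_union, mem_filter, mem_filter]
      by_contra hcon
      push Not at hcon
      obtain ⟨w₁, hw₁, e₁⟩ := hcon.1 hqN hqp
      obtain ⟨w₂, hw₂, e₂⟩ := hcon.2 hqN hqp
      have hR₁ := hF₁ w₁ hw₁
      have hR₂ := hF₂ w₂ hw₂
      refine hbad w₁ hR₁ w₂ hR₂ q hqp ?_ ?_ hqb
      · rw [e₁, hσ₁]
        exact (hτ w₁ hR₁).2.2.1
      · rw [e₂, hσ₂]
        exact (hτ w₂ hR₂).2.2.2
    rw [hset]
    calc ((((range (N + 1)).filter (fun q : ℕ => q.Prime ∧ Bad q)).card : ℕ) : ℝ)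
        ≤ _ := by exact_mod_cast (card_le_card hsub).trans (card_union_le _ _)
      _ ≤ ε / 2 * Nat.primeCounting N + ε / 2 * Nat.primeCounting N := add_le_add h1 h2
      _ = ε * Nat.primeCounting N := by ring
  rw [Metric.tendsto_atTop]
  intro ε hε
  obtain ⟨N₀, hN₀⟩ := hmain (ε / 2) (by positivity)
  refine ⟨N₀ + 2, fun N hN => ?_⟩
  have hπ : (0 : ℝ) < Nat.primeCounting N := by
    have : 0 < Nat.primeCounting N := by
      have h1 : Nat.primeCounting 2 ≤ Nat.primeCounting N := Nat.monotone_primeCounting (by omega)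
      have h2 : Nat.primeCounting 2 = 1 := by decide
      omega
    exact_mod_cast this
  rw [Real.dist_eq, sub_zero, abs_of_nonneg (by positivity), div_lt_iff₀ hπ]
  have := hN₀ N (by omega)
  nlinarith

/-- `f`-th roots modulo `w` -/
theorem exists_root_pow (w f : ℕ) [Fact w.Prime] (hf : f ∣ w - 1) (y : ZMod w) (hy0 : y ≠ 0)
    (hy : y ^ ((w - 1) / f) = 1) : ∃ q : ZMod w, q ≠ 0 ∧ q ^ f = y := by
  have hw := (Fact.out : w.Prime)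
  have hw1 : 0 < w - 1 := by
    have := hw.two_le
    omega
  have hf0 : 0 < f := Nat.pos_of_dvd_of_pos hf hw1
  obtain ⟨g, hg⟩ := IsCyclic.exists_generator (α := (ZMod w)ˣ)
  have hog : orderOf g = w - 1 := by
    rw [orderOf_eq_card_of_forall_mem_zpowers hg, Nat.card_eq_fintype_card, ZMod.card_units]
  obtain ⟨Y, hY⟩ : ∃ Y : (ZMod w)ˣ, (Y : ZMod w) = y := ⟨Units.mk0 y hy0, rfl⟩
  obtain ⟨j, hj⟩ := (mem_powers_iff_mem_zpowers.2 (hg Y))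
  simp only at hj
  have h1 : Y ^ ((w - 1) / f) = 1 := by
    apply Units.ext
    rw [Units.val_pow_eq_pow_val, hY, hy, Units.val_one]
  rw [← hj, ← pow_mul, ← orderOf_dvd_iff_pow_eq_one, hog] at h1
  obtain ⟨c, hc⟩ := hf
  have h2 : (w - 1) / f = c := by rw [hc, Nat.mul_div_cancel_left _ hf0]
  have hc0 : 0 < c := by
    rcases Nat.eq_zero_or_pos c with h | h
    · rw [h, mul_zero] at hc
      omega
    · exact h
  rw [h2, hc] at h1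
  obtain ⟨d, rfl⟩ := Nat.dvd_of_mul_dvd_mul_right hc0 h1
  refine ⟨((g ^ d : (ZMod w)ˣ) : ZMod w), Units.ne_zero _, ?_⟩
  rw [← hY, ← hj, ← Units.val_pow_eq_pow_val, ← pow_mul, mul_comm]

end Pool.Agent.TH66.SG
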