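import Mathlib

/-!
# Automorphisms with prescribed action on the `2 ^ s`-th roots of primes
-/

set_option autoImplicit false

namespace Pool.Agent.TH66.SG

open Finset Polynomial IntermediateField

/-- `σ` maps a power of a root of unity to a power -/
theorem apply_pow {K : Type} [Field K] [Algebra ℚ K] {n : ℕ} [NeZero n] {Z : K}
    (hZ : IsPrimitiveRoot Z n) (σ : K ≃ₐ[ℚ] K) : ∃ a : ℕ, σ Z = Z ^ a := by
  have h : (σ Z) ^ n = 1 := by rw [← map_pow, hZ.pow_eq_one, map_one]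
  obtain ⟨a, _, ha⟩ := hZ.eq_pow_of_pow_eq_one h
  exact ⟨a, ha.symm⟩

theorem fix_of_mem {K : Type} [Field K] [Algebra ℚ K] {Z T : K} (hT : T ∈ ℚ⟮Z⟯)
    (ρ : K ≃ₐ[ℚ] K) (h : ρ Z = Z) : ρ T = T := by
  have h1 : ℚ⟮Z⟯ ≤ fixedField (Subgroup.zpowers ρ) := by
    rw [adjoin_simple_le_iff, mem_fixedField_iff]
    intro g hg
    obtain ⟨k, rfl⟩ := Subgroup.mem_zpowers_iff.1 hg
    have : ρ ∈ MulAction.stabilizer (K ≃ₐ[ℚ] K) Z := h
    exact Subgroup.zpow_mem _ this k
  exact (mem_fixedField_iff _ _).1 (h1 hT) ρ (Subgroup.mem_zpowers ρ)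

/-- a positive real element of a cyclotomic field, a power of which is rational, has a rational
square -/
theorem sq_rational (K : IntermediateField ℚ ℂ) [FiniteDimensional ℚ K] [IsGalois ℚ K]
    {n₀ : ℕ} [NeZero n₀] {Z : K} (hZ : IsPrimitiveRoot Z n₀) (T : K) (hT : T ∈ ℚ⟮Z⟯) (t : ℝ)
    (ht : (T : ℂ) = t) (ht0 : 0 < t) (n : ℕ) (hn : n ≠ 0) (P : ℚ)
    (hP : T ^ n = algebraMap ℚ K P) : ∃ q : ℚ, T ^ 2 = algebraMap ℚ K q := by
  -- complex conjugation
  obtain ⟨c, hc⟩ : ∃ c : K ≃ₐ[ℚ] K, ∀ x : K, ((c x : K) : ℂ) = (starRingEnd ℂ) (x : ℂ) := by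
    refine ⟨(Complex.conjAe.restrictScalars ℚ).restrictNormal K, fun x => ?_⟩
    exact AlgEquiv.restrictNormal_commutes (Complex.conjAe.restrictScalars ℚ) K x
  have hcT : c T = T := by
    apply Subtype.ext
    rw [hc, ht, Complex.conj_ofReal]
  have key : ∀ σ : K ≃ₐ[ℚ] K, σ (T ^ 2) = T ^ 2 := by
    intro σ
    have hcomm : c (σ T) = σ T := by
      obtain ⟨a, ha⟩ := apply_pow hZ c
      obtain ⟨b, hb⟩ := apply_pow hZ σ
      have h1 : ((σ * c)⁻¹ * (c * σ)) Z = Z := by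
        have : (c * σ) Z = (σ * c) Z := by
          simp only [AlgEquiv.mul_apply, ha, hb, map_pow]
          rw [← pow_mul, ← pow_mul, mul_comm]
        rw [AlgEquiv.mul_apply, this, ← AlgEquiv.mul_apply, inv_mul_cancel]
        rfl
      have h2 := fix_of_mem hT _ h1
      have h3 : (c * σ) T = (σ * c) T := by
        have := congrArg (σ * c) h2
        rwa [← AlgEquiv.mul_apply, ← mul_assoc, mul_inv_cancel, one_mul] at this
      simp only [AlgEquiv.mul_apply] at h3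
      rw [h3, hcT]
    have hreal : ∃ r : ℝ, ((σ T : K) : ℂ) = r := by
      have h4 := hc (σ T)
      rw [hcomm] at h4
      exact ⟨_, (Complex.conj_eq_iff_real.1 h4.symm).choose_spec⟩
    obtain ⟨r, hr⟩ := hreal
    have hrn : r ^ n = t ^ n := by
      have h5 : (σ T) ^ n = T ^ n := by
        rw [← map_pow, hP]
        exact σ.commutes P
      have h6 := congrArg (fun x : K => (x : ℂ)) h5
      simp only [SubmonoidClass.coe_pow, hr, ht] at h6
      exact_mod_cast h6
    have habs : |r| = t := by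
      have h7 : |r| ^ n = t ^ n := by rw [← abs_pow, hrn, abs_of_pos (by positivity)]
      exact (pow_left_inj₀ (abs_nonneg r) ht0.le hn).1 h7
    have hsq : r ^ 2 = t ^ 2 := by rw [← habs, sq_abs]
    apply Subtype.ext
    rw [map_pow]
    push_cast
    rw [hr, ht]
    exact_mod_cast hsq
  have hbot := (IsGalois.mem_bot_iff_fixed (T ^ 2)).2 key
  obtain ⟨q, hq⟩ := IntermediateField.mem_bot.1 hbot
  exact ⟨q, hq.symm⟩

end Pool.Agent.TH66.SG
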