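import Mathlib
import Pool.Agent.TH66.SG.Gal1

/-!
# Automorphisms fixing a cyclotomic field with prescribed action on the `2 ^ s`-th roots of primes
-/

set_option autoImplicit false

namespace Pool.Agent.TH66.SG

open Finset Polynomial IntermediateField

/-- a product of powers of distinct primes which is an `m`-th power of a rational number -/
theorem dvd_exponents {k : ℕ} (p : Fin k → ℕ) (hp : ∀ i, (p i).Prime)
    (hinj : Function.Injective p) (b : Fin k → ℕ) (m : ℕ) (hm : m ≠ 0) (q : ℚ)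
    (h : q ^ m = ∏ i, (p i : ℚ) ^ b i) (j : Fin k) : m ∣ b j := by
  have hP : (∏ i, (p i : ℚ) ^ b i) = ((∏ i, p i ^ b i : ℕ) : ℚ) := by push_cast; rfl
  rw [hP] at h
  have hint : IsIntegral ℤ q := by
    refine ⟨X ^ m - C ((∏ i, p i ^ b i : ℕ) : ℤ), monic_X_pow_sub_C _ hm, ?_⟩
    rw [← aeval_def]
    simp only [map_sub, map_pow, aeval_X, aeval_C]
    rw [h]
    simp
  obtain ⟨z, hz⟩ := IsIntegrallyClosed.isIntegral_iff.1 hint
  have hz' : (z : ℚ) = q := by simpa using hz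
  have h2 : z.natAbs ^ m = ∏ i, p i ^ b i := by
    have h3 : z ^ m = ((∏ i, p i ^ b i : ℕ) : ℤ) := by
      have : ((z ^ m : ℤ) : ℚ) = (((∏ i, p i ^ b i : ℕ) : ℤ) : ℚ) := by
        push_cast
        rw [hz', h]
        push_cast
        rfl
      exact_mod_cast this
    have h4 := congrArg Int.natAbs h3
    rwa [Int.natAbs_pow, Int.natAbs_natCast] at h4
  have h5 := congrArg (fun a : ℕ => a.factorization (p j)) h2
  simp only [Nat.factorization_pow, Finsupp.smul_apply, smul_eq_mul] at h5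
  rw [Nat.factorization_prod (fun i _ => pow_ne_zero _ (hp i).ne_zero), Finsupp.finsetSum_apply,
    Finset.sum_eq_single j] at h5
  · rw [Nat.factorization_pow, Finsupp.smul_apply, (hp j).factorization_self, smul_eq_mul,
      mul_one] at h5
    exact Dvd.intro _ h5
  · intro i _ hij
    rw [Nat.factorization_pow, Finsupp.smul_apply, (hp i).factorization, Finsupp.single_apply,
      if_neg (fun h => hij (hinj h)), smul_zero]
  · intro h
    exact absurd (mem_univ j) h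

theorem addChar_sum {A ι : Type*} [AddCommGroup A] (ψ : AddChar A ℂ) (t : Finset ι) (f : ι → A) :
    ψ (∑ i ∈ t, f i) = ∏ i ∈ t, ψ (f i) := by
  classical
  induction t using Finset.induction_on with
  | empty => simp
  | insert a t ha ih => rw [sum_insert ha, prod_insert ha, AddChar.map_add_eq_mul, ih]

/-- positive real elements of `ℚ(Z)` with a rational power have a rational square -/
def SqRat {K : Type} [Field K] [Algebra ℚ K] (ι : K →+* ℂ) (Z : K) : Prop :=
  ∀ T : K, T ∈ ℚ⟮Z⟯ → ∀ t : ℝ, ι T = t → 0 < t → ∀ n : ℕ, n ≠ 0 → ∀ P : ℚ,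
    T ^ n = algebraMap ℚ K P → ∃ q : ℚ, T ^ 2 = algebraMap ℚ K q

theorem step1 {K : Type} [Field K] [NumberField K] [IsGalois ℚ K] (ι : K →+* ℂ)
    {Z : K} (hsq : SqRat ι Z) {s : ℕ} (hs : 1 ≤ s) {ξ : K}
    (hξ : IsPrimitiveRoot ξ (2 ^ s)) {k : ℕ} (p : Fin k → ℕ)
    (hp : ∀ i, (p i).Prime) (hinj : Function.Injective p) (R : Fin k → K) (ρ : Fin k → ℝ)
    (hρ : ∀ i, 0 < ρ i) (hR : ∀ i, ι (R i) = ρ i) (hRp : ∀ i, R i ^ 2 ^ s = (p i : K))
    (hξZ : ∃ j, ξ = Z ^ j) (x : Fin k → ℕ) :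
    ∃ σ : K ≃ₐ[ℚ] K, σ Z = Z ∧ ∀ i, σ (R i) = ξ ^ (2 * x i) * R i := by
  classical
  have hN0 : NeZero (2 ^ s) := ⟨by positivity⟩
  have hval : ∀ (m : ℕ) (a : ZMod (2 ^ s)), (m : ZMod (2 ^ s)) = a → ξ ^ m = ξ ^ a.val := by
    intro m a h
    rw [← h, ZMod.val_natCast, ← pow_mod_orderOf ξ m, ← hξ.eq_orderOf]
  have hσξ : ∀ σ : K ≃ₐ[ℚ] K, σ Z = Z → σ ξ = ξ := by
    intro σ h
    obtain ⟨j, rfl⟩ := hξZ
    rw [map_pow, h]
  -- the submonoid of vectors of exponents
  let C : AddSubmonoid (Fin k → ZMod (2 ^ s)) :=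
    { carrier := {c | ∃ σ : K ≃ₐ[ℚ] K, σ Z = Z ∧ ∀ i, σ (R i) = ξ ^ (c i).val * R i}
      zero_mem' := ⟨1, rfl, fun i => by simp⟩
      add_mem' := by
        rintro c d ⟨σ, hσ, hσR⟩ ⟨τ, hτ, hτR⟩
        refine ⟨σ * τ, by rw [AlgEquiv.mul_apply, hτ, hσ], fun i => ?_⟩
        rw [AlgEquiv.mul_apply, hτR, map_mul, map_pow, hσξ σ hσ, hσR, ← mul_assoc, ← pow_add]
        congr 1
        apply hval
        push_cast
        rw [ZMod.natCast_zmod_val, ZMod.natCast_zmod_val, Pi.add_apply, add_comm] }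
  let C' : AddSubgroup (Fin k → ZMod (2 ^ s)) :=
    { C with
      neg_mem' := by
        intro c hc
        have h1 : (2 ^ s - 1) • c ∈ C := AddSubmonoid.nsmul_mem _ hc _
        have h2 : (2 ^ s - 1) • c = -c := by
          have h3 : (2 ^ s - 1) • c + c = 0 := by
            rw [← succ_nsmul, Nat.sub_add_cancel (Nat.one_le_two_pow)]
            funext i
            rw [Pi.smul_apply, nsmul_eq_mul, ZMod.natCast_self, zero_mul]
            rfl
          exact eq_neg_of_add_eq_zero_left h3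
        rw [← h2]
        exact h1 }
  by_contra hcon
  set y : Fin k → ZMod (2 ^ s) := fun i => ((2 * x i : ℕ) : ZMod (2 ^ s)) with hy
  have hyC : y ∉ C' := by
    rintro ⟨σ, hσ, hσR⟩
    exact hcon ⟨σ, hσ, fun i => by rw [hσR, hval (2 * x i) (y i) rfl]⟩
  have hq : (QuotientAddGroup.mk y : (Fin k → ZMod (2 ^ s)) ⧸ C') ≠ 0 := by
    rw [Ne, QuotientAddGroup.eq_zero_iff]
    exact hyC
  obtain ⟨ψ, hψ⟩ := AddChar.exists_apply_ne_zero.2 hq
  have hξC : IsPrimitiveRoot (ι ξ) (2 ^ s) := hξ.map_of_injective ι.injective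
  -- the exponents of the character
  have hb : ∀ i : Fin k, ∃ b : ℕ,
      (ι ξ) ^ b = ψ (QuotientAddGroup.mk (Pi.single i (1 : ZMod (2 ^ s)))) := by
    intro i
    have h1 : (ψ (QuotientAddGroup.mk (Pi.single i (1 : ZMod (2 ^ s))))) ^ 2 ^ s = 1 := by
      rw [← AddChar.map_nsmul_eq_pow, ← QuotientAddGroup.mk_nsmul]
      have h2 : (2 ^ s) • (Pi.single i (1 : ZMod (2 ^ s)) : Fin k → ZMod (2 ^ s)) = 0 := by
        funext j
        rw [Pi.smul_apply, nsmul_eq_mul, ZMod.natCast_self, zero_mul]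
        rfl
      rw [h2]
      exact AddChar.map_zero_eq_one ψ
    obtain ⟨b, _, hb⟩ := hξC.eq_pow_of_pow_eq_one h1
    exact ⟨b, hb⟩
  choose b hb using hb
  have hψc : ∀ c : Fin k → ZMod (2 ^ s),
      ψ (QuotientAddGroup.mk c) = (ι ξ) ^ (∑ i, b i * (c i).val) := by
    intro c
    have h1 : c = ∑ i, (c i).val • (Pi.single i (1 : ZMod (2 ^ s)) : Fin k → ZMod (2 ^ s)) := by
      funext j
      rw [Finset.sum_apply, Finset.sum_eq_single j]
      · rw [Pi.smul_apply, Pi.single_eq_same, nsmul_eq_mul, mul_one, ZMod.natCast_zmod_val]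
      · intro i _ hij
        rw [Pi.smul_apply, Pi.single_eq_of_ne (Ne.symm hij), smul_zero]
      · intro h
        exact absurd (mem_univ j) h
    have h2 : (QuotientAddGroup.mk c : (Fin k → ZMod (2 ^ s)) ⧸ C') =
        ∑ i, (c i).val • QuotientAddGroup.mk (Pi.single i (1 : ZMod (2 ^ s))) := by
      conv_lhs => rw [h1]
      rw [← QuotientAddGroup.mk'_apply, map_sum]
      rfl
    rw [h2, addChar_sum, ← Finset.prod_pow_eq_pow_sum]
    refine Finset.prod_congr rfl fun i _ => ?_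
    rw [AddChar.map_nsmul_eq_pow, ← hb, ← pow_mul]
  -- the fixed element
  set T : K := ∏ i, R i ^ b i with hT
  have hR0 : ∀ i, R i ≠ 0 := by
    intro i h0
    have h1 := hR i
    rw [h0, map_zero] at h1
    have h2 : ρ i = 0 := by exact_mod_cast h1.symm
    exact (hρ i).ne' h2
  have hTfix : ∀ σ : K ≃ₐ[ℚ] K, σ Z = Z → σ T = T := by
    intro σ hσ
    have h1 : ∀ i, ∃ m : ℕ, σ (R i) = ξ ^ m * R i := by
      intro i
      have h2 : (σ (R i) / R i) ^ 2 ^ s = 1 := by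
        rw [div_pow, ← map_pow, hRp, map_natCast, ← hRp i, div_self]
        exact pow_ne_zero _ (hR0 i)
      obtain ⟨m, _, hm⟩ := hξ.eq_pow_of_pow_eq_one h2
      exact ⟨m, by rw [hm, div_mul_cancel₀ _ (hR0 i)]⟩
    choose m hm using h1
    set c : Fin k → ZMod (2 ^ s) := fun i => (m i : ZMod (2 ^ s)) with hc
    have hmc : ∀ i, σ (R i) = ξ ^ (c i).val * R i := by
      intro i
      rw [hm, hval (m i) (c i) rfl]
    have hcC : c ∈ C' := ⟨σ, hσ, hmc⟩
    have h3 : (QuotientAddGroup.mk c : (Fin k → ZMod (2 ^ s)) ⧸ C') = 0 :=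
      (QuotientAddGroup.eq_zero_iff c).2 hcC
    have h4 := hψc c
    rw [h3, AddChar.map_zero_eq_one] at h4
    have h5 : ξ ^ (∑ i, b i * (c i).val) = 1 := by
      apply ι.injective
      rw [map_pow, map_one]
      exact h4.symm
    rw [hT, map_prod]
    calc ∏ i, σ (R i ^ b i) = ∏ i, ((ξ ^ (b i * (c i).val)) * R i ^ b i) := by
          refine Finset.prod_congr rfl fun i _ => ?_
          rw [map_pow, hmc, mul_pow, ← pow_mul, mul_comm (c i).val]
      _ = ξ ^ (∑ i, b i * (c i).val) * ∏ i, R i ^ b i := by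
          rw [Finset.prod_mul_distrib, Finset.prod_pow_eq_pow_sum]
      _ = ∏ i, R i ^ b i := by rw [h5, one_mul]
  have hTmem : T ∈ ℚ⟮Z⟯ := by
    rw [← IsGalois.fixedField_fixingSubgroup ℚ⟮Z⟯, mem_fixedField_iff]
    intro f hf
    exact hTfix f ((mem_fixingSubgroup_iff _ _).1 hf Z (mem_adjoin_simple_self ℚ Z))
  have hTC : ι T = ((∏ i, ρ i ^ b i : ℝ) : ℂ) := by
    rw [hT, map_prod]
    push_cast
    exact Finset.prod_congr rfl fun i _ => by rw [map_pow, hR]
  have hTp : T ^ 2 ^ s = algebraMap ℚ K (∏ i, (p i : ℚ) ^ b i) := by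
    rw [hT, ← Finset.prod_pow, map_prod]
    refine Finset.prod_congr rfl fun i _ => ?_
    rw [map_pow, map_natCast, ← hRp i, ← pow_mul, ← pow_mul, mul_comm]
  obtain ⟨q, hq2⟩ := hsq T hTmem _ hTC (Finset.prod_pos fun i _ => pow_pos (hρ i) _)
    (2 ^ s) (by positivity) _ hTp
  have hqp : q ^ 2 ^ (s - 1) = ∏ i, (p i : ℚ) ^ b i := by
    apply (algebraMap ℚ K).injective
    rw [← hTp, map_pow, ← hq2, ← pow_mul, ← pow_succ']
    congr 2
    omega
  have hdvd := dvd_exponents p hp hinj b (2 ^ (s - 1)) (by positivity) q hqp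
  apply hψ
  rw [hψc]
  have h6 : 2 ^ s ∣ ∑ i, b i * (y i).val := by
    refine Finset.dvd_sum fun i _ => ?_
    have h7 : 2 ∣ (y i).val := by
      rw [hy]
      simp only
      rw [ZMod.val_natCast]
      exact (Nat.dvd_mod_iff (dvd_pow_self 2 (by omega))).2 (dvd_mul_right _ _)
    have h8 : 2 ^ s = 2 ^ (s - 1) * 2 := by
      rw [← pow_succ]
      congr 1
      omega
    exact (dvd_of_eq h8).trans (Nat.mul_dvd_mul (hdvd i) h7)
  obtain ⟨d, hd⟩ := h6
  rw [hd, pow_mul, hξC.pow_eq_one, one_pow]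

end Pool.Agent.TH66.SG
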