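import Mathlib
import Pool.Agent.TH66.SG.Gal2

/-!
# Automorphisms with prescribed action on roots of unity and on the roots of primes
-/

set_option autoImplicit false

namespace Pool.Agent.TH66.SG

open Finset Polynomial IntermediateField

theorem pow_apply {K : Type} [Field K] [Algebra ℚ K] (σ : K ≃ₐ[ℚ] K) (c y : K) (hy : σ y = c * y)
    (hc : σ c = c) (n : ℕ) : (σ ^ n) y = c ^ n * y := by
  induction n with
  | zero => simp
  | succ n ih =>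
    rw [pow_succ, AlgEquiv.mul_apply, hy, map_mul, ih]
    have h : (σ ^ n) c = c := by
      clear ih
      induction n with
      | zero => simp
      | succ n ih => rw [pow_succ, AlgEquiv.mul_apply, hc, ih]
    rw [h]
    ring

theorem step2 {K : Type} [Field K] [NumberField K] [IsGalois ℚ K] {s M : ℕ} (hs : 3 ≤ s)
    (hM : Odd M) {Z : K} (hZ : IsPrimitiveRoot Z (2 ^ (s + 1) * M)) :
    ∃ (τ : K ≃ₐ[ℚ] K) (κ : ℕ), Odd κ ∧ τ Z = Z ^ κ ∧ τ (τ Z) = -Z := by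
  have hMpos := hM.pos
  have hcop : Nat.Coprime (2 ^ (s + 1)) M := Nat.Coprime.pow_left _ (Nat.coprime_two_left.2 hM)
  obtain ⟨κ, h1, h2⟩ := Nat.chineseRemainder hcop (1 + 2 ^ (s - 1)) 1
  have hodd : Odd κ := by
    have h3 : κ ≡ 1 + 2 ^ (s - 1) [MOD 2] := h1.of_dvd (dvd_pow_self 2 (by omega))
    have h4 : (1 + 2 ^ (s - 1)) % 2 = 1 := by
      obtain ⟨t, ht⟩ : ∃ t, s - 1 = t + 1 := ⟨s - 2, by omega⟩
      rw [ht, pow_succ]
      omega
    rw [Nat.odd_iff]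
    unfold Nat.ModEq at h3
    rw [h3, h4]
  have hκ : Nat.Coprime κ (2 ^ (s + 1) * M) := by
    refine Nat.Coprime.mul_right ?_ ?_
    · exact Nat.Coprime.pow_right _ (Nat.coprime_two_right.2 hodd)
    · have := h2.gcd_eq
      rw [Nat.gcd_one_left] at this
      exact this
  have hpos : 0 < 2 ^ (s + 1) * M := by positivity
  have hZκ : IsPrimitiveRoot (Z ^ κ) (2 ^ (s + 1) * M) := hZ.pow_of_coprime κ hκ
  have hmin : aeval Z (minpoly ℚ (Z ^ κ)) = 0 := by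
    rw [← cyclotomic_eq_minpoly_rat hZκ hpos, cyclotomic_eq_minpoly_rat hZ hpos]
    exact minpoly.aeval ℚ Z
  obtain ⟨τ, hτ⟩ := minpoly.exists_algEquiv_of_root (K := ℚ) (x := Z) (y := Z ^ κ)
    (Algebra.IsAlgebraic.isAlgebraic _) hmin
  refine ⟨τ, κ, hodd, hτ, ?_⟩
  rw [hτ, map_pow, hτ, ← pow_mul]
  -- `κ * κ ≡ 1 + 2 ^ s * M`
  have h5 : κ * κ ≡ 1 + 2 ^ s * M [MOD 2 ^ (s + 1) * M] := by
    refine (Nat.modEq_and_modEq_iff_modEq_mul hcop).1 ⟨?_, ?_⟩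
    · have h6 : κ * κ ≡ (1 + 2 ^ (s - 1)) * (1 + 2 ^ (s - 1)) [MOD 2 ^ (s + 1)] := h1.mul h1
      refine h6.trans ?_
      obtain ⟨t, rfl⟩ : ∃ t, s = t + 3 := ⟨s - 3, by omega⟩
      obtain ⟨r, hr⟩ := hM
      have e1 : t + 3 - 1 = t + 2 := by omega
      rw [e1, hr]
      have e2 : (1 + 2 ^ (t + 2)) * (1 + 2 ^ (t + 2)) =
          1 + 2 ^ (t + 3) + 2 ^ (t + 3 + 1) * 2 ^ t := by ring
      have e3 : 1 + 2 ^ (t + 3) * (2 * r + 1) = 1 + 2 ^ (t + 3) + 2 ^ (t + 3 + 1) * r := by ring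
      rw [e2, e3]
      unfold Nat.ModEq
      rw [Nat.add_mul_mod_self_left, Nat.add_mul_mod_self_left]
    · have h6 : κ * κ ≡ 1 * 1 [MOD M] := h2.mul h2
      refine h6.trans ?_
      unfold Nat.ModEq
      rw [Nat.add_mul_mod_self_right, one_mul]
  have h6 : Z ^ (κ * κ) = Z ^ (1 + 2 ^ s * M) := by
    rw [← pow_mod_orderOf Z (κ * κ), ← pow_mod_orderOf Z (1 + 2 ^ s * M), ← hZ.eq_orderOf]
    congr 1
  rw [h6, pow_add, pow_one]
  have h7 : Z ^ (2 ^ s * M) = -1 := by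
    have h8 : (Z ^ (2 ^ s * M)) ^ 2 = 1 := by
      rw [← pow_mul]
      have : 2 ^ s * M * 2 = 2 ^ (s + 1) * M := by ring
      rw [this, hZ.pow_eq_one]
    have h9 : Z ^ (2 ^ s * M) ≠ 1 := by
      intro h
      have := hZ.dvd_of_pow_eq_one _ h
      have h10 : 2 ^ (s + 1) * M ≤ 2 ^ s * M := Nat.le_of_dvd (by positivity) this
      have h11 : 2 ^ (s + 1) * M = 2 * (2 ^ s * M) := by ring
      have h12 : 0 < 2 ^ s * M := by positivity
      omega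
    have h8' : Z ^ (2 ^ s * M) * Z ^ (2 ^ s * M) = 1 := by rw [← sq]; exact h8
    rcases mul_self_eq_one_iff.1 h8' with h | h
    · exact absurd h h9
    · exact h
  rw [h7]
  ring

/-- an automorphism with `σ Z = - Z` and prescribed action on the roots of the primes -/
theorem step3 {K : Type} [Field K] [NumberField K] [IsGalois ℚ K] (ι : K →+* ℂ) {s M : ℕ}
    (hs : 3 ≤ s) (hM : Odd M) {Z : K} (hZ : IsPrimitiveRoot Z (2 ^ (s + 1) * M))
    (hsq : SqRat ι Z) {k : ℕ} (p : Fin k → ℕ)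
    (hp : ∀ i, (p i).Prime) (hinj : Function.Injective p) (R S : Fin k → K) (ρ : Fin k → ℝ)
    (hρ : ∀ i, 0 < ρ i) (hR : ∀ i, ι (R i) = ρ i) (hRp : ∀ i, R i ^ 2 ^ s = (p i : K))
    (hSp : ∀ i, S i ^ M = (p i : K)) (x : Fin k → ℕ) :
    ∃ σ : K ≃ₐ[ℚ] K, σ Z = -Z ∧ (∀ i, σ (R i) = (Z ^ (2 * M)) ^ (2 * x i) * R i) ∧
      ∀ i, σ (S i) = S i := by
  have hMpos := hM.pos
  obtain ⟨τ, κ, hκ, hτZ, hττ⟩ := step2 hs hM hZ
  set ξ : K := Z ^ (2 * M) with hξd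
  have hξ : IsPrimitiveRoot ξ (2 ^ s) :=
    hZ.pow (by positivity) (by ring)
  have hξ1 : ξ ^ 2 ^ s = 1 := hξ.pow_eq_one
  have hR0 : ∀ i, R i ≠ 0 := by
    intro i h0
    have h1 := hR i
    rw [h0, map_zero] at h1
    have h2 : ρ i = 0 := by exact_mod_cast h1.symm
    exact (hρ i).ne' h2
  -- the action of `τ ^ 2`
  have hτR : ∀ i, ∃ y : ℕ, τ (τ (R i)) = ξ ^ (2 * y) * R i := by
    intro i
    have h2 : (τ (R i) / R i) ^ 2 ^ s = 1 := by
      rw [div_pow, ← map_pow, hRp, map_natCast, ← hRp i, div_self]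
      exact pow_ne_zero _ (hR0 i)
    obtain ⟨m, _, hm⟩ := hξ.eq_pow_of_pow_eq_one h2
    have hm' : τ (R i) = ξ ^ m * R i := by rw [hm, div_mul_cancel₀ _ (hR0 i)]
    obtain ⟨r, hr⟩ := hκ
    refine ⟨m * (r + 1), ?_⟩
    have hτξ : τ ξ = ξ ^ κ := by
      rw [hξd, map_pow, hτZ, ← pow_mul, ← pow_mul, mul_comm]
    rw [hm', map_mul, map_pow, hτξ, hm', ← mul_assoc, ← pow_mul, ← pow_add, hr]
    congr 2
    ring
  choose y hy using hτR
  -- the correction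
  obtain ⟨σ₁, hσ₁Z, hσ₁R⟩ := step1 ι hsq (by omega) hξ p hp hinj R ρ hρ hR hRp ⟨_, rfl⟩
    (fun i => x i + (2 ^ s - 1) * y i)
  set σ₂ : K ≃ₐ[ℚ] K := σ₁ * (τ * τ) with hσ₂
  have hσ₂Z : σ₂ Z = -Z := by
    rw [hσ₂, AlgEquiv.mul_apply, AlgEquiv.mul_apply, hττ, map_neg, hσ₁Z]
  have hσ₁ξ : σ₁ ξ = ξ := by rw [hξd, map_pow, hσ₁Z]
  have hσ₂R : ∀ i, σ₂ (R i) = ξ ^ (2 * x i) * R i := by
    intro i
    rw [hσ₂, AlgEquiv.mul_apply, AlgEquiv.mul_apply, hy, map_mul, map_pow, hσ₁ξ, hσ₁R,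
      ← mul_assoc, ← pow_add]
    congr 1
    have e : 2 * y i + 2 * (x i + (2 ^ s - 1) * y i) = 2 * x i + 2 ^ s * (2 * y i) := by
      obtain ⟨t, ht⟩ : ∃ t, 2 ^ s = t + 1 := ⟨2 ^ s - 1, (Nat.sub_add_cancel Nat.one_le_two_pow).symm⟩
      rw [ht, Nat.add_sub_cancel]
      ring
    rw [e, pow_add, pow_mul ξ (2 ^ s), hξ1, one_pow, mul_one]
  -- the odd power
  have hcop : Nat.Coprime (2 ^ s) M := Nat.Coprime.pow_left _ (Nat.coprime_two_left.2 hM)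
  obtain ⟨X, hX1, hX2⟩ := Nat.chineseRemainder hcop 1 0
  have hXo : Odd X := by
    have h3 : X ≡ 1 [MOD 2] := hX1.of_dvd (dvd_pow_self 2 (by omega))
    rw [Nat.odd_iff]
    exact h3
  have hXM : M ∣ X := (Nat.modEq_zero_iff_dvd).1 hX2
  have hσ₂ξ : σ₂ ξ = ξ := by
    rw [hξd, map_pow, hσ₂Z, (even_two_mul M).neg_pow]
  refine ⟨σ₂ ^ X, ?_, fun i => ?_, fun i => ?_⟩
  · have h := pow_apply σ₂ (-1) Z (by rw [hσ₂Z]; ring) (by rw [map_neg, map_one]) X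
    rw [h, hXo.neg_one_pow]
    ring
  · have h := pow_apply σ₂ (ξ ^ (2 * x i)) (R i) (hσ₂R i) (by rw [map_pow, hσ₂ξ]) X
    rw [h]
    congr 1
    rw [← pow_mul]
    have h4 : 2 * x i * X ≡ 2 * x i * 1 [MOD 2 ^ s] := hX1.mul_left _
    rw [mul_one] at h4
    rw [← pow_mod_orderOf ξ (2 * x i * X), ← pow_mod_orderOf ξ (2 * x i), ← hξ.eq_orderOf]
    congr 1
  · have hp0 : (p i : K) ≠ 0 := by exact_mod_cast (hp i).ne_zero
    have hS0 : S i ≠ 0 := by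
      intro h0
      have h1 := hSp i
      rw [h0, zero_pow hMpos.ne'] at h1
      exact hp0 h1.symm
    have h2 : (σ₂ (S i) / S i) ^ M = 1 := by
      rw [div_pow, ← map_pow, hSp, map_natCast, ← hSp i, div_self]
      exact pow_ne_zero _ hS0
    have hω : IsPrimitiveRoot (Z ^ (2 ^ (s + 1))) M := hZ.pow (by positivity) rfl
    have : NeZero M := ⟨hMpos.ne'⟩
    obtain ⟨m, _, hm⟩ := hω.eq_pow_of_pow_eq_one h2
    have hm' : σ₂ (S i) = (Z ^ (2 ^ (s + 1))) ^ m * S i := by rw [hm, div_mul_cancel₀ _ hS0]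
    have hfix : σ₂ ((Z ^ (2 ^ (s + 1))) ^ m) = (Z ^ (2 ^ (s + 1))) ^ m := by
      rw [map_pow, map_pow, hσ₂Z]
      congr 1
      have : Even (2 ^ (s + 1)) := (Nat.even_pow.2 ⟨even_two, by omega⟩)
      exact this.neg_pow Z
    have h := pow_apply σ₂ _ (S i) hm' hfix X
    rw [h]
    obtain ⟨d, rfl⟩ := hXM
    rw [← pow_mul, mul_left_comm, pow_mul, hω.pow_eq_one, one_pow, one_mul]

/-- the field -/
theorem exists_field (s M : ℕ) (hM : M ≠ 0) {k : ℕ} (p : Fin k → ℕ) (hp : ∀ i, (p i).Prime) :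
    ∃ (K : Type) (_ : Field K) (_ : NumberField K) (_ : IsGalois ℚ K) (ι : K →+* ℂ) (Z : K)
      (R S : Fin k → K) (ρ : Fin k → ℝ), IsPrimitiveRoot Z (2 ^ (s + 1) * M) ∧ SqRat ι Z ∧
      (∀ i, 0 < ρ i) ∧ (∀ i, ι (R i) = ρ i) ∧ (∀ i, R i ^ 2 ^ s = (p i : K)) ∧
      (∀ i, S i ^ M = (p i : K)) := by
  classical
  set N := 2 ^ (s + 1) * M with hN
  have hN0 : N ≠ 0 := by positivity
  set f : ℚ[X] := (∏ i, (X ^ 2 ^ s - C (p i : ℚ))) * (∏ i, (X ^ M - C (p i : ℚ))) *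
    (X ^ N - C 1) with hf
  have hf0 : f ≠ 0 := by
    rw [hf]
    refine mul_ne_zero (mul_ne_zero ?_ ?_) ?_
    · exact Finset.prod_ne_zero_iff.2 fun i _ => (monic_X_pow_sub_C _ (by positivity)).ne_zero
    · exact Finset.prod_ne_zero_iff.2 fun i _ => (monic_X_pow_sub_C _ hM).ne_zero
    · exact (monic_X_pow_sub_C _ hN0).ne_zero
  let K : IntermediateField ℚ ℂ := adjoin ℚ (f.rootSet ℂ)
  have hspl : IsSplittingField ℚ K f := adjoin_rootSet_isSplittingField (IsAlgClosed.splits _)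
  have hfd : FiniteDimensional ℚ K := IsSplittingField.finiteDimensional K f
  have hnor : Normal ℚ K := Normal.of_isSplittingField f
  have hgal : IsGalois ℚ K := IsGalois.mk
  have hnf : NumberField K := NumberField.mk
  have hmem : ∀ α : ℂ, aeval α f = 0 → α ∈ K := fun α hα =>
    subset_adjoin ℚ _ ((mem_rootSet).2 ⟨hf0, hα⟩)
  have hroot : ∀ α : ℂ, (∃ i, α ^ 2 ^ s = p i) ∨ (∃ i, α ^ M = p i) ∨ α ^ N = 1 → α ∈ K := by
    intro α hα
    apply hmem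
    rw [hf, map_mul, map_mul, map_prod, map_prod]
    rcases hα with ⟨i, h⟩ | ⟨i, h⟩ | h
    · have : aeval α (X ^ 2 ^ s - C (p i : ℚ)) = 0 := by
        simp [h]
      rw [Finset.prod_eq_zero (mem_univ i) this, zero_mul, zero_mul]
    · have : aeval α (X ^ M - C (p i : ℚ)) = 0 := by
        simp [h]
      have h2 : ∏ i, aeval α (X ^ M - C (p i : ℚ)) = 0 := Finset.prod_eq_zero (mem_univ i) this
      rw [h2, mul_zero, zero_mul]
    · have : aeval α (X ^ N - C (1 : ℚ)) = 0 := by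
        simp [h]
      rw [this, mul_zero]
  have hNz : NeZero N := ⟨hN0⟩
  have hζ := Complex.isPrimitiveRoot_exp N hN0
  set ζ := Complex.exp (2 * Real.pi * Complex.I / N) with hζd
  -- real roots
  have hreal : ∀ (n : ℕ), n ≠ 0 → ∀ i, ((((p i : ℝ) ^ ((1 : ℝ) / n) : ℝ) : ℂ)) ^ n = p i := by
    intro n hn i
    have h1 : ((p i : ℝ) ^ ((1 : ℝ) / n)) ^ n = (p i : ℝ) := by
      rw [← Real.rpow_natCast, ← Real.rpow_mul (Nat.cast_nonneg _), one_div,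
        inv_mul_cancel₀ (by exact_mod_cast hn), Real.rpow_one]
    exact_mod_cast congrArg (fun x : ℝ => (x : ℂ)) h1
  refine ⟨K, inferInstance, hnf, hgal, algebraMap K ℂ,
    ⟨ζ, hroot ζ (Or.inr (Or.inr hζ.pow_eq_one))⟩,
    fun i => ⟨(((p i : ℝ) ^ ((1 : ℝ) / (2 ^ s : ℕ)) : ℝ) : ℂ),
      hroot _ (Or.inl ⟨i, hreal (2 ^ s) (by positivity) i⟩)⟩,
    fun i => ⟨(((p i : ℝ) ^ ((1 : ℝ) / M) : ℝ) : ℂ), hroot _ (Or.inr (Or.inl ⟨i, hreal M hM i⟩))⟩,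
    fun i => (p i : ℝ) ^ ((1 : ℝ) / (2 ^ s : ℕ)), ?_, ?_, ?_, ?_, ?_, ?_⟩
  · exact IsPrimitiveRoot.of_map_of_injective (f := algebraMap K ℂ) hζ (algebraMap K ℂ).injective
  · intro T hT t ht ht0 n hn P hP
    exact sq_rational K (n₀ := N)
      (IsPrimitiveRoot.of_map_of_injective (f := algebraMap K ℂ) hζ (algebraMap K ℂ).injective)
      T hT t ht ht0 n hn P hP
  · intro i
    exact Real.rpow_pos_of_pos (by exact_mod_cast (hp i).pos) _
  · intro i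
    rfl
  · intro i
    apply Subtype.ext
    exact hreal (2 ^ s) (by positivity) i
  · intro i
    apply Subtype.ext
    exact hreal M hM i

end Pool.Agent.TH66.SG
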