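import Mathlib
import Pool.Agent.TH66.SG.Gal3
import Pool.Agent.TH888.B1.Roots

/-!
# Primes `w` with prescribed `2`-power residue symbols of given primes (Chebotarev)
-/

set_option autoImplicit false

namespace Pool.Agent.TH66.SG

open Finset Polynomial NumberField

theorem pow_half {F : Type} [Field F] {n : ℕ} (hn : 0 < n) {Z : F}
    (hZ : IsPrimitiveRoot Z (2 * n)) : Z ^ n = -1 := by
  have h8' : Z ^ n * Z ^ n = 1 := by rw [← sq, ← pow_mul, mul_comm, hZ.pow_eq_one]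
  rcases mul_self_eq_one_iff.1 h8' with h | h
  · have := Nat.le_of_dvd hn (hZ.dvd_of_pow_eq_one _ h)
    omega
  · exact h

/-- the primes of Chebotarev's theorem -/
def Good (s M K₀ : ℕ) {k : ℕ} (p x : Fin k → ℕ) : Set ℕ :=
  {w : ℕ | w.Prime ∧ K₀ < w ∧ ∃ b : ℕ, Odd b ∧ w = 2 ^ s * b + 1 ∧ M ∣ b ∧
    ∃ g : ZMod w, g ^ (2 ^ (s - 1)) = -1 ∧ (∀ i, (p i : ZMod w) ^ b = g ^ (2 * x i)) ∧
      ∀ i, (p i : ZMod w) ^ ((w - 1) / M) = 1}

theorem good_diverges (s M K₀ : ℕ) (hs : 3 ≤ s) (hM : Odd M) {k : ℕ} (p : Fin k → ℕ)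
    (hp : ∀ i, (p i).Prime) (hinj : Function.Injective p) (x : Fin k → ℕ) :
    ¬ Summable (fun n : ℕ => (Good s M K₀ p x).indicator (fun n : ℕ => (1 : ℝ) / n) n) := by
  have hMpos := hM.pos
  obtain ⟨K, hK1, hK2, hK3, ι, Z, R, S, ρ, hZ, hsq, hρ, hR, hRp, hSp⟩ :=
    exists_field s M hMpos.ne' p hp
  obtain ⟨σ, hσZ, hσR, hσS⟩ := step3 ι hs hM hZ hsq p hp hinj R S ρ hρ hR hRp hSp x
  have hdiv := Pool.Agent.TH888.B1.frob_diverges K σ
  set B : ℕ := K₀ + 2 ^ (s + 1) * M + ∑ i, p i with hB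
  refine Pool.Agent.TH888.B1.diverges_mono ?_
    (Pool.Agent.TH888.B1.diverges_diff (Set.finite_Iic B) hdiv)
  rintro w ⟨⟨hw, hxp⟩, hwB⟩
  have hwB' : B < w := by simpa using hwB
  have : Fact w.Prime := ⟨hw⟩
  obtain ⟨φ, hφ⟩ := Pool.Agent.TH888.B1.exists_hom σ hw hxp
  set F := AlgebraicClosure (ZMod w) with hF
  have hN : NeZero (((2 ^ (s + 1) * M : ℕ) : F)) := by
    constructor
    intro h
    rw [CharP.cast_eq_zero_iff F w] at h
    have := Nat.le_of_dvd (by positivity) h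
    omega
  have hZint : IsIntegral ℤ Z := by
    refine ⟨X ^ (2 ^ (s + 1) * M) - C 1, monic_X_pow_sub_C _ (by positivity), ?_⟩
    simp [hZ.pow_eq_one]
  have hRint : ∀ i, IsIntegral ℤ (R i) := by
    intro i
    refine ⟨X ^ (2 ^ s) - C (p i : ℤ), monic_X_pow_sub_C _ (by positivity), ?_⟩
    simp [hRp i]
  have hSint : ∀ i, IsIntegral ℤ (S i) := by
    intro i
    refine ⟨X ^ M - C (p i : ℤ), monic_X_pow_sub_C _ (by positivity), ?_⟩
    simp [hSp i]
  obtain ⟨z, hz⟩ : ∃ z : 𝓞 K, (z : K) = Z := ⟨⟨Z, hZint⟩, rfl⟩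
  have hrex : ∀ i, ∃ r : 𝓞 K, (r : K) = R i := fun i => ⟨⟨R i, hRint i⟩, rfl⟩
  have hsex : ∀ i, ∃ r : 𝓞 K, (r : K) = S i := fun i => ⟨⟨S i, hSint i⟩, rfl⟩
  choose r hr using hrex
  choose t ht using hsex
  have hsm : ∀ y : 𝓞 K, ((σ • y : 𝓞 K) : K) = σ (y : K) := fun y => rfl
  have hzprim : IsPrimitiveRoot z (2 ^ (s + 1) * M) := by
    apply IsPrimitiveRoot.of_map_of_injective (f := algebraMap (𝓞 K) K)
    · rw [show algebraMap (𝓞 K) K z = Z from hz]
      exact hZ
    · exact RingOfIntegers.coe_injective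
  have hθ : IsPrimitiveRoot (φ z) (2 ^ (s + 1) * M) := by
    have h1 := (hzprim.isRoot_cyclotomic (by positivity)).map (f := φ)
    rw [map_cyclotomic] at h1
    exact isRoot_cyclotomic_iff.1 h1
  set θ := φ z with hθd
  have hθ0 : θ ≠ 0 := hθ.ne_zero (by positivity)
  have h2 : 2 ^ (s + 1) * M = 2 * (2 ^ s * M) := by ring
  have hθw : θ ^ w = -θ := by
    rw [hθd, ← hφ z]
    have h1 : σ • z = -z := by
      apply RingOfIntegers.coe_injective
      rw [map_neg]
      change ((σ • z : 𝓞 K) : K) = -(z : K)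
      rw [hsm, hz, hσZ]
    rw [h1, map_neg]
  have hw1 : w = (w - 1) + 1 := by
    have := hw.two_le
    omega
  have hθw1 : θ ^ (w - 1) = -1 := by
    have h1 : θ ^ (w - 1) * θ = -1 * θ := by
      rw [← pow_succ, ← hw1, hθw]
      ring
    exact mul_right_cancel₀ hθ0 h1
  have hhalf : θ ^ (2 ^ s * M) = -1 := by
    apply pow_half (by positivity)
    rw [← h2]
    exact hθ
  have hneg : (-1 : F) ≠ 1 := by
    intro h
    have h1 : (2 : F) = 0 := by linear_combination -h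
    have h3 : ((2 : ℕ) : F) = 0 := by exact_mod_cast h1
    rw [CharP.cast_eq_zero_iff F w] at h3
    have h4 := Nat.le_of_dvd (by norm_num) h3
    have h5 : 2 ≤ 2 ^ (s + 1) * M := by
      have : 2 ^ 1 ≤ 2 ^ (s + 1) := Nat.pow_le_pow_right (by norm_num) (by omega)
      nlinarith
    omega
  have hdvd : 2 ^ s * M ∣ w - 1 := by
    have h1 : θ ^ (2 * (w - 1)) = 1 := by
      rw [mul_comm, pow_mul, hθw1]
      norm_num
    have h3 := hθ.dvd_of_pow_eq_one _ h1
    rw [h2] at h3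
    exact Nat.dvd_of_mul_dvd_mul_left (by norm_num) h3
  obtain ⟨q, hq⟩ := hdvd
  have hqo : Odd q := by
    by_contra h
    rw [Nat.not_odd_iff_even] at h
    rw [hq, pow_mul, hhalf, h.neg_one_pow] at hθw1
    exact hneg hθw1.symm
  have hwb : w = 2 ^ s * (M * q) + 1 := by
    rw [← mul_assoc, ← hq]
    exact hw1
  set γ := θ ^ (2 * M) with hγ
  have hγw : γ ^ w = γ := by
    rw [hγ, ← pow_mul, mul_comm (2 * M) w, pow_mul, hθw, (even_two_mul M).neg_pow]
  obtain ⟨g, hg⟩ := W54.ChTor.frob_fixed w γ hγw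
  have hinjF : Function.Injective (algebraMap (ZMod w) F) := (algebraMap (ZMod w) F).injective
  have hp0 : ∀ i, ((p i : ℕ) : F) ≠ 0 := by
    intro i h
    rw [CharP.cast_eq_zero_iff F w] at h
    have h1 := Nat.le_of_dvd (hp i).pos h
    have h3 : p i ≤ ∑ i, p i := Finset.single_le_sum (fun _ _ => Nat.zero_le _) (mem_univ i)
    omega
  refine ⟨hw, by omega, M * q, hM.mul hqo, hwb, dvd_mul_right _ _, g, ?_, fun i => ?_, fun i => ?_⟩
  · apply hinjF
    rw [map_pow, hg, hγ, ← pow_mul, map_neg, map_one, ← hhalf]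
    congr 1
    obtain ⟨u, rfl⟩ : ∃ u, s = u + 1 := ⟨s - 1, by omega⟩
    rw [Nat.add_sub_cancel]
    ring
  · apply hinjF
    rw [map_pow, map_pow, hg, map_natCast]
    have h1 : φ (r i) ^ 2 ^ s = (p i : F) := by
      rw [← map_pow]
      have h3 : r i ^ 2 ^ s = (p i : 𝓞 K) := by
        apply RingOfIntegers.coe_injective
        rw [map_pow, map_natCast]
        change ((r i : K)) ^ 2 ^ s = _
        rw [hr, hRp]
      rw [h3, map_natCast]
    have hr0 : φ (r i) ≠ 0 := by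
      intro h0
      rw [h0, zero_pow (by positivity)] at h1
      exact hp0 i h1.symm
    have h4 : φ (r i) ^ w = γ ^ (2 * x i) * φ (r i) := by
      rw [← hφ]
      have h5 : σ • r i = (z ^ (2 * M)) ^ (2 * x i) * r i := by
        apply RingOfIntegers.coe_injective
        rw [map_mul, map_pow, map_pow]
        change ((σ • r i : 𝓞 K) : K) = ((z : K) ^ (2 * M)) ^ (2 * x i) * (r i : K)
        rw [hsm, hr, hσR, hz]
      rw [h5, map_mul, map_pow, map_pow]
    have h6 : φ (r i) ^ (w - 1) = γ ^ (2 * x i) := by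
      have h7 : φ (r i) ^ (w - 1) * φ (r i) = γ ^ (2 * x i) * φ (r i) := by
        rw [← pow_succ, ← hw1, h4]
      exact mul_right_cancel₀ hr0 h7
    rw [← h6, ← h1, ← pow_mul, hq, mul_assoc]
  · apply hinjF
    rw [map_pow, map_natCast, map_one]
    have h1 : φ (t i) ^ M = (p i : F) := by
      rw [← map_pow]
      have h3 : t i ^ M = (p i : 𝓞 K) := by
        apply RingOfIntegers.coe_injective
        rw [map_pow, map_natCast]
        change ((t i : K)) ^ M = _
        rw [ht, hSp]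
      rw [h3, map_natCast]
    have ht0 : φ (t i) ≠ 0 := by
      intro h0
      rw [h0, zero_pow hMpos.ne'] at h1
      exact hp0 i h1.symm
    have h4 : φ (t i) ^ w = φ (t i) := by
      rw [← hφ]
      have h5 : σ • t i = t i := by
        apply RingOfIntegers.coe_injective
        change ((σ • t i : 𝓞 K) : K) = (t i : K)
        rw [hsm, ht, hσS]
      rw [h5]
    have h6 : φ (t i) ^ (w - 1) = 1 := by
      have h7 : φ (t i) ^ (w - 1) * φ (t i) = 1 * φ (t i) := by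
        rw [← pow_succ, ← hw1, h4, one_mul]
      exact mul_right_cancel₀ ht0 h7
    have hMw : M ∣ w - 1 := ⟨2 ^ s * q, by rw [hq]; ring⟩
    rw [← h1, ← pow_mul, Nat.mul_div_cancel' hMw, h6]

end Pool.Agent.TH66.SG
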