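import Mathlib

/-!
# Finite nilpotent groups have cyclic quotients of every prime order dividing their order
-/

set_option autoImplicit false

namespace Pool.Agent.TH66.SG

/-- a nontrivial finite `p`-group has a quotient of order `p` -/
theorem pgroup_quot (P : Type) [Group P] [Finite P] (p : ℕ) [hp : Fact p.Prime] (k : ℕ) (hk : k ≠ 0)
    (hP : Nat.card P = p ^ k) : ∃ φ : P →* Multiplicative (ZMod p), Function.Surjective φ := by
  obtain ⟨K, hK⟩ := Sylow.exists_subgroup_card_pow_prime (G := P) p (n := k - 1)
    (by rw [hP]; exact pow_dvd_pow p (by omega))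
  have hpk : p ^ k = p ^ (k - 1) * p := by
    rw [← pow_succ]
    congr 1
    omega
  have hidx : K.index = p := by
    have h1 := K.card_mul_index
    rw [hP, hK, hpk] at h1
    exact Nat.eq_of_mul_eq_mul_left (pow_pos hp.out.pos _) h1
  have hmin : (Nat.card P).minFac = p := by
    rw [hP, Nat.Prime.pow_minFac hp.out hk]
  have hN : K.Normal := Subgroup.normal_of_index_eq_minFac_card (by rw [hidx, hmin])
  have hQ : Nat.card (P ⧸ K) = p := by rw [← Subgroup.index_eq_card, hidx]
  let e : (P ⧸ K) ≃* Multiplicative (ZMod p) :=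
    mulEquivOfPrimeCardEq (p := p) hQ (by simp)
  exact ⟨e.toMonoidHom.comp (QuotientGroup.mk' K),
    e.surjective.comp (QuotientGroup.mk'_surjective K)⟩

/-- a finite nilpotent group has a quotient of order `p` for every prime divisor `p` of its order -/
theorem nilp_quot (G : Type) [Group G] [Finite G] [hG : Group.IsNilpotent G] (p : ℕ)
    [hp : Fact p.Prime] (hpG : p ∣ Nat.card G) :
    ∃ φ : G →* Multiplicative (ZMod p), Function.Surjective φ := by
  classical
  obtain ⟨ϕ⟩ := ((Group.isNilpotent_of_finite_tfae (G := G)).out 0 4).mp hG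
  have hmem : p ∈ (Nat.card G).primeFactors :=
    Nat.mem_primeFactors.2 ⟨hp.out, hpG, Nat.card_pos.ne'⟩
  obtain ⟨P⟩ : Nonempty (Sylow p G) := inferInstance
  have hcard := P.card_eq_multiplicity
  obtain ⟨ψ, hψ⟩ := pgroup_quot P p ((Nat.card G).factorization p)
    (by
      have := (Nat.Prime.factorization_pos_of_dvd hp.out Nat.card_pos.ne' hpG)
      omega) hcard
  let e1 := Pi.evalMonoidHom (fun q : (Nat.card G).primeFactors => ∀ P : Sylow q G, P) ⟨p, hmem⟩
  let e2 := Pi.evalMonoidHom (fun P : Sylow p G => P) P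
  refine ⟨ψ.comp ((e2.comp e1).comp ϕ.symm.toMonoidHom), ?_⟩
  have h1 : Function.Surjective e1 :=
    Function.surjective_eval (⟨p, hmem⟩ : (Nat.card G).primeFactors)
  have h2 : Function.Surjective e2 := Function.surjective_eval P
  have h3 : Function.Surjective ((e2.comp e1).comp ϕ.symm.toMonoidHom) := by
    rw [MonoidHom.coe_comp, MonoidHom.coe_comp]
    exact (h2.comp h1).comp ϕ.symm.surjective
  exact hψ.comp h3

/-- two quotients of coprime prime orders combine -/
theorem prod_surj (G : Type) [Group G] (p q : ℕ) [hp : Fact p.Prime] [hq : Fact q.Prime]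
    (hpq : p ≠ q) (φ : G →* Multiplicative (ZMod p)) (ψ : G →* Multiplicative (ZMod q))
    (hφ : Function.Surjective φ) (hψ : Function.Surjective ψ) :
    Function.Surjective (φ.prod ψ) := by
  have hcard : Nat.card (Multiplicative (ZMod p) × Multiplicative (ZMod q)) = p * q := by
    rw [Nat.card_prod]
    simp
  rw [← MonoidHom.range_eq_top]
  apply Subgroup.eq_top_of_card_eq
  have h1 : p ∣ Nat.card (φ.prod ψ).range := by
    have e : Function.Surjective ((MonoidHom.fst (Multiplicative (ZMod p)) (Multiplicative (ZMod q))).comp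
        (φ.prod ψ).range.subtype) := by
      intro x
      obtain ⟨g, hg⟩ := hφ x
      exact ⟨⟨(φ.prod ψ) g, g, rfl⟩, hg⟩
    have := Subgroup.card_dvd_of_surjective _ e
    simpa using this
  have h2 : q ∣ Nat.card (φ.prod ψ).range := by
    have e : Function.Surjective ((MonoidHom.snd (Multiplicative (ZMod p)) (Multiplicative (ZMod q))).comp
        (φ.prod ψ).range.subtype) := by
      intro x
      obtain ⟨g, hg⟩ := hψ x
      exact ⟨⟨(φ.prod ψ) g, g, rfl⟩, hg⟩
    have := Subgroup.card_dvd_of_surjective _ e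
    simpa using this
  have h3 : p * q ∣ Nat.card (φ.prod ψ).range :=
    ((Nat.coprime_primes hp.out hq.out).2 hpq).mul_dvd_of_dvd_of_dvd h1 h2
  rw [hcard]
  exact Nat.dvd_antisymm (hcard ▸ Subgroup.card_subgroup_dvd_card _) h3

end Pool.Agent.TH66.SG
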