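import Mathlib

/-!
# Integral functions on a finite abelian group whose autocorrelation is divisible by a square,
all of whose prime factors are semiprimitive modulo the order of the group
-/

set_option autoImplicit false

namespace Pool.Agent.TH66.SG

open Finset

section
variable {H : Type} [CommGroup H] [Fintype H] [DecidableEq H]

/-- the autocorrelation of an integral function -/
def cor (f : H → ℤ) (g : H) : ℤ := ∑ h, f (g * h) * f h

/-- A semiprimitive prime which divides the autocorrelation divides the function. -/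
theorem dvd_of_cor (p : ℕ) (hp : p.Prime) (w j : ℕ) (hw : Fintype.card H = w) (hw2 : 2 < w)
    (hj : w ∣ p ^ j + 1) (f : H → ℤ) (hf : ∀ g, (p : ℤ) ∣ cor f g) (h : H) : (p : ℤ) ∣ f h := by
  classical
  have : Fact p.Prime := ⟨hp⟩
  have : CharP (MonoidAlgebra (ZMod p) H) p :=
    charP_of_injective_algebraMap (algebraMap (ZMod p) (MonoidAlgebra (ZMod p) H)).injective p
  set F : MonoidAlgebra (ZMod p) H := ∑ h, MonoidAlgebra.single h (f h : ZMod p) with hF
  set F' : MonoidAlgebra (ZMod p) H := ∑ h, MonoidAlgebra.single h⁻¹ (f h : ZMod p) with hF'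
  have hpow : ∀ h : H, h ^ p ^ j = h⁻¹ := by
    intro h
    rw [eq_inv_iff_mul_eq_one, ← pow_succ]
    obtain ⟨c, hc⟩ := hj
    rw [hc, ← hw, pow_mul, pow_card_eq_one, one_pow]
  have h1 : F ^ p ^ j = F' := by
    rw [hF, hF', sum_pow_char_pow]
    refine sum_congr rfl fun h _ => ?_
    rw [MonoidAlgebra.single_pow, ZMod.pow_card_pow, hpow]
  have h2 : F' ^ p ^ j = F := by
    rw [hF, hF', sum_pow_char_pow]
    refine sum_congr rfl fun h _ => ?_
    rw [MonoidAlgebra.single_pow, ZMod.pow_card_pow, hpow, inv_inv]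
  have h3 : F * F' = 0 := by
    rw [hF, hF', sum_mul_sum]
    have e : ∀ h' : H, ∑ h : H, (MonoidAlgebra.single h (f h : ZMod p) : MonoidAlgebra (ZMod p) H) *
        MonoidAlgebra.single h'⁻¹ (f h' : ZMod p) =
        ∑ g : H, MonoidAlgebra.single g ((f (g * h') : ZMod p) * (f h' : ZMod p)) := by
      intro h'
      refine Fintype.sum_equiv (Equiv.mulRight h'⁻¹) _ _ fun h => ?_
      rw [MonoidAlgebra.single_mul_single]
      simp
    rw [sum_comm, sum_congr rfl fun h' _ => e h', sum_comm]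
    refine sum_eq_zero fun g _ => ?_
    have e2 : ∑ h' : H, (MonoidAlgebra.single g ((f (g * h') : ZMod p) * (f h' : ZMod p)) :
        MonoidAlgebra (ZMod p) H) = MonoidAlgebra.single g (∑ h' : H, (f (g * h') : ZMod p) * (f h' : ZMod p)) := by
      rw [← MonoidAlgebra.singleAddHom_apply, map_sum]
      rfl
    rw [e2]
    have e3 : ∑ h' : H, (f (g * h') : ZMod p) * (f h' : ZMod p) = 0 := by
      have := (ZMod.intCast_zmod_eq_zero_iff_dvd (cor f g) p).2 (hf g)
      rw [cor] at this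
      push_cast at this
      exact this
    rw [e3, MonoidAlgebra.single_zero]
  have hj1 : 2 ≤ p ^ j := by
    rcases Nat.eq_zero_or_pos j with h0 | h0
    · exfalso
      rw [h0, pow_zero] at hj
      have := Nat.le_of_dvd (by norm_num) hj
      omega
    · exact hp.two_le.trans (Nat.le_self_pow (by omega) p)
  have h4 : F = 0 := by
    have e1 : F ^ (p ^ j + 1) = 0 := by rw [pow_succ, h1, mul_comm, h3]
    have e2 : F ^ (p ^ j * p ^ j) = F := by rw [pow_mul, h1, h2]
    have e3 : p ^ j + 1 ≤ p ^ j * p ^ j := by nlinarith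
    rw [← e2]
    exact pow_eq_zero_of_le e3 e1
  have h5 : F.coeff h = (f h : ZMod p) := by
    rw [hF, MonoidAlgebra.coeff_sum, Finsupp.finset_sum_apply]
    simp [Finsupp.single_apply]
  rw [h4] at h5
  exact (ZMod.intCast_zmod_eq_zero_iff_dvd (f h) p).1 h5.symm

theorem cor_mul (f : H → ℤ) (c : ℤ) (g : H) : cor (fun h => c * f h) g = c ^ 2 * cor f g := by
  unfold cor
  rw [mul_sum]
  exact sum_congr rfl fun h _ => by ring

/-- If the autocorrelation of `f` is divisible by `u²` and all prime factors of `u` are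
semiprimitive then `f` is divisible by `u`. -/
theorem descent (w : ℕ) (hw : Fintype.card H = w) (hw2 : 2 < w) (u : ℕ) (hu : 0 < u)
    (hs : ∀ p : ℕ, p.Prime → p ∣ u → ∃ j, w ∣ p ^ j + 1) :
    ∀ (f : H → ℤ) (B : H → ℤ), (∀ g, cor f g = (u : ℤ) ^ 2 * B g) →
      ∃ y : H → ℤ, (∀ h, f h = u * y h) ∧ ∀ g, cor y g = B g := by
  induction u using Nat.recOnMul with
  | zero => omega
  | one =>
    intro f B h
    exact ⟨f, fun h => by simp, fun g => by simpa using h g⟩
  | prime p hp =>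
    intro f B h
    obtain ⟨j, hj⟩ := hs p hp dvd_rfl
    have h1 : ∀ x, (p : ℤ) ∣ f x := dvd_of_cor p hp w j hw hw2 hj f fun g => by
      rw [h g, sq, mul_assoc]
      exact dvd_mul_right _ _
    choose y hy using h1
    refine ⟨y, hy, fun g => ?_⟩
    have h2 : f = fun h => (p : ℤ) * y h := funext hy
    have h3 := h g
    rw [h2, cor_mul] at h3
    exact mul_left_cancel₀ (pow_ne_zero 2 (by exact_mod_cast hp.ne_zero)) h3
  | mul a b iha ihb =>
    intro f B h
    have ha : 0 < a := Nat.pos_of_mul_pos_right hu |> fun _ => Nat.pos_of_ne_zero (by rintro rfl; simp at hu)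
    have hb : 0 < b := Nat.pos_of_ne_zero (by rintro rfl; simp at hu)
    obtain ⟨y, hy, hy2⟩ := iha ha (fun p hp hpa => hs p hp (hpa.mul_right b)) f
      (fun g => (b : ℤ) ^ 2 * B g) (fun g => by rw [h g]; push_cast; ring)
    obtain ⟨z, hz, hz2⟩ := ihb hb (fun p hp hpa => hs p hp (hpa.mul_left a)) y B hy2
    exact ⟨z, fun h => by rw [hy, hz]; push_cast; ring, hz2⟩

/-- The final counting step. -/
theorem final (w : ℕ) (hw : Fintype.card H = w) (v : ℕ) (hv : 0 < v) (hvw : 4 * v ^ 4 < w)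
    (y : H → ℤ) (r : ℤ) (hr0 : 0 ≤ r)
    (hr1 : r < w) (hy : ∀ h, ∃ z : ℤ, y h = r + w * z) (hsum : ∑ h, y h = 0)
    (hsq : ∑ h, y h ^ 2 = (v : ℤ) ^ 2 * ((w : ℤ) ^ 2 - w)) : r = v ∨ r = w - v := by
  choose z hz using hy
  have hcard : (∑ _h : H, (1 : ℤ)) = w := by simp [hw]
  have hv1 : (1 : ℤ) ≤ v := by exact_mod_cast hv
  have hvwz : 4 * (v : ℤ) ^ 4 < w := by exact_mod_cast hvw
  have hw0 : (0 : ℤ) < w := lt_of_le_of_lt (by positivity) hvwz
  have h1 : ∑ h, z h = -r := by
    have e : ∑ h, y h = r * ∑ _h : H, (1 : ℤ) + w * ∑ h, z h := by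
      rw [mul_sum, mul_sum, ← sum_add_distrib]
      exact sum_congr rfl fun h _ => by rw [hz]; ring
    rw [hcard, hsum] at e
    have : (w : ℤ) * (r + ∑ h, z h) = 0 := by linarith
    rcases mul_eq_zero.1 this with h | h <;> linarith
  have h2 : (w : ℤ) * ∑ h, z h ^ 2 = v ^ 2 * (w - 1) + r ^ 2 := by
    have e : ∑ h, y h ^ 2 = r ^ 2 * ∑ _h : H, (1 : ℤ) + 2 * r * w * ∑ h, z h +
        w ^ 2 * ∑ h, z h ^ 2 := by
      rw [mul_sum, mul_sum, mul_sum, ← sum_add_distrib, ← sum_add_distrib]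
      exact sum_congr rfl fun h _ => by rw [hz]; ring
    rw [hcard, hsq, h1] at e
    have : (w : ℤ) * (w * ∑ h, z h ^ 2) = w * (v ^ 2 * (w - 1) + r ^ 2) := by linarith
    exact mul_left_cancel₀ hw0.ne' this
  have h3 : r ≤ ∑ h, z h ^ 2 := by
    have : -(∑ h, z h) ≤ ∑ h, z h ^ 2 := by
      rw [← sum_neg_distrib]
      refine sum_le_sum fun h _ => ?_
      nlinarith [sq_nonneg (2 * z h + 1), sq_nonneg (z h)]
    linarith
  have h4 : r * (w - r) ≤ v ^ 2 * (w - 1) := by nlinarith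
  have hv2 : (1 : ℤ) ≤ (v : ℤ) ^ 2 := one_le_pow₀ hv1
  have hv24 : (v : ℤ) ^ 4 = ((v : ℤ) ^ 2) ^ 2 := by ring
  -- a nonnegative `t ≤ w / 2` with the same properties is `v`
  have key : ∀ t : ℤ, 0 ≤ t → 2 * t ≤ w → t * (w - t) ≤ v ^ 2 * (w - 1) → (w : ℤ) ∣ t ^ 2 - v ^ 2 →
      t = v := by
    intro t ht0 ht2 ht hdiv
    have ht3 : t < 2 * v ^ 2 := by
      by_contra hcon
      push Not at hcon
      nlinarith [mul_nonneg (sub_nonneg.2 hcon) (by linarith : (0 : ℤ) ≤ w - t)]
    have ht4 : t ^ 2 < w := by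
      have : t ^ 2 ≤ (2 * (v : ℤ) ^ 2) ^ 2 := pow_le_pow_left₀ ht0 ht3.le 2
      have e : (2 * (v : ℤ) ^ 2) ^ 2 = 4 * (v : ℤ) ^ 4 := by ring
      rw [e] at this
      linarith
    have hv4 : (v : ℤ) ^ 2 < w := by nlinarith
    have h5 : t ^ 2 - (v : ℤ) ^ 2 = 0 := by
      apply Int.eq_zero_of_abs_lt_dvd hdiv
      rw [abs_lt]
      constructor
      · nlinarith [sq_nonneg t]
      · nlinarith [sq_nonneg (v : ℤ)]
    have h6 : (t - v) * (t + v) = 0 := by linear_combination h5
    rcases mul_eq_zero.1 h6 with h | h <;> linarith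
  have hdiv : (w : ℤ) ∣ r ^ 2 - v ^ 2 := ⟨∑ h, z h ^ 2 - v ^ 2, by linear_combination -h2⟩
  rcases le_or_gt (2 * r) w with h | h
  · exact Or.inl (key r hr0 h h4 hdiv)
  · right
    have := key (w - r) (by linarith) (by linarith) (by linarith) (by
      have e : ((w : ℤ) - r) ^ 2 - v ^ 2 = w * (w - 2 * r) + (r ^ 2 - v ^ 2) := by ring
      rw [e]
      exact dvd_add (dvd_mul_right _ _) hdiv)
    linarith

end

end Pool.Agent.TH66.SG
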