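import Mathlib
import Pool.Agent.TH66.SG.Mann

/-!
# Difference sets with square order and an abelian quotient modulo whose order all prime factors of
the order are semiprimitive
-/

set_option autoImplicit false

namespace Pool.Agent.TH66.SG

open Finset

section
variable {G H : Type} [Group G] [Fintype G] [DecidableEq G] [CommGroup H] [Fintype H]
  [DecidableEq H]

/-- the number of elements of `D` above `h` -/
def num (φ : G →* H) (D : Finset G) (h : H) : ℤ := ∑ x ∈ D, if φ x = h then 1 else 0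

theorem sum_num (φ : G →* H) (D : Finset G) : ∑ h, num φ D h = D.card := by
  unfold num
  rw [sum_comm]
  simp

theorem cor_num (φ : G →* H) (D : Finset G) (h : H) :
    cor (num φ D) h = ∑ g : G, if φ g = h then
      ((((D ×ˢ D).filter (fun p : G × G => p.1 * p.2⁻¹ = g)).card : ℕ) : ℤ) else 0 := by
  classical
  have e1 : cor (num φ D) h = ∑ x ∈ D, ∑ y ∈ D, if φ x = h * φ y then (1 : ℤ) else 0 := by
    unfold cor num
    calc ∑ h' : H, (∑ x ∈ D, if φ x = h * h' then (1 : ℤ) else 0) *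
          (∑ y ∈ D, if φ y = h' then (1 : ℤ) else 0)
        = ∑ h' : H, ∑ x ∈ D, ∑ y ∈ D, (if φ x = h * h' then (1 : ℤ) else 0) *
          (if φ y = h' then (1 : ℤ) else 0) := sum_congr rfl fun h' _ => sum_mul_sum _ _ _ _
      _ = ∑ x ∈ D, ∑ y ∈ D, ∑ h' : H, (if φ x = h * h' then (1 : ℤ) else 0) *
          (if φ y = h' then (1 : ℤ) else 0) := by
        rw [sum_comm]
        exact sum_congr rfl fun x _ => sum_comm
      _ = _ := by
        refine sum_congr rfl fun x _ => sum_congr rfl fun y _ => ?_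
        rw [sum_eq_single (φ y)]
        · simp
        · intro b _ hb
          rw [if_neg (Ne.symm hb), mul_zero]
        · intro hb
          exact absurd (mem_univ _) hb
  have e2 : ∀ g : G, ((((D ×ˢ D).filter (fun p : G × G => p.1 * p.2⁻¹ = g)).card : ℕ) : ℤ) =
      ∑ x ∈ D, ∑ y ∈ D, if x * y⁻¹ = g then (1 : ℤ) else 0 := by
    intro g
    rw [card_filter, sum_product]
    push_cast
    rfl
  rw [e1]
  calc ∑ x ∈ D, ∑ y ∈ D, (if φ x = h * φ y then (1 : ℤ) else 0)
      = ∑ x ∈ D, ∑ y ∈ D, ∑ g : G, if x * y⁻¹ = g then (if φ g = h then (1 : ℤ) else 0) else 0 := by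
        refine sum_congr rfl fun x _ => sum_congr rfl fun y _ => ?_
        rw [sum_ite_eq, if_pos (mem_univ _)]
        simp only [map_mul, map_inv, mul_inv_eq_iff_eq_mul]
    _ = ∑ g : G, ∑ x ∈ D, ∑ y ∈ D, if x * y⁻¹ = g then (if φ g = h then (1 : ℤ) else 0) else 0 := by
        exact (sum_congr rfl fun x _ => sum_comm).trans sum_comm
    _ = _ := by
        refine sum_congr rfl fun g _ => ?_
        rw [e2]
        by_cases hg : φ g = h
        · simp only [hg, if_true]
        · simp only [hg, if_false, ite_self, sum_const_zero]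

/-- all fibres of a surjective homomorphism have the same number of elements -/
theorem fib (φ : G →* H) (hφ : Function.Surjective φ) (h : H) :
    (∑ g : G, if φ g = h then (1 : ℤ) else 0) = ∑ g : G, if φ g = 1 then (1 : ℤ) else 0 := by
  obtain ⟨g0, rfl⟩ := hφ h
  refine (Fintype.sum_equiv (Equiv.mulLeft g0) _ _ fun g => ?_).symm
  have : (φ (g0 * g) = φ g0) ↔ φ g = 1 := by rw [map_mul, mul_eq_left]
  simp only [Equiv.coe_mulLeft, this]

/-- **Mann's test**, with a small factor `v` of the square root of the order about which nothing is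
assumed. -/
theorem mann (φ : G →* H) (hφ : Function.Surjective φ) (D : Finset G) (k lam u v w : ℕ)
    (hk : D.card = k)
    (hD : ∀ g : G, g ≠ 1 → ((D ×ˢ D).filter (fun p : G × G => p.1 * p.2⁻¹ = g)).card = lam)
    (hku : k = lam + (u * v) ^ 2) (hw : Fintype.card H = w) (hv : 0 < v) (hvw : 4 * v ^ 4 < w)
    (hu : 0 < u) (hs : ∀ p : ℕ, p.Prime → p ∣ u → ∃ j, w ∣ p ^ j + 1) :
    (w : ℤ) ∣ k + u * v ∨ (w : ℤ) ∣ k - u * v := by
  classical
  have hw2 : 2 < w := by
    have : 1 ≤ v ^ 4 := Nat.one_le_pow _ _ hv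
    omega
  set d : H → ℤ := num φ D with hd
  set κ : ℤ := ∑ g : G, if φ g = 1 then (1 : ℤ) else 0 with hκ
  have hone : ((((D ×ˢ D).filter (fun p : G × G => p.1 * p.2⁻¹ = 1)).card : ℕ) : ℤ) = k := by
    have : (D ×ˢ D).filter (fun p : G × G => p.1 * p.2⁻¹ = 1) = D.image (fun x => (x, x)) := by
      ext ⟨x, y⟩
      simp only [mem_filter, mem_product, mem_image, Prod.mk.injEq]
      constructor
      · rintro ⟨⟨hx, _⟩, hxy⟩
        exact ⟨x, hx, rfl, mul_inv_eq_one.1 hxy⟩
      · rintro ⟨a, ha, rfl, rfl⟩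
        exact ⟨⟨ha, ha⟩, mul_inv_cancel _⟩
    rw [this, card_image_of_injective _ (fun a b h => (Prod.mk.inj h).1), hk]
  have hcor : ∀ h, cor d h = lam * κ + (if h = 1 then ((u : ℤ) * v) ^ 2 else 0) := by
    intro h
    rw [hd, cor_num]
    have e : ∀ g : G, (if φ g = h then
        ((((D ×ˢ D).filter (fun p : G × G => p.1 * p.2⁻¹ = g)).card : ℕ) : ℤ) else 0) =
        lam * (if φ g = h then (1 : ℤ) else 0) +
          (if g = 1 then (if h = 1 then ((u : ℤ) * v) ^ 2 else 0) else 0) := by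
      intro g
      by_cases hg : g = 1
      · subst hg
        rw [hone, map_one, if_pos rfl, hku]
        by_cases hh : h = 1
        · subst hh; simp
        · rw [if_neg (Ne.symm hh), if_neg (Ne.symm hh), if_neg hh]; simp
      · rw [hD g hg, if_neg hg, add_zero]
        split_ifs <;> simp
    rw [sum_congr rfl fun g _ => e g, sum_add_distrib, ← mul_sum, fib φ hφ h, sum_ite_eq',
      if_pos (mem_univ _)]
  have hdk : ∑ h, d h = k := by rw [hd, sum_num, hk]
  have hcardH : (∑ _h : H, (1 : ℤ)) = w := by simp [hw]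
  have hk2 : (k : ℤ) ^ 2 = w * (lam * κ) + (u * v) ^ 2 := by
    have e1 : ∑ g, cor d g = (k : ℤ) ^ 2 := by
      unfold cor
      rw [sum_comm]
      have : ∀ h : H, ∑ g : H, d (g * h) * d h = k * d h := by
        intro h
        rw [← sum_mul, Fintype.sum_equiv (Equiv.mulRight h) (fun g => d (g * h)) d (fun g => rfl), hdk]
      rw [sum_congr rfl fun h _ => this h, ← mul_sum, hdk]
      ring
    rw [← e1, sum_congr rfl fun g _ => hcor g, sum_add_distrib, sum_ite_eq', if_pos (mem_univ _)]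
    have : ∑ _x : H, (lam : ℤ) * κ = (∑ _h : H, (1 : ℤ)) * (lam * κ) := by rw [sum_mul]; simp
    rw [this, hcardH]
  set f : H → ℤ := fun h => w * d h - k with hf
  have hcf : ∀ g, cor f g = (u : ℤ) ^ 2 * (v ^ 2 * ((if g = 1 then (w : ℤ) ^ 2 else 0) - w)) := by
    intro g
    have e1 : cor f g = w ^ 2 * cor d g - w * k * (∑ h, d (g * h)) - w * k * (∑ h, d h) +
        k ^ 2 * ∑ _h : H, (1 : ℤ) := by
      unfold cor
      rw [mul_sum, mul_sum, mul_sum, mul_sum, ← sum_sub_distrib, ← sum_sub_distrib,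
        ← sum_add_distrib]
      refine sum_congr rfl fun h _ => ?_
      simp only [hf]
      ring
    have e2 : ∑ h, d (g * h) = k := by
      rw [Fintype.sum_equiv (Equiv.mulLeft g) (fun h => d (g * h)) d (fun h => rfl), hdk]
    rw [e1, e2, hdk, hcardH, hcor, hk2]
    split_ifs
    · linear_combination ((-2 : ℤ) * w) * hk2
    · linear_combination ((-2 : ℤ) * w) * hk2
  obtain ⟨y, hy, hyc⟩ := descent w hw hw2 u hu hs f _ hcf
  have hu' : (u : ℤ) ≠ 0 := by exact_mod_cast hu.ne'
  have hsum : ∑ h, y h = 0 := by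
    have e : (u : ℤ) * ∑ h, y h = 0 := by
      rw [mul_sum, ← sum_congr rfl fun h _ => hy h]
      simp only [hf]
      rw [sum_sub_distrib, ← mul_sum, hdk]
      have : ∑ _x : H, (k : ℤ) = k * ∑ _h : H, (1 : ℤ) := by rw [mul_sum]; simp
      rw [this, hcardH]
      ring
    exact (mul_eq_zero.1 e).resolve_left hu'
  have hsq : ∑ h, y h ^ 2 = (v : ℤ) ^ 2 * ((w : ℤ) ^ 2 - w) := by
    have := hyc 1
    rw [if_pos rfl] at this
    rw [← this]
    unfold cor
    exact sum_congr rfl fun h _ => by rw [one_mul, sq]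
  have hcop : IsCoprime (w : ℤ) (u : ℤ) := by
    rw [Nat.isCoprime_iff_coprime]
    refine Nat.Coprime.symm (Nat.coprime_of_dvd fun p hp hpu hpw => ?_)
    obtain ⟨j, hj⟩ := hs p hp hpu
    have h1 := hpw.trans hj
    rcases Nat.eq_zero_or_pos j with h0 | h0
    · rw [h0, pow_zero] at hj
      have := Nat.le_of_dvd (by norm_num) hj
      omega
    · have h2 : p ∣ 1 := (Nat.dvd_add_right (dvd_pow_self p h0.ne')).1 h1
      exact hp.one_lt.ne' (Nat.dvd_one.1 h2)
  have hwpos : (0 : ℤ) < w := by exact_mod_cast (by omega : 0 < w)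
  obtain ⟨r, hr⟩ : ∃ r : ℤ, r = y 1 % w := ⟨_, rfl⟩
  have hr0 : 0 ≤ r := hr ▸ Int.emod_nonneg _ hwpos.ne'
  have hr1 : r < w := hr ▸ Int.emod_lt_of_pos _ hwpos
  have hyr : ∀ h, ∃ z : ℤ, y h = r + w * z := by
    intro h
    have h1 : (w : ℤ) ∣ u * (y h - y 1) := by
      refine ⟨d h - d 1, ?_⟩
      have h2 := hy h
      have h3 := hy 1
      simp only [hf] at h2 h3
      linarith
    have h2 := hcop.dvd_of_dvd_mul_left h1
    have h3 : (w : ℤ) ∣ y h - r := by
      have h4 : (w : ℤ) ∣ y 1 - r := by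
        rw [hr]
        exact Int.dvd_self_sub_emod
      have := dvd_add h2 h4
      rwa [sub_add_sub_cancel] at this
    obtain ⟨z, hz⟩ := h3
    exact ⟨z, by linarith⟩
  have hfin := final w hw v hv hvw y r hr0 hr1 hyr hsum hsq
  obtain ⟨z, hz⟩ := hyr 1
  have h5 := hy 1
  simp only [hf] at h5
  rcases hfin with h | h
  · left
    refine ⟨d 1 - u * z, ?_⟩
    rw [hz, h] at h5
    linarith
  · right
    refine ⟨d 1 - u - u * z, ?_⟩
    rw [hz, h] at h5
    linarith

end

end Pool.Agent.TH66.SG
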