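import Mathlib
import Pool.Agent.TH66.SG.Quot
import Pool.Agent.TH66.SG.Nilp

/-!
# The exclusion: difference sets with Singer parameters in nilpotent groups
-/

set_option autoImplicit false

namespace Pool.Agent.TH66.SG

open Finset

/-- Some finite nilpotent group contains a difference set with the Singer parameters `(n, m)`. -/
def NilSinger (n m : ℕ) : Prop :=
  ∃ (G : Type) (_ : Group G) (_ : Fintype G) (_ : DecidableEq G) (D : Finset G),
    Group.IsNilpotent G ∧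
    Fintype.card G * (n - 1) = n ^ m - 1 ∧ D.card * (n - 1) = n ^ (m - 1) - 1 ∧
    ∀ g : G, g ≠ 1 →
      ((D ×ˢ D).filter (fun p : G × G => p.1 * p.2⁻¹ = g)).card * (n - 1) = n ^ (m - 2) - 1

theorem key {n m z u v w₁ w₂ : ℕ} (hn : 2 ≤ n) (hm : 3 ≤ m) (hz : z ^ 2 = n ^ m)
    (hzu : z = n * (u * v)) (hu : 0 < u) (hv : 0 < v) (hvw : 4 * v ^ 4 < w₁ * w₂)
    (h1 : w₁.Prime) (h2 : w₂.Prime) (ho1 : w₁ ≠ 2) (ho2 : w₂ ≠ 2) (h12 : w₁ ≠ w₂)
    (hz1 : (z : ZMod w₁) = -1) (hz2 : (z : ZMod w₂) = 1)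
    (hn1 : (n : ZMod w₁) ≠ 1) (hn2 : (n : ZMod w₂) ≠ 1)
    (hs : ∀ p : ℕ, p.Prime → p ∣ u → ∃ j, w₁ * w₂ ∣ p ^ j + 1) (h : NilSinger n m) : False := by
  obtain ⟨G, hG, hGf, hGd, D, hnil, hv', hk, hlam⟩ := h
  have : Fact w₁.Prime := ⟨h1⟩
  have : Fact w₂.Prime := ⟨h2⟩
  have hpos : 0 < n - 1 := by omega
  have hu2 : (u * v) ^ 2 = n ^ (m - 2) := by
    have e : n ^ 2 * (u * v) ^ 2 = n ^ 2 * n ^ (m - 2) := by
      rw [← mul_pow, ← hzu, hz, ← pow_add]
      congr 1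
      omega
    exact Nat.eq_of_mul_eq_mul_left (by positivity) e
  -- all differences occur equally often
  have hgeom : ∀ j : ℕ, (∑ i ∈ range j, n ^ i) * (n - 1) = n ^ j - 1 := by
    intro j
    exact Nat.geomSum_eq (by omega) j ▸ (Nat.div_mul_cancel (by
      simpa using Nat.sub_dvd_pow_sub_pow n 1 j))
  obtain ⟨lam, hlam'⟩ : ∃ lam : ℕ, lam * (n - 1) = n ^ (m - 2) - 1 := ⟨_, hgeom (m - 2)⟩
  have hD : ∀ g : G, g ≠ 1 →
      ((D ×ˢ D).filter (fun p : G × G => p.1 * p.2⁻¹ = g)).card = lam := fun g hg =>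
    Nat.eq_of_mul_eq_mul_right hpos ((hlam g hg).trans hlam'.symm)
  have hle : ∀ j : ℕ, 1 ≤ n ^ j := fun j => Nat.one_le_pow _ _ (by omega)
  have hku : D.card = lam + (u * v) ^ 2 := by
    apply Nat.eq_of_mul_eq_mul_right hpos
    rw [add_mul, hlam', hk, hu2]
    have e : n ^ (m - 1) = n ^ (m - 2) * n := by
      rw [← pow_succ]
      congr 1
      omega
    have h3 := hle (m - 2)
    obtain ⟨t, rfl⟩ : ∃ t, n = t + 1 := ⟨n - 1, by omega⟩
    simp only [Nat.add_sub_cancel]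
    rw [e, mul_add, mul_one]
    omega
  -- the quotients
  have hdv : ∀ (w : ℕ) (_ : Fact w.Prime), (z : ZMod w) ^ 2 = 1 → (n : ZMod w) ≠ 1 →
      w ∣ Nat.card G := by
    intro w hw hzw hnw
    rw [Nat.card_eq_fintype_card, ← ZMod.natCast_eq_zero_iff]
    have e : ((Fintype.card G * (n - 1) : ℕ) : ZMod w) = 0 := by
      rw [hv', Nat.cast_sub (hle m)]
      push_cast
      have : (n : ZMod w) ^ m = (z : ZMod w) ^ 2 := by exact_mod_cast congrArg (Nat.cast (R := ZMod w)) hz.symm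
      rw [this, hzw, sub_self]
    rw [Nat.cast_mul] at e
    rcases mul_eq_zero.1 e with h5 | h5
    · exact h5
    · exfalso
      rw [Nat.cast_sub (by omega), sub_eq_zero] at h5
      exact hnw (by simpa using h5)
  obtain ⟨φ, hφ⟩ := nilp_quot G w₁ (hdv w₁ inferInstance (by rw [hz1]; ring) hn1)
  obtain ⟨ψ, hψ⟩ := nilp_quot G w₂ (hdv w₂ inferInstance (by rw [hz2]; ring) hn2)
  have hsurj := prod_surj G w₁ w₂ h12 φ ψ hφ hψ
  have hcard : Fintype.card (Multiplicative (ZMod w₁) × Multiplicative (ZMod w₂)) = w₁ * w₂ := by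
    rw [Fintype.card_prod]
    simp [ZMod.card]
  have hM := mann (φ.prod ψ) hsurj D D.card lam u v (w₁ * w₂) rfl hD hku hcard hv hvw hu hs
  -- the residue of `k`
  have hkn : ∀ (w : ℕ) (_ : Fact w.Prime), (z : ZMod w) ^ 2 = 1 → (n : ZMod w) ≠ 1 →
      (D.card : ZMod w) * n = -1 := by
    intro w hw hzw hnw
    have e : ((D.card * (n - 1) : ℕ) : ZMod w) = (n : ZMod w) ^ (m - 1) - 1 := by
      rw [hk, Nat.cast_sub (hle (m - 1))]
      push_cast
      ring
    rw [Nat.cast_mul, Nat.cast_sub (by omega), Nat.cast_one] at e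
    have e2 : (n : ZMod w) ^ (m - 1) * n = 1 := by
      rw [← pow_succ, show m - 1 + 1 = m by omega]
      have : (n : ZMod w) ^ m = (z : ZMod w) ^ 2 := by exact_mod_cast congrArg (Nat.cast (R := ZMod w)) hz.symm
      rw [this, hzw]
    have e3 : ((n : ZMod w) - 1) * ((D.card : ZMod w) * n + 1) = 0 := by
      linear_combination (n : ZMod w) * e + e2
    rcases mul_eq_zero.1 e3 with h | h
    · exact absurd (sub_eq_zero.1 h) hnw
    · linear_combination h
  have hk1 := hkn w₁ inferInstance (by rw [hz1]; ring) hn1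
  have hk2 := hkn w₂ inferInstance (by rw [hz2]; ring) hn2
  have two_ne : ∀ (w : ℕ) (_ : Fact w.Prime), w ≠ 2 → (2 : ZMod w) ≠ 0 := by
    intro w hw h2 h0
    have : ((2 : ℕ) : ZMod w) = 0 := by exact_mod_cast h0
    rw [ZMod.natCast_eq_zero_iff] at this
    exact h2 ((Nat.prime_dvd_prime_iff_eq hw.out Nat.prime_two).1 this)
  have hun1 : (n : ZMod w₁) * (u * v) = -1 := by rw [← hz1, hzu]; push_cast; ring
  have hun2 : (n : ZMod w₂) * (u * v) = 1 := by rw [← hz2, hzu]; push_cast; ring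
  rcases hM with hM | hM
  · -- `k ≡ - u`, contradiction modulo `w₁`
    have h3 : (w₁ : ℤ) ∣ (D.card : ℤ) + u * v := (Dvd.intro _ (by push_cast; rfl)).trans hM
    have h4 : ((D.card : ZMod w₁) + u * v) = 0 := by
      have := (ZMod.intCast_zmod_eq_zero_iff_dvd _ w₁).2 h3
      exact_mod_cast this
    apply two_ne w₁ inferInstance ho1
    linear_combination (-(n : ZMod w₁)) * h4 + hk1 + hun1
  · -- `k ≡ u`, contradiction modulo `w₂`
    have h3 : (w₂ : ℤ) ∣ (D.card : ℤ) - u * v :=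
      (Dvd.intro_left (w₁ : ℤ) (by push_cast; rfl)).trans hM
    have h4 : ((D.card : ZMod w₂) - u * v) = 0 := by
      have := (ZMod.intCast_zmod_eq_zero_iff_dvd _ w₂).2 h3
      exact_mod_cast this
    apply two_ne w₂ inferInstance ho2
    linear_combination (-(n : ZMod w₂)) * h4 + hk2 - hun2

end Pool.Agent.TH66.SG
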