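import Mathlib
import Pool.Agent.TH66.SG.AlmAbs
import Pool.Agent.TH66.SG.Gal4
import Pool.Agent.TH66.SG.Key

/-!
# Orders `(a * q ^ f) ^ e`, `e * m` even, `a ≥ 2`: almost all primes `q` are excluded
-/

set_option autoImplicit false

namespace Pool.Agent.TH66.SG

open Finset Filter Topology

theorem exists_zeta' (w L : ℕ) [Fact w.Prime] (h : L ∣ w - 1) :
    ∃ ζ : ZMod w, ∀ k : ℕ, ζ ^ k = 1 ↔ L ∣ k := by
  have hw := (Fact.out : w.Prime)
  have hw1 : w - 1 ≠ 0 := by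
    have := hw.two_le
    omega
  obtain ⟨g, hg⟩ := IsCyclic.exists_ofOrder_eq_natCard (α := (ZMod w)ˣ)
  rw [Nat.card_eq_fintype_card, ZMod.card_units] at hg
  have hL : 0 < L := Nat.pos_of_dvd_of_pos h (by omega)
  have hd : (w - 1) / L ∣ w - 1 := Nat.div_dvd_of_dvd h
  have hd0 : (w - 1) / L ≠ 0 := by
    have := Nat.div_mul_cancel h
    intro h0
    rw [h0, zero_mul] at this
    exact hw1 this.symm
  have ho : orderOf (g ^ ((w - 1) / L)) = L := by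
    rw [orderOf_pow_of_dvd hd0 (hg ▸ hd), hg]
    exact Nat.div_div_self h hw1
  refine ⟨((g ^ ((w - 1) / L) : (ZMod w)ˣ) : ZMod w), fun k => ?_⟩
  rw [← Units.val_pow_eq_pow_val, Units.val_eq_one]
  conv_rhs => rw [← ho]
  exact orderOf_dvd_iff_pow_eq_one.symm

theorem exists_l' {m : ℕ} (hm : 3 ≤ m) : 4 ∣ m ∨ ∃ l : ℕ, l.Prime ∧ l ≠ 2 ∧ l ∣ m := by
  by_cases h4 : 4 ∣ m
  · exact Or.inl h4
  right
  obtain ⟨x, hx, hxm⟩ : ∃ x : ℕ, ¬ 2 ∣ x ∧ (m = x ∨ m = 2 * x) := by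
    by_cases h : 2 ∣ m
    · obtain ⟨y, rfl⟩ := h
      refine ⟨y, fun hy => h4 ?_, Or.inr rfl⟩
      obtain ⟨z, rfl⟩ := hy
      exact ⟨z, by ring⟩
    · exact ⟨m, h, Or.inl rfl⟩
  have hx1 : x ≠ 1 := by omega
  refine ⟨x.minFac, Nat.minFac_prime hx1, fun h => hx (h ▸ Nat.minFac_dvd x), ?_⟩
  rcases hxm with h | h
  · rw [h]
    exact Nat.minFac_dvd x
  · rw [h]
    exact (Nat.minFac_dvd x).mul_left _

theorem pow_one_of_dvd {F : Type} [Monoid F] {t : F} {j k : ℕ} (h : t ^ j = 1) (hk : j ∣ k) :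
    t ^ k = 1 := by
  obtain ⟨d, rfl⟩ := hk
  rw [pow_mul, h, one_pow]

theorem main2 {m e a f : ℕ} (hm : 3 ≤ m) (he : 1 ≤ e) (hem : Even (e * m)) (ha : 2 ≤ a)
    (hf : 1 ≤ f) :
    Tendsto (fun N : ℕ =>
      (({q : ℕ | q ≤ N ∧ q.Prime ∧ NilSinger ((a * q ^ f) ^ e) m} : Set ℕ).ncard : ℝ) /
        Nat.primeCounting N) atTop (𝓝 0) := by
  classical
  have ha0 : a ≠ 0 := by omega
  obtain ⟨E, hE⟩ := hem
  have heE : e ≤ E := by nlinarith
  have hE0 : E ≠ 0 := by omega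
  obtain ⟨r, E₁, hE₁o', hE₁⟩ := Nat.exists_eq_pow_mul_and_not_dvd hE0 2 (by norm_num)
  have hE₁o : Odd E₁ := by rwa [← Nat.not_even_iff_odd, even_iff_two_dvd]
  obtain ⟨v, e₁, he₁o', he₁⟩ :=
    Nat.exists_eq_pow_mul_and_not_dvd (by omega : e ≠ 0) 2 (by norm_num)
  have he₁o : Odd e₁ := by rwa [← Nat.not_even_iff_odd, even_iff_two_dvd]
  obtain ⟨γ, f₁, hf₁o', hf₁⟩ :=
    Nat.exists_eq_pow_mul_and_not_dvd (by omega : f ≠ 0) 2 (by norm_num)
  have hf₁o : Odd f₁ := by rwa [← Nat.not_even_iff_odd, even_iff_two_dvd]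
  -- the prime factors of `a`
  set k := a.primeFactors.card with hk
  have hk1 : 1 ≤ k := by
    have h2 : k ≠ 0 := by
      intro h
      rw [hk, Finset.card_eq_zero, Nat.primeFactors_eq_empty] at h
      omega
    omega
  set p : Fin k → ℕ := fun i => (a.primeFactors.equivFin.symm i : ℕ) with hpdef
  have hpmem : ∀ i, p i ∈ a.primeFactors := fun i => (a.primeFactors.equivFin.symm i).2
  have hp : ∀ i, (p i).Prime := fun i => Nat.prime_of_mem_primeFactors (hpmem i)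
  have hinj : Function.Injective p := by
    intro i j h
    exact a.primeFactors.equivFin.symm.injective (Subtype.ext h)
  have hprod : a = ∏ i, p i ^ a.factorization (p i) := by
    conv_lhs => rw [← Nat.prod_factorization_pow_eq_self ha0]
    rw [Finsupp.prod, Nat.support_factorization, ← Finset.prod_coe_sort]
    exact (Fintype.prod_equiv a.primeFactors.equivFin.symm _ _ (fun i => rfl)).symm
  have hae : ∀ i, a.factorization (p i) ≠ 0 := by
    intro i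
    have := hpmem i
    rw [← Nat.support_factorization, Finsupp.mem_support_iff] at this
    exact this
  have hacast : ∀ w : ℕ, (a : ZMod w) = ∏ i, (p i : ZMod w) ^ a.factorization (p i) := by
    intro w
    have h2 := congrArg (fun a : ℕ => (a : ZMod w)) hprod
    simp only [Nat.cast_prod, Nat.cast_pow] at h2
    exact h2
  obtain ⟨i₀⟩ : Nonempty (Fin k) := ⟨⟨0, by omega⟩⟩
  obtain ⟨α, a₁, ha₁o', ha₁⟩ := Nat.exists_eq_pow_mul_and_not_dvd (hae i₀) 2 (by norm_num)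
  have ha₁o : Odd a₁ := by rwa [← Nat.not_even_iff_odd, even_iff_two_dvd]
  obtain ⟨u, hu⟩ : ∃ u, u = α + 1 + γ := ⟨_, rfl⟩
  obtain ⟨s, hs⟩ : ∃ s, s = r + 2 + u := ⟨_, rfl⟩
  have hs3 : 3 ≤ s := by omega
  set x : Fin k → ℕ := fun i => if i = i₀ then 2 ^ γ else 0 with hx
  set K₀ := 4 * (a ^ (E - e)) ^ 4 + a with hK₀
  -- facts on a prime of the set
  have facts : ∀ L : ℕ, Odd L → ∀ w ∈ Good s (L * f₁) K₀ p x,
      (w ≠ 2 ∧ Odd ((w - 1) / 2 ^ s) ∧ L ∣ w - 1 ∧ ∃ g : ZMod w, g ^ 2 ^ (s - 1) = -1) ∧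
      ∀ t : ZMod w, t ^ (2 ^ (r + 1) * L) = 1 → ∃ q : ZMod w, q ≠ 0 ∧ (a : ZMod w) * q ^ f = t ∧
        q ^ (f * 2 ^ (s - 1 - u) * ((w - 1) / 2 ^ s)) = -1 := by
    rintro L hL w ⟨hw, hKw, b, hb, hwb, ⟨c, hc⟩, g, hg, hgx, hgM⟩
    have hwf : Fact w.Prime := ⟨hw⟩
    have hw1 : w - 1 = 2 ^ s * b := by rw [hwb, Nat.add_sub_cancel]
    have hb' : (w - 1) / 2 ^ s = b := by
      rw [hw1, Nat.mul_div_cancel_left _ (by positivity)]
    rw [hb']
    have hw2 : w ≠ 2 := by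
      intro h
      have h2 : 2 ^ 1 ≤ 2 ^ s := Nat.pow_le_pow_right (by norm_num) (by omega)
      have h3 := hb.pos
      have h4 : 2 ^ s * 1 ≤ 2 ^ s * b := Nat.mul_le_mul_left _ h3
      omega
    have hLf : 0 < L * f₁ := Nat.mul_pos hL.pos hf₁o.pos
    refine ⟨⟨hw2, hb, ?_, g, hg⟩, ?_⟩
    · rw [hw1, hc]
      exact ⟨2 ^ s * (f₁ * c), by ring⟩
    intro t ht
    have haw : (a : ZMod w) ≠ 0 := by
      rw [Ne, ZMod.natCast_eq_zero_iff]
      intro h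
      have := Nat.le_of_dvd (by omega) h
      omega
    have ht0 : t ≠ 0 := by
      rintro rfl
      rw [zero_pow (Nat.mul_ne_zero (by positivity) hL.pos.ne')] at ht
      exact zero_ne_one ht
    -- `a ^ b`
    have hab : (a : ZMod w) ^ b = g ^ (2 ^ u * a₁) := by
      rw [hacast w, ← Finset.prod_pow, Finset.prod_eq_single i₀]
      · rw [← pow_mul, mul_comm, pow_mul, hgx, ha₁, hx]
        simp only [if_pos]
        rw [← pow_mul]
        congr 1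
        rw [hu]
        ring
      · intro i _ hi
        rw [← pow_mul, mul_comm, pow_mul, hgx, hx]
        simp only [if_neg hi, mul_zero, pow_zero, one_pow]
      · intro h
        exact absurd (mem_univ _) h
    have haneg : (a : ZMod w) ^ (2 ^ (s - 1 - u) * b) = -1 := by
      rw [mul_comm, pow_mul, hab, ← pow_mul]
      have e1 : 2 ^ u * a₁ * 2 ^ (s - 1 - u) = 2 ^ (s - 1) * a₁ := by
        rw [mul_right_comm, ← pow_add]
        congr 2
        omega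
      rw [e1, pow_mul, hg, ha₁o.neg_one_pow]
    have hg2s : g ^ 2 ^ s = 1 := by
      have : 2 ^ s = 2 ^ (s - 1) * 2 := by
        rw [← pow_succ]
        congr 1
        omega
      rw [this, pow_mul, hg]
      norm_num
    have haM : (a : ZMod w) ^ ((w - 1) / (L * f₁)) = 1 := by
      rw [hacast w, ← Finset.prod_pow]
      refine Finset.prod_eq_one fun i _ => ?_
      rw [← pow_mul, mul_comm, pow_mul, hgM, one_pow]
    have hMdiv : (w - 1) / (L * f₁) = 2 ^ s * c := by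
      rw [hw1, hc, mul_left_comm, Nat.mul_div_cancel_left _ hLf]
    have hfdiv : w - 1 = f * (2 ^ (s - γ) * L * c) := by
      rw [hw1, hc, hf₁]
      have : 2 ^ s = 2 ^ γ * 2 ^ (s - γ) := by
        rw [← pow_add]
        congr 1
        omega
      rw [this]
      ring
    have hfdiv' : (w - 1) / f = 2 ^ (s - γ) * L * c := by
      rw [hfdiv, Nat.mul_div_cancel_left _ (by omega)]
    have hy₀ : (a : ZMod w) ^ (2 ^ (s - γ) * L * c) = 1 := by
      have h1 : ((a : ZMod w) ^ (2 ^ (s - γ) * L * c)) ^ f₁ = 1 := by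
        rw [← pow_mul]
        have e1 : 2 ^ (s - γ) * L * c * f₁ = b * 2 ^ (s - γ) := by rw [hc]; ring
        rw [e1, pow_mul, hab, ← pow_mul]
        apply pow_one_of_dvd hg2s
        have e2 : 2 ^ u * a₁ * 2 ^ (s - γ) = 2 ^ (u + (s - γ)) * a₁ := by
          rw [pow_add]
          ring
        rw [e2]
        exact (pow_dvd_pow 2 (by omega)).mul_right _
      have h2 : ((a : ZMod w) ^ (2 ^ (s - γ) * L * c)) ^ 2 ^ γ = 1 := by
        rw [← pow_mul]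
        rw [hMdiv] at haM
        apply pow_one_of_dvd haM
        have : 2 ^ s = 2 ^ (s - γ) * 2 ^ γ := by
          rw [← pow_add]
          congr 1
          omega
        rw [this]
        exact ⟨L, by ring⟩
      have h3 := pow_gcd_eq_one.2 ⟨h1, h2⟩
      rwa [(Nat.coprime_two_right.2 hf₁o).pow_right γ, pow_one] at h3
    have hyt : t ^ (2 ^ (s - γ) * L * c) = 1 := by
      apply pow_one_of_dvd ht
      exact (Nat.mul_dvd_mul_right (pow_dvd_pow 2 (by omega)) L).mul_right _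
    obtain ⟨q, hq0, hq⟩ := exists_root_pow w f ⟨_, hfdiv⟩ (t / a) (div_ne_zero ht0 haw) (by
      rw [hfdiv', div_pow, hy₀, hyt, div_one])
    refine ⟨q, hq0, ?_, ?_⟩
    · rw [hq, mul_div_cancel₀ _ haw]
    · rw [mul_assoc f, pow_mul, hq, div_pow, haneg]
      have h1 : t ^ (2 ^ (s - 1 - u) * b) = 1 := by
        apply pow_one_of_dvd ht
        have e1 : s - 1 - u = r + 1 := by omega
        rw [e1, hc]
        exact Nat.mul_dvd_mul_left _ ⟨f₁ * c, by ring⟩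
      rw [h1]
      norm_num
  -- the exclusion
  have hbad : ∀ L : ℕ, Odd L → ∀ w₁ ∈ Good s (L * f₁) K₀ p x, ∀ w₂ ∈ Good s (L * f₁) K₀ p x,
      ∀ q : ℕ, q.Prime →
      (((a : ZMod w₁) * q ^ f) ^ E = -1 ∧ ((a : ZMod w₁) * q ^ f) ^ e ≠ 1 ∧
        (q : ZMod w₁) ^ (f * 2 ^ (s - 1 - u) * ((w₁ - 1) / 2 ^ s)) = -1) →
      (((a : ZMod w₂) * q ^ f) ^ E = 1 ∧ ((a : ZMod w₂) * q ^ f) ^ e ≠ 1 ∧
        (q : ZMod w₂) ^ (f * 2 ^ (s - 1 - u) * ((w₂ - 1) / 2 ^ s)) = -1) →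
      ¬ NilSinger ((a * q ^ f) ^ e) m := by
    intro L hL w₁ hw₁ w₂ hw₂ q hq hP₁ hP₂
    obtain ⟨⟨ho₁, hb₁, -, -⟩, -⟩ := facts L hL w₁ hw₁
    obtain ⟨⟨ho₂, hb₂, -, -⟩, -⟩ := facts L hL w₂ hw₂
    have hpr₁ := hw₁.1
    have hpr₂ := hw₂.1
    have hne : w₁ ≠ w₂ := by
      rintro rfl
      have h1 := hP₁.1.symm.trans hP₂.1
      have : Fact w₁.Prime := ⟨hpr₁⟩
      have h3 : (2 : ZMod w₁) = 0 := by linear_combination -h1
      have h4 : ((2 : ℕ) : ZMod w₁) = 0 := by exact_mod_cast h3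
      rw [ZMod.natCast_eq_zero_iff] at h4
      exact ho₁ ((Nat.prime_dvd_prime_iff_eq hpr₁ Nat.prime_two).1 h4)
    have hapos : 0 < a := by omega
    have hqpos : 0 < q ^ f := pow_pos hq.pos _
    refine key (z := (a * q ^ f) ^ E) (u := (q ^ f) ^ (E - e)) (v := a ^ (E - e))
      (w₁ := w₁) (w₂ := w₂) ?_ hm ?_ ?_ (by positivity) (by positivity) ?_ hpr₁ hpr₂ ho₁ ho₂ hne
      ?_ ?_ ?_ ?_ ?_
    · have h3 : 2 ≤ a * q ^ f := by nlinarith
      calc 2 ≤ a * q ^ f := h3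
        _ = (a * q ^ f) ^ 1 := (pow_one _).symm
        _ ≤ (a * q ^ f) ^ e := Nat.pow_le_pow_right (by omega) he
    · rw [← pow_mul, ← pow_mul, hE]
      congr 1
      ring
    · rw [mul_comm ((q ^ f) ^ (E - e)), ← mul_pow, ← pow_add]
      congr 1
      omega
    · calc 4 * (a ^ (E - e)) ^ 4 < w₁ := by
            have := hw₁.2.1
            omega
        _ ≤ w₁ * w₂ := Nat.le_mul_of_pos_right _ hpr₂.pos
    · push_cast
      exact hP₁.1
    · push_cast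
      exact hP₂.1
    · push_cast
      exact hP₁.2.1
    · push_cast
      exact hP₂.2.1
    · intro p' hp' hdvd
      have h3 : p' ∣ q := hp'.dvd_of_dvd_pow (hp'.dvd_of_dvd_pow hdvd)
      rw [(Nat.prime_dvd_prime_iff_eq hp' hq).1 h3]
      refine ⟨f * 2 ^ (s - 1 - u) * ((w₁ - 1) / 2 ^ s) * ((w₂ - 1) / 2 ^ s),
        Nat.Coprime.mul_dvd_of_dvd_of_dvd ((Nat.coprime_primes hpr₁ hpr₂).2 hne) ?_ ?_⟩
      · rw [← ZMod.natCast_eq_zero_iff]
        push_cast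
        rw [pow_mul, hP₁.2.2, hb₂.neg_one_pow, neg_add_cancel]
      · rw [← ZMod.natCast_eq_zero_iff]
        push_cast
        rw [mul_right_comm, pow_mul, hP₂.2.2, hb₁.neg_one_pow, neg_add_cancel]
  -- reduction to the two elements `t₁`, `t₂`
  have reduce : ∀ L : ℕ, Odd L → (∀ w : ℕ, w.Prime → w ≠ 2 → L ∣ w - 1 →
      ∀ g : ZMod w, g ^ 2 ^ (s - 1) = -1 → ∃ t₁ t₂ : ZMod w,
        t₁ ^ (2 ^ (r + 1) * L) = 1 ∧ t₂ ^ (2 ^ (r + 1) * L) = 1 ∧ t₁ ^ E = -1 ∧ t₁ ^ e ≠ 1 ∧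
        t₂ ^ E = 1 ∧ t₂ ^ e ≠ 1) →
      Tendsto (fun N : ℕ =>
        (({q : ℕ | q ≤ N ∧ q.Prime ∧ NilSinger ((a * q ^ f) ^ e) m} : Set ℕ).ncard : ℝ) /
          Nat.primeCounting N) atTop (𝓝 0) := by
    intro L hL ht
    refine alm_abs (Good s (L * f₁) K₀ p x)
      (fun w hw => ⟨hw.1, (facts L hL w hw).1.1⟩)
      (good_diverges s (L * f₁) K₀ hs3 (hL.mul hf₁o) p hp hinj x)
      (fun w q => ((a : ZMod w) * q ^ f) ^ E = -1 ∧ ((a : ZMod w) * q ^ f) ^ e ≠ 1 ∧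
        q ^ (f * 2 ^ (s - 1 - u) * ((w - 1) / 2 ^ s)) = -1)
      (fun w q => ((a : ZMod w) * q ^ f) ^ E = 1 ∧ ((a : ZMod w) * q ^ f) ^ e ≠ 1 ∧
        q ^ (f * 2 ^ (s - 1 - u) * ((w - 1) / 2 ^ s)) = -1)
      ?_ _ (hbad L hL)
    intro w hw
    obtain ⟨⟨hw2, -, hLw, g, hg⟩, hroot⟩ := facts L hL w hw
    obtain ⟨t₁, t₂, h1, h2, h3, h4, h5, h6⟩ := ht w hw.1 hw2 hLw g hg
    obtain ⟨q₁, hq₁0, hq₁, hq₁'⟩ := hroot t₁ h1
    obtain ⟨q₂, hq₂0, hq₂, hq₂'⟩ := hroot t₂ h2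
    refine ⟨q₁, q₂, hq₁0, hq₂0, ⟨?_, ?_, hq₁'⟩, ?_, ?_, hq₂'⟩
    · rw [hq₁, h3]
    · rw [hq₁]
      exact h4
    · rw [hq₂, h5]
    · rw [hq₂]
      exact h6
  have hneg : ∀ w : ℕ, w.Prime → w ≠ 2 → (-1 : ZMod w) ≠ 1 := by
    intro w hw hw2 h
    have : Fact w.Prime := ⟨hw⟩
    have h3 : (2 : ZMod w) = 0 := by linear_combination -h
    have h4 : ((2 : ℕ) : ZMod w) = 0 := by exact_mod_cast h3
    rw [ZMod.natCast_eq_zero_iff] at h4
    exact hw2 ((Nat.prime_dvd_prime_iff_eq hw Nat.prime_two).1 h4)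
  have hθ : ∀ (w : ℕ) (g : ZMod w), g ^ 2 ^ (s - 1) = -1 → ∀ j : ℕ, j ≤ s - 1 →
      (g ^ 2 ^ (s - 1 - j)) ^ 2 ^ j = -1 := by
    intro w g hg j hj
    rw [← pow_mul, ← hg, ← pow_add]
    congr 2
    omega
  have hrE : ∀ {w : ℕ} (t : ZMod w), t ^ 2 ^ r = -1 → t ^ E = -1 := by
    intro w t ht
    rw [hE₁, pow_mul, ht, hE₁o.neg_one_pow]
  have hone : ∀ {w : ℕ} (t : ZMod w) (j n : ℕ), t ^ 2 ^ j = -1 → 2 ^ (j + 1) ∣ n → t ^ n = 1 := by
    rintro w t j n h ⟨d, rfl⟩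
    rw [pow_succ, mul_assoc, pow_mul, h, pow_mul]
    norm_num
  rcases exists_l' hm with h4 | ⟨l, hl, hl2, hlm⟩
  · -- `l = 2`
    obtain ⟨y, rfl⟩ := h4
    have hEy : E = e * (2 * y) := by nlinarith
    have hvr : v + 1 ≤ r := by
      by_contra hcon
      have h5 : 2 ^ (v + 1) ∣ E := by
        rw [hEy, pow_succ]
        exact Nat.mul_dvd_mul ⟨e₁, he₁⟩ (dvd_mul_right _ _)
      have h6 : 2 ^ (r + 1) ∣ E := (pow_dvd_pow 2 (by omega)).trans h5
      rw [hE₁, pow_succ] at h6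
      exact hE₁o' (Nat.dvd_of_mul_dvd_mul_left (by positivity) h6)
    refine reduce 1 odd_one fun w hw hw2 _ g hg => ?_
    have h11 := hneg w hw hw2
    have ht₁ := hθ w g hg r (by omega)
    have ht₂ := hθ w g hg v (by omega)
    generalize g ^ 2 ^ (s - 1 - r) = t₁ at ht₁
    generalize g ^ 2 ^ (s - 1 - v) = t₂ at ht₂
    refine ⟨t₁, t₂, ?_, ?_, hrE _ ht₁, ?_, ?_, ?_⟩
    · exact hone t₁ r _ ht₁ (dvd_mul_right _ _)
    · exact hone t₂ v _ ht₂ ((pow_dvd_pow 2 (by omega)).mul_right _)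
    · intro h
      have h3 := hrE _ ht₁
      rw [hEy, pow_mul, h, one_pow] at h3
      exact h11 h3.symm
    · apply hone t₂ v _ ht₂
      rw [hEy, pow_succ]
      exact Nat.mul_dvd_mul ⟨e₁, he₁⟩ (dvd_mul_right _ _)
    · rw [he₁, pow_mul, ht₂, he₁o.neg_one_pow]
      exact h11
  · -- `l` odd
    have hlo : Odd l := hl.odd_of_ne_two hl2
    set κ := e.factorization l + 1 with hκ
    have hlkE : l ^ κ ∣ E := by
      have h3 : l ^ κ ∣ 2 * E := by
        have h4 : 2 * E = e * m := by omega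
        rw [h4, hκ, pow_succ]
        exact Nat.mul_dvd_mul (Nat.ordProj_dvd e l) hlm
      exact (Nat.Coprime.pow_left κ (Nat.coprime_two_right.2 hlo)).dvd_of_dvd_mul_left h3
    have hlke : ¬ l ^ κ ∣ e := Nat.pow_succ_factorization_not_dvd (by omega) hl
    refine reduce (l ^ κ) hlo.pow fun w hw hw2 hLw g hg => ?_
    have hwf : Fact w.Prime := ⟨hw⟩
    have h11 := hneg w hw hw2
    have ht₁ := hθ w g hg r (by omega)
    generalize g ^ 2 ^ (s - 1 - r) = t at ht₁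
    obtain ⟨ζ, hζ⟩ := exists_zeta' w (l ^ κ) hLw
    have hζ1 : ζ ^ (2 ^ (r + 1) * l ^ κ) = 1 := (hζ _).2 (dvd_mul_left _ _)
    have hζE : ζ ^ E = 1 := (hζ _).2 hlkE
    have hζe : ζ ^ e ≠ 1 := fun h => hlke ((hζ _).1 h)
    refine ⟨t * ζ, ζ, ?_, hζ1, ?_, ?_, hζE, hζe⟩
    · rw [mul_pow, hζ1, hone t r _ ht₁ (dvd_mul_right _ _), one_mul]
    · rw [mul_pow, hζE, hrE _ ht₁, mul_one]
    · rcases Nat.even_or_odd m with hme | hmo
      · obtain ⟨y, rfl⟩ := hme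
        have hEy : E = e * y := by nlinarith
        intro h
        have h3 : (t * ζ) ^ E = -1 := by rw [mul_pow, hζE, hrE _ ht₁, mul_one]
        rw [hEy, pow_mul, h, one_pow] at h3
        exact h11 h3.symm
      · have h3 : 2 ^ (r + 1) ∣ e := by
          have h4 : 2 ^ (r + 1) ∣ e * m := by
            have h5 : e * m = E * 2 := by omega
            rw [h5, pow_succ]
            exact Nat.mul_dvd_mul ⟨E₁, hE₁⟩ dvd_rfl
          exact (Nat.Coprime.pow_left (r + 1) (Nat.coprime_two_left.2 hmo)).dvd_of_dvd_mul_right h4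
        rw [mul_pow, hone t r e ht₁ h3, one_mul]
        exact hζe

end Pool.Agent.TH66.SG
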