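import Mathlib
import Pool.Agent.TH66.SG.Fin2

/-!
# Solutions of `a q ^ f = t` modulo the primes of Chebotarev's theorem
-/

set_option autoImplicit false

namespace Pool.Agent.TH66.SG

open Finset Filter Topology

theorem root_facts {k : ℕ} (p : Fin k → ℕ) (i₀ : Fin k) {a : ℕ} (ep : Fin k → ℕ)
    (hprod : a = ∏ i, p i ^ ep i) {α a₁ : ℕ} (ha₁ : ep i₀ = 2 ^ α * a₁) (ha₁o : Odd a₁)
    {f γ f₁ : ℕ} (hf₁ : f = 2 ^ γ * f₁) (hf₁o : Odd f₁) {u s r : ℕ} (hu : u = α + 1 + γ)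
    (hs : s = r + 2 + u) {L K₀ : ℕ} (hL : Odd L) (haK : a ≤ K₀) (ha0 : 0 < a) {w : ℕ}
    (hwG : w ∈ Good s (L * f₁) K₀ p (fun i => if i = i₀ then 2 ^ γ else 0)) :
    w ≠ 2 ∧ Odd ((w - 1) / 2 ^ s) ∧ L ∣ w - 1 ∧ (∃ g : ZMod w, g ^ 2 ^ (s - 1) = -1) ∧
      (p i₀ : ZMod w) ^ (2 ^ (s - 2 - γ) * ((w - 1) / 2 ^ s)) = -1 ∧
      ∀ t : ZMod w, t ^ (2 ^ (r + 1) * L) = 1 → ∃ q : ZMod w, q ≠ 0 ∧ (a : ZMod w) * q ^ f = t ∧
        q ^ (f * 2 ^ (s - 1 - u) * ((w - 1) / 2 ^ s)) = -1 := by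
  classical
  obtain ⟨hw, hKw, b, hb, hwb, ⟨c, hc⟩, g, hg, hgx, hgM⟩ := hwG
  have hwf : Fact w.Prime := ⟨hw⟩
  have hf0 : 0 < f := by
    rw [hf₁]
    have := hf₁o.pos
    positivity
  have hw1 : w - 1 = 2 ^ s * b := by rw [hwb, Nat.add_sub_cancel]
  have hb' : (w - 1) / 2 ^ s = b := by
    rw [hw1, Nat.mul_div_cancel_left _ (by positivity)]
  rw [hb']
  have hw2 : w ≠ 2 := by
    intro h
    have h2 : 2 ^ 1 ≤ 2 ^ s := Nat.pow_le_pow_right (by norm_num) (by omega)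
    have h3 := hb.pos
    have h4 : 2 ^ s * 1 ≤ 2 ^ s * b := Nat.mul_le_mul_left _ h3
    omega
  have hLf : 0 < L * f₁ := Nat.mul_pos hL.pos hf₁o.pos
  refine ⟨hw2, hb, ?_, ⟨g, hg⟩, ?_, ?_⟩
  · rw [hw1, hc]
    exact ⟨2 ^ s * (f₁ * c), by ring⟩
  · rw [mul_comm, pow_mul, hgx]
    simp only [if_pos]
    rw [← pow_mul, ← hg]
    congr 1
    rw [← pow_succ', ← pow_add]
    congr 1
    omega
  intro t ht
  have haw : (a : ZMod w) ≠ 0 := by
    rw [Ne, ZMod.natCast_eq_zero_iff]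
    intro h
    have := Nat.le_of_dvd (by omega) h
    omega
  have ht0 : t ≠ 0 := by
    rintro rfl
    rw [zero_pow (Nat.mul_ne_zero (by positivity) hL.pos.ne')] at ht
    exact zero_ne_one ht
  have hacast : (a : ZMod w) = ∏ i, (p i : ZMod w) ^ ep i := by
    have h2 := congrArg (fun a : ℕ => (a : ZMod w)) hprod
    simp only [Nat.cast_prod, Nat.cast_pow] at h2
    exact h2
  -- `a ^ b`
  have hab : (a : ZMod w) ^ b = g ^ (2 ^ u * a₁) := by
    rw [hacast, ← Finset.prod_pow, Finset.prod_eq_single i₀]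
    · rw [← pow_mul, mul_comm, pow_mul, hgx, ha₁]
      simp only [if_pos]
      rw [← pow_mul]
      congr 1
      rw [hu]
      ring
    · intro i _ hi
      rw [← pow_mul, mul_comm, pow_mul, hgx]
      simp only [if_neg hi, mul_zero, pow_zero, one_pow]
    · intro h
      exact absurd (mem_univ _) h
  have haneg : (a : ZMod w) ^ (2 ^ (s - 1 - u) * b) = -1 := by
    rw [mul_comm, pow_mul, hab, ← pow_mul]
    have e1 : 2 ^ u * a₁ * 2 ^ (s - 1 - u) = 2 ^ (s - 1) * a₁ := by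
      rw [mul_right_comm, ← pow_add]
      congr 2
      omega
    rw [e1, pow_mul, hg, ha₁o.neg_one_pow]
  have hg2s : g ^ 2 ^ s = 1 := by
    have : 2 ^ s = 2 ^ (s - 1) * 2 := by
      rw [← pow_succ]
      congr 1
      omega
    rw [this, pow_mul, hg]
    norm_num
  have haM : (a : ZMod w) ^ ((w - 1) / (L * f₁)) = 1 := by
    rw [hacast, ← Finset.prod_pow]
    refine Finset.prod_eq_one fun i _ => ?_
    rw [← pow_mul, mul_comm, pow_mul, hgM, one_pow]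
  have hMdiv : (w - 1) / (L * f₁) = 2 ^ s * c := by
    rw [hw1, hc, mul_left_comm, Nat.mul_div_cancel_left _ hLf]
  have hfdiv : w - 1 = f * (2 ^ (s - γ) * L * c) := by
    rw [hw1, hc, hf₁]
    have : 2 ^ s = 2 ^ γ * 2 ^ (s - γ) := by
      rw [← pow_add]
      congr 1
      omega
    rw [this]
    ring
  have hfdiv' : (w - 1) / f = 2 ^ (s - γ) * L * c := by
    rw [hfdiv, Nat.mul_div_cancel_left _ (by omega)]
  have hy₀ : (a : ZMod w) ^ (2 ^ (s - γ) * L * c) = 1 := by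
    have h1 : ((a : ZMod w) ^ (2 ^ (s - γ) * L * c)) ^ f₁ = 1 := by
      rw [← pow_mul]
      have e1 : 2 ^ (s - γ) * L * c * f₁ = b * 2 ^ (s - γ) := by rw [hc]; ring
      rw [e1, pow_mul, hab, ← pow_mul]
      apply pow_one_of_dvd hg2s
      have e2 : 2 ^ u * a₁ * 2 ^ (s - γ) = 2 ^ (u + (s - γ)) * a₁ := by
        rw [pow_add]
        ring
      rw [e2]
      exact (pow_dvd_pow 2 (by omega)).mul_right _
    have h2 : ((a : ZMod w) ^ (2 ^ (s - γ) * L * c)) ^ 2 ^ γ = 1 := by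
      rw [← pow_mul]
      rw [hMdiv] at haM
      apply pow_one_of_dvd haM
      have : 2 ^ s = 2 ^ (s - γ) * 2 ^ γ := by
        rw [← pow_add]
        congr 1
        omega
      rw [this]
      exact ⟨L, by ring⟩
    have h3 := pow_gcd_eq_one.2 ⟨h1, h2⟩
    rwa [(Nat.coprime_two_right.2 hf₁o).pow_right γ, pow_one] at h3
  have hyt : t ^ (2 ^ (s - γ) * L * c) = 1 := by
    apply pow_one_of_dvd ht
    exact (Nat.mul_dvd_mul_right (pow_dvd_pow 2 (by omega)) L).mul_right _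
  obtain ⟨q, hq0, hq⟩ := exists_root_pow w f ⟨_, hfdiv⟩ (t / a) (div_ne_zero ht0 haw) (by
    rw [hfdiv', div_pow, hy₀, hyt, div_one])
  refine ⟨q, hq0, ?_, ?_⟩
  · rw [hq, mul_div_cancel₀ _ haw]
  · rw [mul_assoc f, pow_mul, hq, div_pow, haneg]
    have h1 : t ^ (2 ^ (s - 1 - u) * b) = 1 := by
      apply pow_one_of_dvd ht
      have e1 : s - 1 - u = r + 1 := by omega
      rw [e1, hc]
      exact Nat.mul_dvd_mul_left _ ⟨f₁ * c, by ring⟩
    rw [h1]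
    norm_num

end Pool.Agent.TH66.SG
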