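import Mathlib
import Pool.Agent.TH66.SG.Root
import Pool.Agent.H771R2.SingerDS

/-!
# Odd dimension, order not a square: almost all primes `q`, arbitrary finite groups
-/

set_option autoImplicit false

namespace Pool.Agent.TH66.SG

open Finset Filter Topology
open Pool.Agent.H771R2.SingerDS (HasSinger odd_geom)
open Pool.Agent.H771R2.Lander (no_difference_set)

/-- the exclusion -/
theorem excluded' {n m w r j c n' : ℕ} (hm : Odd m) (hm3 : 3 ≤ m)
    (hn : 2 ≤ n) (h : HasSinger n m) (hw : w.Prime)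
    (hwn : (n : ZMod w) ^ m = 1) (hwn1 : (n : ZMod w) ≠ 1) (hr : r.Prime)
    (hc : Odd c) (hn' : n = r ^ c * n') (hrn : ¬ r ∣ n') (hrw : (r : ZMod w) ^ j = -1) : False := by
  obtain ⟨G, hG, hGf, hGd, D, h1, h2, h3⟩ := h
  have : Fact w.Prime := ⟨hw⟩
  have hn1 : 0 < n - 1 := by omega
  -- sizes
  have hgeom : ∀ j : ℕ, (∑ i ∈ Finset.range j, n ^ i) * (n - 1) = n ^ j - 1 := by
    intro j
    exact Nat.geomSum_eq (by omega) j ▸ (Nat.div_mul_cancel (by
      simpa using Nat.sub_dvd_pow_sub_pow n 1 j))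
  have hv : Fintype.card G = ∑ i ∈ Finset.range m, n ^ i :=
    Nat.eq_of_mul_eq_mul_right hn1 (h1.trans (hgeom m).symm)
  have hk : D.card = ∑ i ∈ Finset.range (m - 1), n ^ i :=
    Nat.eq_of_mul_eq_mul_right hn1 (h2.trans (hgeom (m - 1)).symm)
  have hlam : ∀ g : G, g ≠ 1 → ((D ×ˢ D).filter (fun p : G × G => p.1 * p.2⁻¹ = g)).card =
      ∑ i ∈ Finset.range (m - 2), n ^ i := fun g hg =>
    Nat.eq_of_mul_eq_mul_right hn1 ((h3 g hg).trans (hgeom (m - 2)).symm)
  -- `v` is odd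
  have hodd : Odd (Fintype.card G) := by
    obtain ⟨j, rfl⟩ := hm
    rw [hv]
    exact odd_geom n j
  -- `w ∣ v`
  have hqv : w ∣ Fintype.card G := by
    rw [← ZMod.natCast_eq_zero_iff]
    have h4 : ((Fintype.card G * (n - 1) : ℕ) : ZMod w) = 0 := by
      rw [h1, Nat.cast_sub (Nat.one_le_pow _ _ (by omega))]
      push_cast
      rw [hwn, sub_self]
    rw [Nat.cast_mul] at h4
    rcases mul_eq_zero.1 h4 with h5 | h5
    · exact h5
    · exfalso
      rw [Nat.cast_sub (by omega), sub_eq_zero] at h5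
      exact hwn1 (by simpa using h5)
  have hru : ¬ (r : ℤ) ∣ ((n' : ℤ) ^ (m - 2)) := by
    intro h4
    have h5 := (Nat.prime_iff_prime_int.1 hr).dvd_of_dvd_pow h4
    exact hrn (by exact_mod_cast h5)
  refine no_difference_set D _ _ hk hlam hodd hw hqv hr hrw (a := c * (m - 2)) ?_ hru ?_
  · refine hc.mul ?_
    obtain ⟨j, rfl⟩ := hm
    exact ⟨j - 1, by omega⟩
  · have h4 : m - 1 = (m - 2) + 1 := by omega
    rw [h4, Finset.sum_range_succ]
    push_cast
    rw [hn']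
    push_cast
    ring

theorem tendsto_of_finite {Bad Bad' : ℕ → Prop} (B : ℕ)
    (h : ∀ q, q.Prime → Bad q → Bad' q ∨ q ≤ B)
    (ht : Tendsto (fun N : ℕ => (({q : ℕ | q ≤ N ∧ q.Prime ∧ Bad' q} : Set ℕ).ncard : ℝ) /
      Nat.primeCounting N) atTop (𝓝 0)) :
    Tendsto (fun N : ℕ => (({q : ℕ | q ≤ N ∧ q.Prime ∧ Bad q} : Set ℕ).ncard : ℝ) /
      Nat.primeCounting N) atTop (𝓝 0) := by
  have hπ : Tendsto (fun N : ℕ => (Nat.primeCounting N : ℝ)) atTop atTop :=
    tendsto_natCast_atTop_atTop.comp Nat.tendsto_primeCounting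
  have h1 : Tendsto (fun N : ℕ => (({q : ℕ | q ≤ N ∧ q.Prime ∧ Bad' q} : Set ℕ).ncard : ℝ) /
      Nat.primeCounting N + ((B + 1 : ℕ) : ℝ) / Nat.primeCounting N) atTop (𝓝 0) := by
    have := ht.add (tendsto_const_nhds.div_atTop hπ : Tendsto
      (fun N : ℕ => ((B + 1 : ℕ) : ℝ) / Nat.primeCounting N) atTop (𝓝 0))
    simpa using this
  refine squeeze_zero (fun N => by positivity) (fun N => ?_) h1
  rw [← add_div]
  apply div_le_div_of_nonneg_right _ (Nat.cast_nonneg _)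
  have hfin : ({q : ℕ | q ≤ N ∧ q.Prime ∧ Bad' q} : Set ℕ).Finite :=
    (Set.finite_Iic N).subset fun q hq => hq.1
  have h2 : ({q : ℕ | q ≤ N ∧ q.Prime ∧ Bad q} : Set ℕ) ⊆
      {q : ℕ | q ≤ N ∧ q.Prime ∧ Bad' q} ∪ Set.Iic B := by
    rintro q ⟨h3, h4, h5⟩
    rcases h q h4 h5 with h6 | h6
    · exact Or.inl ⟨h3, h4, h6⟩
    · exact Or.inr h6
  have h3 := (Set.ncard_le_ncard h2 (hfin.union (Set.finite_Iic B))).trans (Set.ncard_union_le _ _)
  have h4 : (Set.Iic B).ncard = B + 1 := by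
    rw [← Finset.coe_Iic, Set.ncard_coe_finset, Nat.card_Iic]
  rw [h4] at h3
  exact_mod_cast h3

theorem odd_main {m a f : ℕ} (hm : Odd m) (hm3 : 3 ≤ m) (ha : 2 ≤ a) (hf : 1 ≤ f)
    (hns : Odd f ∨ ¬ IsSquare a) :
    Tendsto (fun N : ℕ =>
      (({q : ℕ | q ≤ N ∧ q.Prime ∧ HasSinger (a * q ^ f) m} : Set ℕ).ncard : ℝ) /
        Nat.primeCounting N) atTop (𝓝 0) := by
  classical
  have ha0 : a ≠ 0 := by omega
  obtain ⟨γ, f₁, hf₁o', hf₁⟩ :=
    Nat.exists_eq_pow_mul_and_not_dvd (by omega : f ≠ 0) 2 (by norm_num)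
  have hf₁o : Odd f₁ := by rwa [← Nat.not_even_iff_odd, even_iff_two_dvd]
  -- the prime factors of `a`
  set k := a.primeFactors.card with hk
  have hk1 : 1 ≤ k := by
    have h2 : k ≠ 0 := by
      intro h
      rw [hk, Finset.card_eq_zero, Nat.primeFactors_eq_empty] at h
      omega
    omega
  set p : Fin k → ℕ := fun i => (a.primeFactors.equivFin.symm i : ℕ) with hpdef
  have hpmem : ∀ i, p i ∈ a.primeFactors := fun i => (a.primeFactors.equivFin.symm i).2
  have hp : ∀ i, (p i).Prime := fun i => Nat.prime_of_mem_primeFactors (hpmem i)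
  have hinj : Function.Injective p := by
    intro i j h
    exact a.primeFactors.equivFin.symm.injective (Subtype.ext h)
  have hsurj : ∀ q ∈ a.primeFactors, ∃ i, p i = q := by
    intro q hq
    refine ⟨a.primeFactors.equivFin ⟨q, hq⟩, ?_⟩
    simp [hpdef]
  have hprod : a = ∏ i, p i ^ a.factorization (p i) := by
    conv_lhs => rw [← Nat.prod_factorization_pow_eq_self ha0]
    rw [Finsupp.prod, Nat.support_factorization, ← Finset.prod_coe_sort]
    exact (Fintype.prod_equiv a.primeFactors.equivFin.symm _ _ (fun i => rfl)).symm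
  have hae : ∀ i, a.factorization (p i) ≠ 0 := by
    intro i
    have := hpmem i
    rw [← Nat.support_factorization, Finsupp.mem_support_iff] at this
    exact this
  -- the distinguished prime
  obtain ⟨i₀, hi₀⟩ : ∃ i₀ : Fin k, Odd f ∨ Odd (a.factorization (p i₀)) := by
    rcases hns with h | h
    · exact ⟨⟨0, by omega⟩, Or.inl h⟩
    · by_contra hcon
      push Not at hcon
      apply h
      have h1 : ∀ i, ∃ y, a.factorization (p i) = y + y := fun i => by
        have := (hcon i).2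
        rw [Nat.not_odd_iff_even] at this
        exact this
      choose y hy using h1
      refine ⟨∏ i, p i ^ y i, ?_⟩
      rw [← Finset.prod_mul_distrib]
      conv_lhs => rw [hprod]
      refine Finset.prod_congr rfl fun i _ => ?_
      rw [hy, pow_add]
  obtain ⟨α, a₁, ha₁o', ha₁⟩ := Nat.exists_eq_pow_mul_and_not_dvd (hae i₀) 2 (by norm_num)
  have ha₁o : Odd a₁ := by rwa [← Nat.not_even_iff_odd, even_iff_two_dvd]
  obtain ⟨u, hu⟩ : ∃ u, u = α + 1 + γ := ⟨_, rfl⟩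
  obtain ⟨s, hs⟩ : ∃ s, s = 0 + 2 + u := ⟨_, rfl⟩
  have hs3 : 3 ≤ s := by omega
  set l := m.minFac with hl
  have hlp : l.Prime := Nat.minFac_prime (by omega)
  have hlm : l ∣ m := Nat.minFac_dvd m
  have hlo : Odd l := Odd.of_dvd_nat hm hlm
  set R := Good s (l * f₁) a p (fun i => if i = i₀ then 2 ^ γ else 0) with hR
  have facts := fun (w : ℕ) (hw : w ∈ R) => root_facts p i₀ (a := a) (fun i => a.factorization (p i))
    hprod ha₁ ha₁o hf₁ hf₁o hu hs hlo le_rfl (by omega) hw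
  set J : ℕ → ℕ := fun w => f * 2 ^ (s - 1 - u) * ((w - 1) / 2 ^ s) with hJ
  have main := alm_abs R (fun w hw => ⟨hw.1, (facts w hw).1⟩)
    (good_diverges s (l * f₁) a hs3 (hlo.mul hf₁o) p hp hinj _)
    (fun w q => ((a : ZMod w) * q ^ f) ^ m = 1 ∧ (a : ZMod w) * q ^ f ≠ 1 ∧ q ^ J w = -1)
    (fun w q => ((a : ZMod w) * q ^ f) ^ m = 1 ∧ (a : ZMod w) * q ^ f ≠ 1 ∧ q ^ J w = -1)
    ?_ (fun q => ¬ q ∣ a ∧ HasSinger (a * q ^ f) m) ?_
  · refine tendsto_of_finite a ?_ main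
    intro q hq hbad
    by_cases h : q ∣ a
    · exact Or.inr (Nat.le_of_dvd (by omega) h)
    · exact Or.inl ⟨h, hbad⟩
  · intro w hw
    obtain ⟨hw2, hb, hLw, _, _, hroot⟩ := facts w hw
    have hwf : Fact w.Prime := ⟨hw.1⟩
    obtain ⟨ζ, hζ⟩ := exists_zeta' w l hLw
    have hζ1 : ζ ^ (2 ^ (0 + 1) * l) = 1 := (hζ _).2 (dvd_mul_left _ _)
    obtain ⟨q, hq0, hq, hq'⟩ := hroot ζ hζ1
    have hζne : ζ ≠ 1 := by
      intro h
      have h1 := (hζ 1).1 (by rw [pow_one, h])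
      exact hlp.one_lt.ne' (Nat.dvd_one.1 h1)
    have h1 : ((a : ZMod w) * q ^ f) ^ m = 1 ∧ (a : ZMod w) * q ^ f ≠ 1 ∧ q ^ J w = -1 :=
      ⟨by rw [hq]; exact (hζ m).2 hlm, by rw [hq]; exact hζne, hq'⟩
    exact ⟨q, q, hq0, hq0, h1, h1⟩
  · rintro w hw - - q hq ⟨h1, h2, h3⟩ - ⟨hqa, hS⟩
    have hpr := hw.1
    obtain ⟨hw2, hb, hLw, _, hpi, hroot⟩ := facts w hw
    have hqpos : 0 < q ^ f := pow_pos hq.pos _
    have hn2 : 2 ≤ a * q ^ f := by nlinarith
    rcases hi₀ with hfo | hao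
    · refine excluded' (n := a * q ^ f) (m := m) (w := w) (r := q) (j := J w) (c := f) (n' := a)
        hm hm3 hn2 hS hpr ?_ ?_ hq hfo (mul_comm _ _) hqa h3
      · push_cast
        exact h1
      · push_cast
        exact h2
    · have hpq : p i₀ ≠ q := by
        rintro rfl
        exact hqa (Nat.dvd_of_mem_primeFactors (hpmem i₀))
      refine excluded' (n := a * q ^ f) (m := m) (w := w) (r := p i₀)
        (j := 2 ^ (s - 2 - γ) * ((w - 1) / 2 ^ s)) (c := a.factorization (p i₀))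
        (n' := a / p i₀ ^ a.factorization (p i₀) * q ^ f)
        hm hm3 hn2 hS hpr ?_ ?_ (hp i₀) hao ?_ ?_ hpi
      · push_cast
        exact h1
      · push_cast
        exact h2
      · rw [← mul_assoc, Nat.mul_div_cancel' (Nat.ordProj_dvd a (p i₀))]
      · intro hdvd
        rcases (hp i₀).dvd_mul.1 hdvd with h4 | h4
        · exact Nat.not_dvd_ordCompl (hp i₀) ha0 h4
        · exact hpq ((Nat.prime_dvd_prime_iff_eq (hp i₀) hq).1 ((hp i₀).dvd_of_dvd_pow h4))

end Pool.Agent.TH66.SG
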