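import Mathlib
import Pool.Agent.TH888.B1.PrimeSieve

/-!
# Tuples of primes with bounded product: recursion and growth
-/

set_option autoImplicit false

namespace Pool.Agent.TH66.SG

open Finset Filter Topology

/-- the primes up to `X` -/
def PP (X : ℕ) : Finset ℕ := (range (X + 1)).filter Nat.Prime

theorem mem_PP {X p : ℕ} : p ∈ PP X ↔ p.Prime ∧ p ≤ X := by
  rw [PP, mem_filter, mem_range, Nat.lt_succ_iff, and_comm]

/-- the `k`-tuples of primes with product at most `X` -/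
def LL (k X : ℕ) : Finset (Fin k → ℕ) :=
  (Fintype.piFinset fun _ => PP X).filter (fun l => ∏ i, l i ≤ X)

theorem mem_LL {k X : ℕ} {l : Fin k → ℕ} : l ∈ LL k X ↔ (∀ i, (l i).Prime) ∧ ∏ i, l i ≤ X := by
  rw [LL, mem_filter, Fintype.mem_piFinset]
  constructor
  · rintro ⟨h1, h2⟩
    exact ⟨fun i => (mem_PP.1 (h1 i)).1, h2⟩
  · rintro ⟨h1, h2⟩
    refine ⟨fun i => mem_PP.2 ⟨h1 i, ?_⟩, h2⟩
    refine le_trans ?_ h2
    exact Nat.le_of_dvd (Finset.prod_pos fun j _ => (h1 j).pos) (Finset.dvd_prod_of_mem l (mem_univ i))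

theorem LL_mono {k X Y : ℕ} (h : X ≤ Y) : LL k X ⊆ LL k Y := fun _ hl =>
  mem_LL.2 ⟨(mem_LL.1 hl).1, (mem_LL.1 hl).2.trans h⟩

/-- the number of tuples -/
def NN (k X : ℕ) : ℕ := (LL k X).card

theorem NN_mono {k X Y : ℕ} (h : X ≤ Y) : NN k X ≤ NN k Y := card_le_card (LL_mono h)

theorem cons_mem {k X p : ℕ} {l : Fin k → ℕ} :
    (Fin.cons p l : Fin (k + 1) → ℕ) ∈ LL (k + 1) X ↔ p.Prime ∧ (∀ i, (l i).Prime) ∧
      p * ∏ i, l i ≤ X := by
  rw [mem_LL, Fin.forall_fin_succ, Fin.prod_univ_succ]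
  simp only [Fin.cons_zero, Fin.cons_succ, and_assoc]

theorem rec1 {k X : ℕ} (H : (Fin (k + 1) → ℕ) → ℝ) :
    ∑ l ∈ LL (k + 1) X, H l = ∑ p ∈ PP X, ∑ l ∈ LL k (X / p), H (Fin.cons p l) := by
  rw [Finset.sum_sigma']
  symm
  refine Finset.sum_bij' (fun x _ => (Fin.cons x.1 x.2 : Fin (k + 1) → ℕ))
    (fun l _ => ⟨l 0, Fin.tail l⟩) ?_ ?_ ?_ ?_ ?_
  · rintro ⟨p, l⟩ h
    rw [mem_sigma, mem_PP, mem_LL] at h
    obtain ⟨⟨h1, h2⟩, h3, h4⟩ := h
    rw [cons_mem]
    refine ⟨h1, h3, ?_⟩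
    rw [mul_comm]
    exact (Nat.le_div_iff_mul_le h1.pos).1 h4
  · intro l h
    have h' : (Fin.cons (l 0) (Fin.tail l) : Fin (k + 1) → ℕ) ∈ LL (k + 1) X := by
      rwa [Fin.cons_self_tail]
    rw [cons_mem] at h'
    obtain ⟨h1, h2, h3⟩ := h'
    rw [mem_sigma, mem_PP, mem_LL]
    refine ⟨⟨h1, ?_⟩, h2, ?_⟩
    · exact le_trans (Nat.le_mul_of_pos_right _ (Finset.prod_pos fun j _ => (h2 j).pos)) h3
    · rw [Nat.le_div_iff_mul_le h1.pos, mul_comm]
      exact h3
  · rintro ⟨p, l⟩ _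
    simp
  · intro l _
    simp
  · rintro ⟨p, l⟩ _
    rfl

theorem rec2 {k X : ℕ} (H : (Fin (k + 1) → ℕ) → ℝ) :
    ∑ l ∈ LL (k + 1) X, H l = ∑ l ∈ LL k X, ∑ p ∈ PP (X / ∏ i, l i), H (Fin.cons p l) := by
  rw [Finset.sum_sigma']
  symm
  refine Finset.sum_bij' (fun x _ => (Fin.cons x.2 x.1 : Fin (k + 1) → ℕ))
    (fun l _ => ⟨Fin.tail l, l 0⟩) ?_ ?_ ?_ ?_ ?_
  · rintro ⟨l, p⟩ h
    rw [mem_sigma, mem_PP, mem_LL] at h
    obtain ⟨⟨h1, h2⟩, h3, h4⟩ := h
    rw [cons_mem]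
    exact ⟨h3, h1, (Nat.le_div_iff_mul_le (Finset.prod_pos fun j _ => (h1 j).pos)).1 h4⟩
  · intro l h
    have h' : (Fin.cons (l 0) (Fin.tail l) : Fin (k + 1) → ℕ) ∈ LL (k + 1) X := by
      rwa [Fin.cons_self_tail]
    rw [cons_mem] at h'
    obtain ⟨h1, h2, h3⟩ := h'
    rw [mem_sigma, mem_PP, mem_LL]
    refine ⟨⟨h2, ?_⟩, h1, ?_⟩
    · exact le_trans (Nat.le_mul_of_pos_left _ h1.pos) h3
    · exact (Nat.le_div_iff_mul_le (Finset.prod_pos fun j _ => (h2 j).pos)).2 h3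
  · rintro ⟨l, p⟩ _
    simp
  · intro l _
    simp
  · rintro ⟨l, p⟩ _
    rfl

theorem NN_succ (k X : ℕ) : (NN (k + 1) X : ℝ) = ∑ p ∈ PP X, (NN k (X / p) : ℝ) := by
  have h := rec1 (k := k) (X := X) (fun _ => (1 : ℝ))
  simp only [sum_const, nsmul_eq_mul, mul_one] at h
  exact h

theorem NN_one (X : ℕ) : (NN 1 X : ℝ) = (PP X).card := by
  rw [NN_succ]
  have : ∀ p ∈ PP X, (NN 0 (X / p) : ℝ) = 1 := by
    intro p hp
    have h1 : LL 0 (X / p) = {default} := by
      ext l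
      rw [mem_LL, mem_singleton]
      simp only [IsEmpty.forall_iff, univ_eq_empty, prod_empty, true_and]
      constructor
      · intro _
        exact Subsingleton.elim _ _
      · intro _
        rw [mem_PP] at hp
        exact (Nat.le_div_iff_mul_le hp.1.pos).2 (by rw [one_mul]; exact hp.2)
    rw [NN, h1, card_singleton, Nat.cast_one]
  rw [sum_congr rfl this, sum_const, nsmul_eq_mul, mul_one]

theorem card_PP (X : ℕ) : (PP X).card = Nat.primeCounting X := by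
  rw [PP, Nat.primeCounting, Nat.primeCounting', Nat.count_eq_card_filter_range]

/-- the three growth properties -/
structure Growth (k : ℕ) : Prop where
  reg : ∃ c : ℝ, 0 < c ∧ ∀ a : ℕ, 1 ≤ a → ∃ X₀ : ℕ, ∀ X : ℕ, X₀ ≤ X →
    c * NN k X ≤ a * NN k (X / a)
  pi_le : ∃ X₀ : ℕ, ∀ X : ℕ, X₀ ≤ X → NN 1 X ≤ NN k X

theorem growth_step {k : ℕ} (h : Growth k) (M : ℝ) :
    ∃ X₀ : ℕ, ∀ X : ℕ, X₀ ≤ X → M * NN k X ≤ NN (k + 1) X := by
  obtain ⟨c, hc, hreg⟩ := h.reg
  -- a finite set of primes with large sum of reciprocals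
  obtain ⟨F, hF⟩ : ∃ F : Finset ℕ, M / c ≤ ∑ p ∈ F, Set.indicator {p | p.Prime}
      (fun n : ℕ => (1 : ℝ) / n) p := by
    by_contra hcon
    push Not at hcon
    apply Nat.Primes.not_summable_one_div ∘ fun hs => ?_
    · exact (summable_of_sum_le (fun r => Set.indicator_nonneg (fun n _ => by positivity) r)
        (fun F => (hcon F).le) : Summable (Set.indicator {p : ℕ | p.Prime}
          (fun n : ℕ => (1 : ℝ) / n)))
    · exact (summable_subtype_iff_indicator (f := fun n : ℕ => (1 : ℝ) / n)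
        (s := {p : ℕ | p.Prime})).2 hs
  choose! X₀ hX₀ using hreg
  refine ⟨∑ p ∈ F, (X₀ p + p), fun X hX => ?_⟩
  have hle : ∀ p ∈ F, X₀ p ≤ X ∧ p ≤ X := by
    intro p hp
    have h5 : X₀ p + p ≤ ∑ p ∈ F, (X₀ p + p) :=
      Finset.single_le_sum (f := fun p => X₀ p + p) (fun _ _ => Nat.zero_le _) hp
    omega
  have h1 : M * NN k X ≤ ∑ p ∈ F, Set.indicator {p : ℕ | p.Prime} (fun n : ℕ => (1 : ℝ) / n) p *
      (c * NN k X) := by
    rw [← Finset.sum_mul]
    calc M * NN k X = M / c * (c * NN k X) := by field_simp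
      _ ≤ _ := mul_le_mul_of_nonneg_right hF (by positivity)
  refine h1.trans ?_
  rw [NN_succ]
  calc ∑ p ∈ F, Set.indicator {p : ℕ | p.Prime} (fun n : ℕ => (1 : ℝ) / n) p * (c * NN k X)
      ≤ ∑ p ∈ F.filter Nat.Prime, (NN k (X / p) : ℝ) := by
        rw [Finset.sum_filter]
        refine Finset.sum_le_sum fun p hp => ?_
        by_cases hpp : p.Prime
        · rw [Set.indicator_of_mem (by exact hpp), if_pos hpp]
          have h2 := hX₀ p hpp.one_le X (hle p hp).1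
          have h3 : (0 : ℝ) < p := by exact_mod_cast hpp.pos
          rw [one_div, inv_mul_le_iff₀ h3]
          exact h2
        · rw [Set.indicator_of_notMem (by exact hpp), if_neg hpp, zero_mul]
    _ ≤ ∑ p ∈ PP X, (NN k (X / p) : ℝ) := by
        refine Finset.sum_le_sum_of_subset_of_nonneg ?_ fun _ _ _ => Nat.cast_nonneg _
        intro p hp
        rw [mem_filter] at hp
        exact mem_PP.2 ⟨hp.2, (hle p hp.1).2⟩

theorem growth_one : Growth 1 := by
  refine ⟨⟨1 / 48, by norm_num, fun a ha => ?_⟩, ⟨0, fun X _ => le_rfl⟩⟩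
  obtain ⟨N₁, hN₁⟩ := Pool.Agent.TH888.B1.primes_in_classes
  obtain ⟨N₂, hN₂⟩ := Pool.Agent.TH888.B1.pi_lower
  refine ⟨N₁ + 4 + a * (N₂ + 2), fun X hX => ?_⟩
  rw [NN_one, NN_one]
  have h1 := hN₁ 1 {0} le_rfl X (by omega) (by omega) (by omega)
  have h1' : ((PP X).card : ℝ) ≤ 12 * (X / Real.log X) := by
    have e : ((range (X + 1)).filter (fun p : ℕ => p.Prime ∧ p % 1 ∈ ({0} : Finset ℕ))) = PP X := by
      rw [PP]
      refine Finset.filter_congr fun p _ => ?_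
      simp [Nat.mod_one]
    rw [e] at h1
    simpa using h1
  have hY : N₂ + 2 ≤ X / a := (Nat.le_div_iff_mul_le (by omega)).2 (by
    have : (N₂ + 2) * a = a * (N₂ + 2) := mul_comm _ _
    omega)
  have h2 := hN₂ (X / a) (by omega)
  rw [← card_PP] at h2
  have haR : (1 : ℝ) ≤ a := by exact_mod_cast ha
  have hX4 : (4 : ℝ) ≤ X := by exact_mod_cast (by omega : 4 ≤ X)
  have hlogX : 0 < Real.log X := Real.log_pos (by linarith)
  have hYR : (2 : ℝ) ≤ ((X / a : ℕ) : ℝ) := by exact_mod_cast (by omega : 2 ≤ X / a)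
  have hlogY : 0 < Real.log ((X / a : ℕ) : ℝ) := Real.log_pos (by linarith)
  have hYX : ((X / a : ℕ) : ℝ) ≤ X := by exact_mod_cast Nat.div_le_self X a
  have hlog : Real.log ((X / a : ℕ) : ℝ) ≤ Real.log X := Real.log_le_log (by linarith) hYX
  have h3 : (X : ℝ) ≤ 2 * (a * ((X / a : ℕ) : ℝ)) := by
    have h4 : X < a * (X / a) + a := by
      have := Nat.div_add_mod X a
      have h5 := Nat.mod_lt X (by omega : 0 < a)
      omega
    have h5 : a ≤ a * (X / a) := Nat.le_mul_of_pos_right _ (by omega)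
    have h6 : X ≤ 2 * (a * (X / a)) := by omega
    exact_mod_cast h6
  have h4 : (X : ℝ) / Real.log X ≤ 4 * (a * (PP (X / a)).card) := by
    rw [div_le_iff₀ hlogX]
    rw [div_le_iff₀ hlogY] at h2
    have h5 : (2 : ℝ) * (PP (X / a)).card * Real.log ((X / a : ℕ) : ℝ) ≤
        2 * (PP (X / a)).card * Real.log X := mul_le_mul_of_nonneg_left hlog (by positivity)
    have h6 : (a : ℝ) * ((X / a : ℕ) : ℝ) ≤ a * (2 * (PP (X / a)).card * Real.log X) :=
      mul_le_mul_of_nonneg_left (h2.trans h5) (by positivity)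
    calc (X : ℝ) ≤ 2 * (a * ((X / a : ℕ) : ℝ)) := h3
      _ ≤ 2 * (a * (2 * (PP (X / a)).card * Real.log X)) := by linarith
      _ = 4 * (a * (PP (X / a)).card) * Real.log X := by ring
  linarith

theorem growth_succ {k : ℕ} (h : Growth k) : Growth (k + 1) := by
  have hD := growth_step h
  obtain ⟨c, hc, hreg⟩ := h.reg
  obtain ⟨X₁, hX₁⟩ := h.pi_le
  refine ⟨⟨c / 2, by positivity, fun a ha => ?_⟩, ?_⟩
  · obtain ⟨Y, hY⟩ := hreg a ha
    obtain ⟨X₂, hX₂⟩ := hD (2 * NN k Y)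
    refine ⟨X₁ + X₂, fun X hX => ?_⟩
    have h1 : (a : ℝ) * NN (k + 1) (X / a) = ∑ p ∈ PP (X / a), (a : ℝ) * NN k (X / p / a) := by
      rw [NN_succ, Finset.mul_sum]
      refine Finset.sum_congr rfl fun p _ => ?_
      rw [Nat.div_div_eq_div_mul, Nat.div_div_eq_div_mul, mul_comm a p]
    have h2 : ∑ p ∈ PP (X / a), (a : ℝ) * NN k (X / p / a) =
        ∑ p ∈ PP X, (a : ℝ) * NN k (X / p / a) := by
      refine Finset.sum_subset ?_ ?_
      · intro p hp
        rw [mem_PP] at hp ⊢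
        exact ⟨hp.1, hp.2.trans (Nat.div_le_self _ _)⟩
      · intro p hp hp'
        rw [mem_PP] at hp hp'
        have h3 : X / p / a = 0 := by
          rw [Nat.div_div_eq_div_mul, mul_comm, ← Nat.div_div_eq_div_mul]
          exact Nat.div_eq_of_lt (by
            by_contra hcon
            exact hp' ⟨hp.1, by omega⟩)
        rw [h3]
        have h4 : NN k 0 = 0 := by
          rw [NN, card_eq_zero, eq_empty_iff_forall_notMem]
          intro l hl
          rw [mem_LL] at hl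
          have := Finset.prod_pos (s := univ) fun j (_ : j ∈ univ) => (hl.1 j).pos
          omega
        rw [h4]
        simp
    rw [h1, h2]
    have h3 : ∀ p ∈ PP X, c * (NN k (X / p) : ℝ) - c * NN k Y ≤ (a : ℝ) * NN k (X / p / a) := by
      intro p _
      by_cases hp : Y ≤ X / p
      · have := hY _ hp
        have h4 : 0 ≤ c * (NN k Y : ℝ) := by positivity
        linarith
      · have h5 : (NN k (X / p) : ℝ) ≤ NN k Y := by exact_mod_cast NN_mono (by omega)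
        have h6 : c * (NN k (X / p) : ℝ) ≤ c * NN k Y := mul_le_mul_of_nonneg_left h5 hc.le
        have h7 : (0 : ℝ) ≤ (a : ℝ) * NN k (X / p / a) := by positivity
        linarith
    have h4 := Finset.sum_le_sum h3
    rw [Finset.sum_sub_distrib, ← Finset.mul_sum, ← NN_succ, sum_const, nsmul_eq_mul,
      ← NN_one] at h4
    refine le_trans ?_ h4
    have h5 : (NN 1 X : ℝ) ≤ NN k X := by exact_mod_cast hX₁ X (by omega)
    have h6 := hX₂ X (by omega)
    have h7 : (NN 1 X : ℝ) * (c * NN k Y) ≤ NN k X * (c * NN k Y) :=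
      mul_le_mul_of_nonneg_right h5 (by positivity)
    have h8 : (NN k X : ℝ) * (c * NN k Y) = c / 2 * (2 * NN k Y * NN k X) := by ring
    have h9 : c / 2 * (2 * NN k Y * NN k X : ℝ) ≤ c / 2 * NN (k + 1) X :=
      mul_le_mul_of_nonneg_left h6 (by positivity)
    linarith
  · obtain ⟨X₂, hX₂⟩ := hD 1
    refine ⟨X₁ + X₂, fun X hX => ?_⟩
    have h1 := hX₂ X (by omega)
    rw [one_mul] at h1
    have h2 : NN k X ≤ NN (k + 1) X := by exact_mod_cast h1
    exact (hX₁ X (by omega)).trans h2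

theorem growth (k : ℕ) : Growth (k + 1) := by
  induction k with
  | zero => exact growth_one
  | succ k ih => exact growth_succ ih

end Pool.Agent.TH66.SG
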