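import Mathlib
import Pool.Agent.TH66.SG.Tup1

/-!
# Distribution of the classes of the tuples of primes (upper bounds)
-/

set_option autoImplicit false

namespace Pool.Agent.TH66.SG

open Finset Filter Topology

section
variable {Cl : Type} [Fintype Cl] [DecidableEq Cl]

/-- the mean value -/
def mu (κ : Cl → ℝ) {k : ℕ} (G : (Fin k → Cl) → ℝ) : ℝ := ∑ d : Fin k → Cl, (∏ i, κ (d i)) * G d

/-- the mean over the first coordinate -/
def red (κ : Cl → ℝ) {k : ℕ} (G : (Fin (k + 1) → Cl) → ℝ) (d : Fin k → Cl) : ℝ :=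
  ∑ c, κ c * G (Fin.cons c d)

theorem mu_succ (κ : Cl → ℝ) {k : ℕ} (G : (Fin (k + 1) → Cl) → ℝ) : mu κ G = mu κ (red κ G) := by
  unfold mu red
  rw [← (Fin.consEquiv fun _ : Fin (k + 1) => Cl).sum_comp, Fintype.sum_prod_type_right]
  refine Finset.sum_congr rfl fun d _ => ?_
  rw [Finset.mul_sum]
  refine Finset.sum_congr rfl fun c _ => ?_
  change (∏ i, κ ((Fin.cons c d : Fin (k + 1) → Cl) i)) * G (Fin.cons c d) = _
  rw [Fin.prod_univ_succ]
  simp only [Fin.cons_zero, Fin.cons_succ]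
  ring

/-- the bound for the primes of the classes -/
def Dist (cls : ℕ → Cl) (κ : Cl → ℝ) : Prop :=
  ∃ T₀ : ℕ, ∀ X : ℕ, T₀ ≤ X → ∀ c : Cl,
    (((PP X).filter (fun p => cls p = c)).card : ℝ) ≤ κ c * (PP X).card

theorem inner (cls : ℕ → Cl) (κ : Cl → ℝ) (hκ : Dist cls κ) {k : ℕ}
    (G : (Fin (k + 1) → Cl) → ℝ) (hG : ∀ d, 0 ≤ G d) : ∃ K : ℝ, 0 ≤ K ∧ ∀ (d : Fin k → Cl) (Y : ℕ),
      ∑ p ∈ PP Y, G (Fin.cons (cls p) d) ≤ (PP Y).card * red κ G d + K := by
  obtain ⟨T₀, hT₀⟩ := hκ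
  set B : ℝ := ∑ d, G d with hB
  have hB0 : 0 ≤ B := Finset.sum_nonneg fun d _ => hG d
  have hBd : ∀ d, G d ≤ B := fun d => Finset.single_le_sum (fun d _ => hG d) (mem_univ d)
  have key : ∀ (d : Fin k → Cl) (Y : ℕ), T₀ ≤ Y →
      ∑ p ∈ PP Y, G (Fin.cons (cls p) d) ≤ (PP Y).card * red κ G d := by
    intro d Y hY
    have h1 : ∑ p ∈ PP Y, G (Fin.cons (cls p) d) =
        ∑ c : Cl, (((PP Y).filter (fun p => cls p = c)).card : ℝ) * G (Fin.cons c d) := by
      rw [← Finset.sum_fiberwise (PP Y) cls]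
      refine Finset.sum_congr rfl fun c _ => ?_
      rw [Finset.sum_congr rfl (g := fun _ => G (Fin.cons c d)), sum_const, nsmul_eq_mul]
      intro p hp
      rw [(mem_filter.1 hp).2]
    rw [h1, red, Finset.mul_sum]
    refine Finset.sum_le_sum fun c _ => ?_
    calc (((PP Y).filter (fun p => cls p = c)).card : ℝ) * G (Fin.cons c d)
        ≤ (κ c * (PP Y).card) * G (Fin.cons c d) :=
          mul_le_mul_of_nonneg_right (hT₀ Y hY c) (hG _)
      _ = (PP Y).card * (κ c * G (Fin.cons c d)) := by ring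
  have hκ0 : ∀ d : Fin k → Cl, ∀ Y : ℕ, 0 ≤ ((PP Y).card : ℝ) * red κ G d ∨ (PP Y).card = 0 := by
    intro d Y
    rcases Nat.eq_zero_or_pos (PP Y).card with h | h
    · exact Or.inr h
    · left
      -- use a large `X`
      have h1 := key d (T₀ + Y) (by omega)
      have h2 : 0 ≤ ∑ p ∈ PP (T₀ + Y), G (Fin.cons (cls p) d) := Finset.sum_nonneg fun _ _ => hG _
      have h3 : 0 < (PP (T₀ + Y)).card := by
        refine lt_of_lt_of_le h (card_le_card fun p hp => ?_)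
        rw [mem_PP] at hp ⊢
        exact ⟨hp.1, by omega⟩
      have h4 : 0 ≤ red κ G d := by
        have h5 : (0 : ℝ) < (PP (T₀ + Y)).card := by exact_mod_cast h3
        exact nonneg_of_mul_nonneg_right (h2.trans h1) h5
      positivity
  refine ⟨B * (T₀ + 1), by positivity, fun d Y => ?_⟩
  by_cases hY : T₀ ≤ Y
  · have h2 : 0 ≤ B * ((T₀ : ℝ) + 1) := by positivity
    linarith [key d Y hY]
  · have h1 : ∑ p ∈ PP Y, G (Fin.cons (cls p) d) ≤ B * (T₀ + 1) := by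
      calc ∑ p ∈ PP Y, G (Fin.cons (cls p) d) ≤ ∑ _p ∈ PP Y, B := Finset.sum_le_sum fun p _ => hBd _
        _ = (PP Y).card * B := by rw [sum_const, nsmul_eq_mul]
        _ ≤ (T₀ + 1) * B := by
            apply mul_le_mul_of_nonneg_right _ hB0
            have h3 : (PP Y).card ≤ Y + 1 := by
              rw [PP]
              exact (card_filter_le _ _).trans (by rw [card_range])
            have h4 : (PP Y).card ≤ T₀ + 1 := by omega
            exact_mod_cast h4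
        _ = B * (T₀ + 1) := mul_comm _ _
    rcases hκ0 d Y with h2 | h2
    · linarith
    · have h3 : PP Y = ∅ := Finset.card_eq_zero.1 h2
      rw [h3]
      simp only [sum_empty, card_empty, Nat.cast_zero, zero_mul, zero_add]
      positivity

theorem comp_cons {k : ℕ} (cls : ℕ → Cl) (p : ℕ) (l : Fin k → ℕ) :
    (fun i => cls ((Fin.cons p l : Fin (k + 1) → ℕ) i)) =
      (Fin.cons (cls p) (fun i => cls (l i)) : Fin (k + 1) → Cl) := by
  funext i
  refine Fin.cases ?_ (fun j => ?_) i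
  · rfl
  · rfl

theorem reduce_sum (cls : ℕ → Cl) (κ : Cl → ℝ) (hκ : Dist cls κ) {k : ℕ}
    (G : (Fin (k + 1) → Cl) → ℝ) (hG : ∀ d, 0 ≤ G d) : ∃ K : ℝ, 0 ≤ K ∧ ∀ X : ℕ,
      ∑ l ∈ LL (k + 1) X, G (fun i => cls (l i)) ≤
        ∑ p ∈ PP X, ∑ l ∈ LL k (X / p), red κ G (fun i => cls (l i)) + K * NN k X := by
  obtain ⟨K, hK0, hK⟩ := inner cls κ hκ G hG
  refine ⟨K, hK0, fun X => ?_⟩
  rw [rec2]
  have h1 : ∑ l ∈ LL k X, ∑ p ∈ PP (X / ∏ i, l i),
      G (fun i => cls ((Fin.cons p l : Fin (k + 1) → ℕ) i)) ≤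
      ∑ l ∈ LL k X, (∑ _p ∈ PP (X / ∏ i, l i), red κ G (fun i => cls (l i)) + K) := by
    refine Finset.sum_le_sum fun l _ => ?_
    simp only [comp_cons]
    rw [sum_const, nsmul_eq_mul]
    exact hK _ _
  refine h1.trans (le_of_eq ?_)
  rw [Finset.sum_add_distrib, sum_const, nsmul_eq_mul, mul_comm K, NN]
  congr 1
  have h2 := rec2 (k := k) (X := X) (fun f => red κ G (fun i => cls (Fin.tail f i)))
  have h3 := rec1 (k := k) (X := X) (fun f => red κ G (fun i => cls (Fin.tail f i)))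
  simp only [Fin.tail_cons] at h2 h3
  rw [← h2, h3]

theorem red_nonneg {κ : Cl → ℝ} (hκ0 : ∀ c, 0 ≤ κ c) {k : ℕ} (G : (Fin (k + 1) → Cl) → ℝ)
    (hG : ∀ d, 0 ≤ G d) (d : Fin k → Cl) : 0 ≤ red κ G d :=
  Finset.sum_nonneg fun c _ => mul_nonneg (hκ0 c) (hG _)

theorem mu_nonneg {κ : Cl → ℝ} (hκ0 : ∀ c, 0 ≤ κ c) {k : ℕ} (G : (Fin k → Cl) → ℝ)
    (hG : ∀ d, 0 ≤ G d) : 0 ≤ mu κ G :=
  Finset.sum_nonneg fun d _ => mul_nonneg (Finset.prod_nonneg fun i _ => hκ0 _) (hG _)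

theorem equi (cls : ℕ → Cl) (κ : Cl → ℝ) (hκ0 : ∀ c, 0 ≤ κ c) (hκ : Dist cls κ) (k : ℕ) :
    ∀ G : (Fin (k + 1) → Cl) → ℝ, (∀ d, 0 ≤ G d) → ∀ ε : ℝ, 0 < ε → ∃ X₀ : ℕ, ∀ X : ℕ, X₀ ≤ X →
      ∑ l ∈ LL (k + 1) X, G (fun i => cls (l i)) ≤ (mu κ G + ε) * NN (k + 1) X := by
  induction k with
  | zero =>
    intro G hG ε hε
    obtain ⟨K, hK0, hK⟩ := reduce_sum cls κ hκ G hG
    have hlim : Tendsto (fun N : ℕ => ε * (Nat.primeCounting N : ℝ)) atTop atTop :=
      (tendsto_natCast_atTop_atTop.comp Nat.tendsto_primeCounting).const_mul_atTop hε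
    obtain ⟨X₀, hX₀⟩ := eventually_atTop.mp (hlim.eventually_ge_atTop K)
    refine ⟨X₀, fun X hX => (hK X).trans ?_⟩
    have h0 : ∀ Y : ℕ, LL 0 Y ⊆ {default} := by
      intro Y l _
      rw [mem_singleton]
      exact Subsingleton.elim _ _
    have h1 : ∑ p ∈ PP X, ∑ l ∈ LL 0 (X / p), red κ G (fun i => cls (l i)) ≤
        (PP X).card * mu κ G := by
      rw [← nsmul_eq_mul, ← sum_const]
      refine Finset.sum_le_sum fun p _ => ?_
      have h2 : ∑ l ∈ LL 0 (X / p), red κ G (fun i => cls (l i)) ≤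
          ∑ l ∈ ({default} : Finset (Fin 0 → ℕ)), red κ G (fun i => cls (l i)) :=
        Finset.sum_le_sum_of_subset_of_nonneg (h0 _) fun _ _ _ => red_nonneg hκ0 G hG _
      refine h2.trans (le_of_eq ?_)
      rw [sum_singleton, mu_succ, mu, Fintype.sum_unique]
      simp only [univ_eq_empty, prod_empty, one_mul]
      congr 1
      exact Subsingleton.elim _ _
    have h2 : K * (NN 0 X : ℝ) ≤ K := by
      have h3 : (NN 0 X : ℝ) ≤ 1 := by
        have := card_le_card (h0 X)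
        rw [card_singleton] at this
        exact_mod_cast this
      calc K * (NN 0 X : ℝ) ≤ K * 1 := mul_le_mul_of_nonneg_left h3 hK0
        _ = K := mul_one K
    have h3 := hX₀ X hX
    rw [← card_PP] at h3
    have h4 : (NN (0 + 1) X : ℝ) = (PP X).card := NN_one X
    rw [h4]
    linarith
  | succ k ih =>
    intro G hG ε hε
    obtain ⟨K, hK0, hK⟩ := reduce_sum cls κ hκ G hG
    have hr0 := red_nonneg hκ0 G hG
    obtain ⟨Y, hY⟩ := ih (red κ G) hr0 (ε / 2) (by positivity)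
    set B : ℝ := ∑ d, red κ G d with hB
    have hB0 : 0 ≤ B := Finset.sum_nonneg fun d _ => hr0 d
    have hBd : ∀ d, red κ G d ≤ B := fun d => Finset.single_le_sum (fun d _ => hr0 d) (mem_univ d)
    have hm0 : 0 ≤ mu κ (red κ G) := mu_nonneg hκ0 _ hr0
    obtain ⟨X₁, hX₁⟩ := (growth k).pi_le
    obtain ⟨X₂, hX₂⟩ := growth_step (growth k) ((B * NN (k + 1) Y + K) * (2 / ε))
    refine ⟨X₁ + X₂, fun X hX => (hK X).trans ?_⟩
    have h1 : ∀ p ∈ PP X, ∑ l ∈ LL (k + 1) (X / p), red κ G (fun i => cls (l i)) ≤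
        (mu κ (red κ G) + ε / 2) * NN (k + 1) (X / p) + B * NN (k + 1) Y := by
      intro p _
      by_cases hp : Y ≤ X / p
      · have h2 : (0 : ℝ) ≤ B * NN (k + 1) Y := by positivity
        linarith [hY _ hp]
      · have h2 : ∑ l ∈ LL (k + 1) (X / p), red κ G (fun i => cls (l i)) ≤
            B * NN (k + 1) (X / p) := by
          calc _ ≤ ∑ _l ∈ LL (k + 1) (X / p), B := Finset.sum_le_sum fun l _ => hBd _
            _ = _ := by rw [sum_const, nsmul_eq_mul, NN, mul_comm]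
        have h3 : B * (NN (k + 1) (X / p) : ℝ) ≤ B * NN (k + 1) Y :=
          mul_le_mul_of_nonneg_left (by exact_mod_cast NN_mono (by omega)) hB0
        have h4 : 0 ≤ (mu κ (red κ G) + ε / 2) * (NN (k + 1) (X / p) : ℝ) := by positivity
        linarith
    have h2 := Finset.sum_le_sum h1
    rw [Finset.sum_add_distrib, ← Finset.mul_sum, ← NN_succ, sum_const, nsmul_eq_mul, ← NN_one]
      at h2
    have h3 : (NN 1 X : ℝ) ≤ NN (k + 1) X := by exact_mod_cast hX₁ X (by omega)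
    have h4 : (NN 1 X : ℝ) * (B * NN (k + 1) Y) ≤ NN (k + 1) X * (B * NN (k + 1) Y) :=
      mul_le_mul_of_nonneg_right h3 (by positivity)
    have h5 := hX₂ X (by omega)
    have h6 : (B * NN (k + 1) Y + K) * NN (k + 1) X ≤ ε / 2 * NN (k + 1 + 1) X := by
      have h7 := mul_le_mul_of_nonneg_left h5 (by positivity : 0 ≤ ε / 2)
      calc (B * NN (k + 1) Y + K) * NN (k + 1) X
          = ε / 2 * ((B * NN (k + 1) Y + K) * (2 / ε) * NN (k + 1) X) := by field_simp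
        _ ≤ _ := h7
    rw [mu_succ κ G]
    nlinarith

end

end Pool.Agent.TH66.SG
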