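import Mathlib
import Pool.Agent.TH66.SG.Tup2

/-!
# Almost all tuples of primes fall into given sets of residue classes modulo one of many primes
-/

set_option autoImplicit false

namespace Pool.Agent.TH66.SG

open Finset Filter Topology

open Classical in
/-- the number of reduced tuples of classes avoiding all sets -/
theorem card_avoid {n : ℕ} (F : Finset ℕ) (hF : ∀ r ∈ F, r.Prime) (Q : ℕ) (hQ : Q = ∏ r ∈ F, r)
    [NeZero Q] (S : ∀ w : ℕ, Set (Fin n → ZMod w)) (hS : ∀ r ∈ F, S r ⊆ {x | ∀ i, x i ≠ 0}) :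
    ((univ : Finset (Fin n → ZMod Q)).filter (fun d => (∀ i, IsUnit (d i)) ∧
      ∀ w ∈ F, (fun i => ((d i).val : ZMod w)) ∉ S w)).card ≤
      ∏ w ∈ F, ((w - 1) ^ n - (S w).ncard) := by
  have hne : ∀ r : F, NeZero (r : ℕ) := fun r => ⟨(hF r r.2).ne_zero⟩
  set T : ∀ r : F, Finset (Fin n → ZMod (r : ℕ)) := fun r =>
    (Fintype.piFinset fun _ : Fin n => (univ.erase (0 : ZMod (r : ℕ)))).filter (fun x => x ∉ S r)
    with hT
  have h1 : (Fintype.piFinset T).card = ∏ w ∈ F, ((w - 1) ^ n - (S w).ncard) := by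
    rw [Fintype.card_piFinset, ← Finset.prod_coe_sort F (fun w => (w - 1) ^ n - (S w).ncard)]
    refine prod_congr rfl fun r _ => ?_
    have h2 : ((Fintype.piFinset fun _ : Fin n => (univ.erase (0 : ZMod (r : ℕ)))).filter
        (fun x => x ∈ S r)).card = (S r).ncard := by
      rw [← Set.ncard_coe_finset]
      congr 1
      ext x
      rw [mem_coe, mem_filter, Fintype.mem_piFinset]
      constructor
      · exact fun h => h.2
      · intro h
        exact ⟨fun i => mem_erase.2 ⟨hS r r.2 h i, mem_univ _⟩, h⟩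
    have h3 := Finset.card_filter_add_card_filter_not (s := Fintype.piFinset fun _ : Fin n =>
      (univ.erase (0 : ZMod (r : ℕ)))) (fun x => x ∈ S r)
    have h4 : (Fintype.piFinset fun _ : Fin n => (univ.erase (0 : ZMod (r : ℕ)))).card =
        ((r : ℕ) - 1) ^ n := by
      rw [Fintype.card_piFinset, prod_const, card_erase_of_mem (mem_univ _), card_univ, ZMod.card,
        card_univ, Fintype.card_fin]
    rw [h2, h4] at h3
    have h5 : (T r).card = ((Fintype.piFinset fun _ : Fin n =>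
        (univ.erase (0 : ZMod (r : ℕ)))).filter (fun x => ¬ x ∈ S r)).card := rfl
    rw [h5]
    omega
  rw [← h1]
  apply card_le_card_of_injOn
    (fun (d : Fin n → ZMod Q) (r : F) (i : Fin n) => (((d i).val : ℕ) : ZMod (r : ℕ)))
  · intro d hd
    rw [mem_coe, mem_filter] at hd
    rw [mem_coe, Fintype.mem_piFinset]
    intro r
    rw [hT, mem_filter, Fintype.mem_piFinset]
    refine ⟨fun i => mem_erase.2 ⟨?_, mem_univ _⟩, hd.2.2 r r.2⟩
    intro h0
    rw [ZMod.natCast_eq_zero_iff] at h0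
    have h2 : Nat.Coprime (d i).val Q := by
      have := hd.2.1 i
      rw [← ZMod.natCast_zmod_val (d i)] at this
      exact (ZMod.isUnit_iff_coprime _ _).1 this
    have h3 : (r : ℕ) ∣ Q := by
      rw [hQ]
      exact Finset.dvd_prod_of_mem _ r.2
    have h4 := Nat.dvd_gcd h0 h3
    rw [h2] at h4
    exact (hF r r.2).one_lt.ne' (Nat.dvd_one.1 h4)
  · intro d _ d' _ hdd
    funext i
    have h2 : ∀ r ∈ F, (r : ℤ) ∣ ((d i).val : ℤ) - (d' i).val := by
      intro r hr
      have h3 := congrFun (congrFun hdd ⟨r, hr⟩) i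
      simp only at h3
      rw [← ZMod.intCast_zmod_eq_zero_iff_dvd]
      push_cast
      rw [sub_eq_zero]
      exact h3
    have h4 : (∏ r ∈ F, r) ∣ (((d i).val : ℤ) - (d' i).val).natAbs := by
      apply Finset.prod_primes_dvd
      · intro r hr; exact (hF r hr).prime
      · intro r hr; exact Int.natCast_dvd.mp (h2 r hr)
    rw [← hQ] at h4
    have h5 : (((d i).val : ℤ) - (d' i).val).natAbs < Q := by
      have h6 := ZMod.val_lt (d i)
      have h7 := ZMod.val_lt (d' i)
      omega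
    have h6 := Nat.eq_zero_of_dvd_of_lt h4 h5
    apply ZMod.val_injective Q
    omega

theorem exp_bound (n : ℕ) (F : Finset ℕ) (c : ℝ) (S : ℕ → ℕ) (hF : ∀ w ∈ F, 3 ≤ w)
    (hS : ∀ w ∈ F, c / w * ((w : ℝ) - 1) ^ n ≤ S w) (hS' : ∀ w ∈ F, S w ≤ (w - 1) ^ n) :
    ((∏ w ∈ F, ((w - 1) ^ n - S w) : ℕ) : ℝ) ≤
      Real.exp (-(c * ∑ w ∈ F, (1 : ℝ) / w)) * ((∏ w ∈ F, (w - 1) ^ n : ℕ) : ℝ) := by
  rw [Finset.mul_sum, ← sum_neg_distrib, Real.exp_sum]
  push_cast
  rw [← prod_mul_distrib]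
  apply Finset.prod_le_prod
  · intro w _; exact Nat.cast_nonneg _
  · intro w hw
    have h3 := hF w hw
    have hw1 : ((w - 1 : ℕ) : ℝ) = (w : ℝ) - 1 := by
      rw [Nat.cast_sub (by omega)]
      norm_num
    rw [Nat.cast_sub (hS' w hw)]
    push_cast
    rw [hw1]
    have hw0 : (3 : ℝ) ≤ w := by exact_mod_cast h3
    have h1 : 1 - c * (1 / (w : ℝ)) ≤ Real.exp (-(c * (1 / (w : ℝ)))) := by
      have := Real.add_one_le_exp (-(c * (1 / (w : ℝ))))
      linarith
    have h2 := hS w hw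
    have h4 : 0 ≤ ((w : ℝ) - 1) ^ n := pow_nonneg (by linarith) n
    calc ((w : ℝ) - 1) ^ n - S w ≤ ((w : ℝ) - 1) ^ n - c / w * ((w : ℝ) - 1) ^ n := by linarith
      _ = (1 - c * (1 / (w : ℝ))) * ((w : ℝ) - 1) ^ n := by ring
      _ ≤ _ := mul_le_mul_of_nonneg_right h1 h4

open Classical in
theorem tuple_avoid (k : ℕ) (R : Set ℕ) (hR : ∀ w ∈ R, w.Prime ∧ w ≠ 2)
    (hdiv : ¬ Summable (fun r : ℕ => R.indicator (fun n : ℕ => (1 : ℝ) / n) r))
    (S : ∀ w : ℕ, Set (Fin (k + 1) → ZMod w)) (c : ℝ) (hc : 0 < c)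
    (hS : ∀ w ∈ R, S w ⊆ {x | ∀ i, x i ≠ 0})
    (hS' : ∀ w ∈ R, c / w * ((w : ℝ) - 1) ^ (k + 1) ≤ (S w).ncard) (ε : ℝ) (hε : 0 < ε) :
    ∃ F : Finset ℕ, (∀ w ∈ F, w ∈ R) ∧ ∃ X₀ : ℕ, ∀ X : ℕ, X₀ ≤ X →
      (((LL (k + 1) X).filter (fun l => ∀ w ∈ F, (fun i => (l i : ZMod w)) ∉ S w)).card : ℝ) ≤
        ε * NN (k + 1) X := by
  -- the finite set
  obtain ⟨F, hFR, hF⟩ : ∃ F : Finset ℕ, (∀ r ∈ F, r ∈ R) ∧
      Real.exp (-(c * ∑ r ∈ F, (1 : ℝ) / r)) ≤ ε / (4 * 24 ^ (k + 1)) := by
    have h1 : ∃ F : Finset ℕ, (-Real.log (ε / (4 * 24 ^ (k + 1)))) / c ≤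
        ∑ r ∈ F, R.indicator (fun n : ℕ => (1 : ℝ) / n) r := by
      by_contra hcon
      push Not at hcon
      apply hdiv
      refine summable_of_sum_le (fun r => ?_) (fun F => (hcon F).le)
      exact Set.indicator_nonneg (fun n _ => by positivity) r
    obtain ⟨F, hF⟩ := h1
    refine ⟨F.filter (· ∈ R), fun r hr => (mem_filter.mp hr).2, ?_⟩
    have h2 : ∑ r ∈ F.filter (· ∈ R), (1 : ℝ) / r = ∑ r ∈ F, R.indicator (fun n : ℕ => (1 : ℝ) / n) r := by
      rw [sum_filter]
      apply sum_congr rfl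
      intro r _
      simp only [Set.indicator_apply]
    rw [h2]
    rw [div_le_iff₀ hc] at hF
    calc Real.exp (-(c * ∑ r ∈ F, R.indicator (fun n : ℕ => (1 : ℝ) / n) r))
        ≤ Real.exp (Real.log (ε / (4 * 24 ^ (k + 1)))) := Real.exp_le_exp.mpr (by linarith)
      _ = ε / (4 * 24 ^ (k + 1)) := Real.exp_log (by positivity)
  have hFp : ∀ r ∈ F, r.Prime := fun r hr => (hR r (hFR r hr)).1
  have hF3 : ∀ r ∈ F, 3 ≤ r := by
    intro r hr
    have h1 := (hR r (hFR r hr)).1.two_le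
    have h2 := (hR r (hFR r hr)).2
    omega
  obtain ⟨Q, hQ⟩ : ∃ Q, Q = ∏ r ∈ F, r := ⟨_, rfl⟩
  have hQpos : 0 < Q := by
    rw [hQ]
    exact Finset.prod_pos (fun r hr => (hFp r hr).pos)
  have : NeZero Q := ⟨hQpos.ne'⟩
  have hφ : Nat.totient Q = ∏ r ∈ F, (r - 1) := by
    rw [hQ]
    exact Pool.Agent.TH888.B1.totient_prod_primes F hFp
  have hφpos : (0 : ℝ) < Nat.totient Q := by exact_mod_cast Nat.totient_pos.mpr hQpos
  -- the weight of the classes which are not reduced
  obtain ⟨δ, hδ, hδ2⟩ : ∃ δ : ℝ, 0 < δ ∧ (24 + Q * δ) ^ (k + 1) - 24 ^ (k + 1) ≤ ε / 4 := by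
    have hcont : Tendsto (fun δ : ℝ => (24 + Q * δ) ^ (k + 1) - 24 ^ (k + 1)) (𝓝[>] 0) (𝓝 0) := by
      have h1 : Tendsto (fun δ : ℝ => (24 + Q * δ) ^ (k + 1) - 24 ^ (k + 1)) (𝓝 0)
          (𝓝 ((24 + Q * (0 : ℝ)) ^ (k + 1) - 24 ^ (k + 1))) := by
        apply Continuous.tendsto
        fun_prop
      rw [mul_zero, add_zero, sub_self] at h1
      exact h1.mono_left nhdsWithin_le_nhds
    have h2 := (hcont.eventually (ge_mem_nhds (by positivity : (0 : ℝ) < ε / 4))).and
      self_mem_nhdsWithin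
    obtain ⟨δ, h3, h4⟩ := h2.exists
    exact ⟨δ, h4, h3⟩
  set cls : ℕ → ZMod Q := fun n => (n : ZMod Q) with hcls
  set κ₁ : ZMod Q → ℝ := fun c => if IsUnit c then 24 / Nat.totient Q else 0 with hκ₁
  set κ : ZMod Q → ℝ := fun c => if IsUnit c then 24 / Nat.totient Q else δ with hκ
  have hκ1 : ∀ c, κ₁ c ≤ κ c := by
    intro c
    simp only [hκ₁, hκ]
    split_ifs
    · exact le_rfl
    · exact hδ.le
  have hκ₁0 : ∀ c, 0 ≤ κ₁ c := by
    intro c
    simp only [hκ₁]
    split_ifs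
    · positivity
    · exact le_rfl
  have hκ0 : ∀ c, 0 ≤ κ c := fun c => (hκ₁0 c).trans (hκ1 c)
  -- the distribution of the primes
  have hDist : Dist cls κ := by
    obtain ⟨N₁, hN₁⟩ := Pool.Agent.TH888.B1.primes_in_classes
    obtain ⟨N₂, hN₂⟩ := Pool.Agent.TH888.B1.pi_lower
    have hlim : Tendsto (fun N : ℕ => δ * (Nat.primeCounting N : ℝ)) atTop atTop :=
      (tendsto_natCast_atTop_atTop.comp Nat.tendsto_primeCounting).const_mul_atTop hδ
    obtain ⟨N₃, hN₃⟩ := eventually_atTop.mp (hlim.eventually_ge_atTop (F.card : ℝ))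
    refine ⟨N₁ * Q + Q ^ 2 + N₂ + N₃ + 4, fun X hX c => ?_⟩
    simp only [hκ]
    by_cases hcu : IsUnit c
    · rw [if_pos hcu]
      have h1 := hN₁ Q {c.val} hQpos X (by omega) (by omega) (by omega)
      have h2 := hN₂ X (by omega)
      rw [← card_PP] at h2
      have h3 : (PP X).filter (fun p => cls p = c) ⊆
          (range (X + 1)).filter (fun p : ℕ => p.Prime ∧ p % Q ∈ ({c.val} : Finset ℕ)) := by
        intro p hp
        rw [mem_filter, mem_PP] at hp
        rw [mem_filter, mem_range, mem_singleton]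
        refine ⟨by omega, hp.1.1, ?_⟩
        rw [← hp.2, hcls]
        simp only
        rw [ZMod.val_natCast]
      have h4 : (((PP X).filter (fun p => cls p = c)).card : ℝ) ≤
          12 * ((1 : ℝ) / Nat.totient Q) * (X / Real.log X) := by
        refine le_trans (by exact_mod_cast card_le_card h3) (h1.trans (le_of_eq ?_))
        rw [card_singleton, Nat.cast_one]
      calc (((PP X).filter (fun p => cls p = c)).card : ℝ)
          ≤ 12 * ((1 : ℝ) / Nat.totient Q) * (X / Real.log X) := h4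
        _ ≤ 12 * ((1 : ℝ) / Nat.totient Q) * (2 * (PP X).card) :=
            mul_le_mul_of_nonneg_left h2 (by positivity)
        _ = 24 / Nat.totient Q * (PP X).card := by ring
    · rw [if_neg hcu]
      have h3 : (PP X).filter (fun p => cls p = c) ⊆ F := by
        intro p hp
        rw [mem_filter, mem_PP] at hp
        have h4 : ¬ Nat.Coprime p Q := by
          intro h
          apply hcu
          rw [← hp.2]
          exact (ZMod.isUnit_iff_coprime p Q).2 h
        have h5 : p ∣ Q := by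
          by_contra h6
          exact h4 ((Nat.Prime.coprime_iff_not_dvd hp.1.1).2 h6)
        rw [hQ, Prime.dvd_finsetProd_iff hp.1.1.prime] at h5
        obtain ⟨r, hr, hpr⟩ := h5
        rw [(Nat.prime_dvd_prime_iff_eq hp.1.1 (hFp r hr)).1 hpr]
        exact hr
      have h4 := hN₃ X (by omega)
      rw [← card_PP] at h4
      exact le_trans (by exact_mod_cast card_le_card h3) h4
  -- the function
  set G : (Fin (k + 1) → ZMod Q) → ℝ := fun d =>
    if ∀ w ∈ F, (fun i => ((d i).val : ZMod w)) ∉ S w then 1 else 0 with hG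
  have hG0 : ∀ d, 0 ≤ G d := by
    intro d
    simp only [hG]
    split_ifs <;> norm_num
  have hG1 : ∀ d, G d ≤ 1 := by
    intro d
    simp only [hG]
    split_ifs <;> norm_num
  have hmu : mu κ G ≤ ε / 2 := by
    have h1 : mu κ G ≤ ∑ d : Fin (k + 1) → ZMod Q, (∏ i, κ₁ (d i)) * G d +
        ∑ d : Fin (k + 1) → ZMod Q, (∏ i, κ (d i) - ∏ i, κ₁ (d i)) := by
      rw [← Finset.sum_add_distrib, mu]
      refine Finset.sum_le_sum fun d _ => ?_
      have h2 : ∏ i, κ₁ (d i) ≤ ∏ i, κ (d i) :=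
        Finset.prod_le_prod (fun i _ => hκ₁0 _) (fun i _ => hκ1 _)
      nlinarith [hG0 d, hG1 d]
    have hcardu : (((univ : Finset (ZMod Q)).filter (fun c => IsUnit c)).card : ℝ) =
        Nat.totient Q := by
      have h2 : ((univ : Finset (ZMod Q)).filter (fun c => IsUnit c)).card =
          Fintype.card (ZMod Q)ˣ := by
        rw [← card_univ, ← card_image_of_injective (univ : Finset (ZMod Q)ˣ)
          (f := fun u : (ZMod Q)ˣ => (u : ZMod Q)) Units.val_injective]
        congr 1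
        ext x
        rw [mem_filter, mem_image]
        constructor
        · rintro ⟨_, u, hu⟩
          exact ⟨u, mem_univ _, hu⟩
        · rintro ⟨u, _, hu⟩
          exact ⟨mem_univ _, u, hu⟩
      rw [h2, ZMod.card_units_eq_totient]
    have hs1 : ∑ c, κ₁ c = 24 := by
      simp only [hκ₁]
      rw [← Finset.sum_filter, sum_const, nsmul_eq_mul, hcardu]
      field_simp
    have hs2 : ∑ c, κ c ≤ 24 + Q * δ := by
      have h2 : ∀ c, κ c ≤ κ₁ c + δ := by
        intro c
        simp only [hκ₁, hκ]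
        split_ifs <;> linarith
      calc ∑ c, κ c ≤ ∑ c, (κ₁ c + δ) := Finset.sum_le_sum fun c _ => h2 c
        _ = 24 + Q * δ := by
          rw [Finset.sum_add_distrib, hs1, sum_const, nsmul_eq_mul, card_univ, ZMod.card]
    have h2 : ∑ d : Fin (k + 1) → ZMod Q, (∏ i, κ (d i) - ∏ i, κ₁ (d i)) ≤ ε / 4 := by
      rw [Finset.sum_sub_distrib, ← Fintype.sum_pow, ← Fintype.sum_pow, hs1]
      refine le_trans ?_ hδ2
      have h3 : (∑ c, κ c) ^ (k + 1) ≤ (24 + Q * δ) ^ (k + 1) :=
        pow_le_pow_left₀ (Finset.sum_nonneg fun c _ => hκ0 c) hs2 _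
      linarith
    have h3 : ∑ d : Fin (k + 1) → ZMod Q, (∏ i, κ₁ (d i)) * G d ≤ ε / 4 := by
      have h4 : ∑ d : Fin (k + 1) → ZMod Q, (∏ i, κ₁ (d i)) * G d =
          (24 / Nat.totient Q) ^ (k + 1) *
          (((univ : Finset (Fin (k + 1) → ZMod Q)).filter (fun d => (∀ i, IsUnit (d i)) ∧
            ∀ w ∈ F, (fun i => ((d i).val : ZMod w)) ∉ S w)).card : ℝ) := by
        rw [mul_comm ((24 / (Nat.totient Q : ℝ)) ^ (k + 1)), ← nsmul_eq_mul, ← sum_const,
          Finset.sum_filter]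
        refine Finset.sum_congr rfl fun d _ => ?_
        by_cases hu : ∀ i, IsUnit (d i)
        · have h5 : ∏ i, κ₁ (d i) = (24 / (Nat.totient Q : ℝ)) ^ (k + 1) := by
            rw [Finset.prod_congr rfl (g := fun _ => 24 / (Nat.totient Q : ℝ)), prod_const,
              card_univ, Fintype.card_fin]
            intro i _
            simp only [hκ₁]
            rw [if_pos (hu i)]
          rw [h5]
          simp only [hG]
          by_cases hw : ∀ w ∈ F, (fun i => ((d i).val : ZMod w)) ∉ S w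
          · rw [if_pos hw, if_pos ⟨hu, hw⟩, mul_one]
          · rw [if_neg hw, if_neg (fun h => hw h.2), mul_zero]
        · rw [if_neg (fun h => hu h.1)]
          push Not at hu
          obtain ⟨i, hi⟩ := hu
          rw [Finset.prod_eq_zero (mem_univ i), zero_mul]
          simp only [hκ₁]
          rw [if_neg hi]
      have h5 := card_avoid F hFp Q hQ S (fun r hr => hS r (hFR r hr))
      have h6 : ∀ w ∈ F, (S w).ncard ≤ (w - 1) ^ (k + 1) := by
        intro w hw
        have hne : NeZero w := ⟨(hFp w hw).ne_zero⟩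
        have h7 : (S w).ncard ≤ ((Fintype.piFinset fun _ : Fin (k + 1) =>
            (univ.erase (0 : ZMod w)) : Finset (Fin (k + 1) → ZMod w)) :
              Set (Fin (k + 1) → ZMod w)).ncard := by
          refine Set.ncard_le_ncard ?_ (Finset.finite_toSet _)
          intro x hx
          rw [mem_coe, Fintype.mem_piFinset]
          exact fun i => mem_erase.2 ⟨hS w (hFR w hw) hx i, mem_univ _⟩
        rw [Set.ncard_coe_finset, Fintype.card_piFinset, prod_const,
          card_erase_of_mem (mem_univ _), card_univ, ZMod.card, card_univ, Fintype.card_fin] at h7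
        exact h7
      have h7 := exp_bound (k + 1) F c (fun w => (S w).ncard) hF3
        (fun w hw => hS' w (hFR w hw)) h6
      have h8 : ((∏ w ∈ F, (w - 1) ^ (k + 1) : ℕ) : ℝ) = (Nat.totient Q : ℝ) ^ (k + 1) := by
        rw [hφ, ← Nat.cast_pow, Finset.prod_pow]
      rw [h8] at h7
      have h9 : (((univ : Finset (Fin (k + 1) → ZMod Q)).filter (fun d => (∀ i, IsUnit (d i)) ∧
            ∀ w ∈ F, (fun i => ((d i).val : ZMod w)) ∉ S w)).card : ℝ) ≤
          ε / (4 * 24 ^ (k + 1)) * (Nat.totient Q : ℝ) ^ (k + 1) := by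
        refine le_trans (by exact_mod_cast h5) (h7.trans ?_)
        exact mul_le_mul_of_nonneg_right hF (by positivity)
      rw [h4]
      calc _ ≤ (24 / (Nat.totient Q : ℝ)) ^ (k + 1) *
            (ε / (4 * 24 ^ (k + 1)) * (Nat.totient Q : ℝ) ^ (k + 1)) :=
            mul_le_mul_of_nonneg_left h9 (by positivity)
        _ = ε / 4 := by
            rw [div_pow]
            field_simp
    linarith
  obtain ⟨X₀, hX₀⟩ := equi cls κ hκ0 hDist k G hG0 (ε / 2) (by positivity)
  refine ⟨F, hFR, X₀, fun X hX => ?_⟩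
  have h1 := hX₀ X hX
  have h2 : (((LL (k + 1) X).filter (fun l => ∀ w ∈ F, (fun i => (l i : ZMod w)) ∉ S w)).card : ℝ) =
      ∑ l ∈ LL (k + 1) X, G (fun i => cls (l i)) := by
    rw [card_filter]
    push_cast
    refine Finset.sum_congr rfl fun l _ => ?_
    simp only [hG]
    have h3 : ∀ w ∈ F, (fun i => (((cls (l i)).val : ℕ) : ZMod w)) = fun i => (l i : ZMod w) := by
      intro w hw
      funext i
      simp only [hcls]
      rw [ZMod.val_natCast]
      have h4 : w ∣ Q := by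
        rw [hQ]
        exact Finset.dvd_prod_of_mem _ hw
      rw [ZMod.natCast_eq_natCast_iff]
      exact (Nat.mod_modEq (l i) Q).of_dvd h4
    have h4 : (∀ w ∈ F, (fun i => (l i : ZMod w)) ∉ S w) ↔
        ∀ w ∈ F, (fun i => (((cls (l i)).val : ℕ) : ZMod w)) ∉ S w := by
      constructor
      · intro h w hw
        rw [h3 w hw]
        exact h w hw
      · intro h w hw
        rw [← h3 w hw]
        exact h w hw
    by_cases h5 : ∀ w ∈ F, (fun i => (l i : ZMod w)) ∉ S w
    · rw [if_pos h5, if_pos (h4.1 h5)]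
    · rw [if_neg h5, if_neg (fun h => h5 (h4.2 h))]
  rw [h2]
  refine h1.trans (mul_le_mul_of_nonneg_right (by linarith) (Nat.cast_nonneg _))

end Pool.Agent.TH66.SG
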