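import Mathlib
import Pool.Agent.TH66.SG.Tup1

/-!
# From tuples of primes to integers with exactly `k` prime factors
-/

set_option autoImplicit false

namespace Pool.Agent.TH66.SG

open Finset Filter Topology

/-- the integers up to `X` with exactly `k` prime factors, counted with multiplicity -/
def AA (k X : ℕ) : Finset ℕ := (range (X + 1)).filter (fun N => N.primeFactorsList.length = k)

theorem mem_AA {k X N : ℕ} : N ∈ AA k X ↔ N ≤ X ∧ N.primeFactorsList.length = k := by
  rw [AA, mem_filter, mem_range, Nat.lt_succ_iff]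

/-- the tuple of the prime factors -/
def tup (k N : ℕ) : Fin k → ℕ := fun i => N.primeFactorsList.getD i 0

theorem ofFn_tup {k N : ℕ} (h : N.primeFactorsList.length = k) :
    List.ofFn (tup k N) = N.primeFactorsList := by
  subst h
  apply List.ext_getElem
  · simp
  · intro i h1 h2
    simp [tup, List.getElem?_eq_getElem h2]

theorem prod_tup {k N : ℕ} (hN : N ≠ 0) (h : N.primeFactorsList.length = k) :
    ∏ i, tup k N i = N := by
  rw [← List.prod_ofFn, ofFn_tup h, Nat.prod_primeFactorsList hN]

theorem tup_mem {k X N : ℕ} (hk : 1 ≤ k) (h : N ∈ AA k X) : tup k N ∈ LL k X := by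
  rw [mem_AA] at h
  have hN : N ≠ 0 := by
    rintro rfl
    simp at h
    omega
  rw [mem_LL, prod_tup hN h.2]
  refine ⟨fun i => ?_, h.1⟩
  have h1 : tup k N i ∈ List.ofFn (tup k N) := List.mem_ofFn.2 ⟨i, rfl⟩
  rw [ofFn_tup h.2] at h1
  exact Nat.prime_of_mem_primeFactorsList h1

open Classical in
theorem card_bad_le {k X : ℕ} (hk : 1 ≤ k) (Bad : ℕ → Prop) :
    ((AA k X).filter Bad).card ≤ ((LL k X).filter (fun l => Bad (∏ i, l i))).card := by
  have hne : ∀ N ∈ AA k X, N ≠ 0 := by
    rintro N h rfl
    rw [mem_AA] at h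
    simp at h
    omega
  apply card_le_card_of_injOn (tup k)
  · intro N hN
    rw [mem_coe, mem_filter] at hN
    rw [mem_coe, mem_filter]
    refine ⟨tup_mem hk hN.1, ?_⟩
    rw [prod_tup (hne N hN.1) (mem_AA.1 hN.1).2]
    exact hN.2
  · intro N hN N' hN' h
    rw [mem_coe, mem_filter] at hN hN'
    rw [← prod_tup (hne N hN.1) (mem_AA.1 hN.1).2, h, prod_tup (hne N' hN'.1) (mem_AA.1 hN'.1).2]

theorem NN_le (k X : ℕ) : NN k X ≤ k.factorial * (AA k X).card := by
  classical
  have himg : (LL k X).image (fun l => ∏ i, l i) ⊆ AA k X := by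
    intro N hN
    rw [mem_image] at hN
    obtain ⟨l, hl, rfl⟩ := hN
    rw [mem_LL] at hl
    rw [mem_AA]
    refine ⟨hl.2, ?_⟩
    have h1 : List.Perm (List.ofFn l) (∏ i, l i).primeFactorsList := by
      apply Nat.primeFactorsList_unique
      · rw [List.prod_ofFn]
      · intro p hp
        rw [List.mem_ofFn] at hp
        obtain ⟨i, rfl⟩ := hp
        exact hl.1 i
    rw [← h1.length_eq, List.length_ofFn]
  refine (Finset.card_le_mul_card_image (f := fun l : Fin k → ℕ => ∏ i, l i) (LL k X) k.factorial
    ?_).trans (Nat.mul_le_mul_left _ (card_le_card himg))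
  intro N hN
  have hlen := (mem_AA.1 (himg hN)).2
  rw [mem_image] at hN
  calc ((LL k X).filter (fun l => ∏ i, l i = N)).card
      ≤ (N.primeFactorsList.permutations.toFinset).card := by
        apply card_le_card_of_injOn (fun l => List.ofFn l)
        · intro l hl
          rw [mem_coe, mem_filter, mem_LL] at hl
          rw [mem_coe, List.mem_toFinset, List.mem_permutations]
          apply Nat.primeFactorsList_unique
          · rw [List.prod_ofFn]
            exact hl.2
          · intro p hp
            rw [List.mem_ofFn] at hp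
            obtain ⟨i, rfl⟩ := hp
            exact hl.1.1 i
        · intro l _ l' _ h
          exact List.ofFn_injective h
    _ ≤ N.primeFactorsList.permutations.length := List.toFinset_card_le _
    _ = k.factorial := by rw [List.length_permutations, hlen]

open Classical in
/-- from tuples to integers -/
theorem density_of_tuples {k : ℕ} (hk : 1 ≤ k) (Bad : ℕ → Prop)
    (h : ∀ ε : ℝ, 0 < ε → ∃ X₀ : ℕ, ∀ X : ℕ, X₀ ≤ X →
      (((LL k X).filter (fun l => Bad (∏ i, l i))).card : ℝ) ≤ ε * NN k X) :
    Tendsto (fun X : ℕ => (({N : ℕ | N ≤ X ∧ N.primeFactorsList.length = k ∧ Bad N} : Set ℕ).ncard : ℝ) /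
      (({N : ℕ | N ≤ X ∧ N.primeFactorsList.length = k} : Set ℕ).ncard : ℝ)) atTop (𝓝 0) := by
  have hden : ∀ X, ({N : ℕ | N ≤ X ∧ N.primeFactorsList.length = k} : Set ℕ).ncard =
      (AA k X).card := by
    intro X
    rw [← Set.ncard_coe_finset]
    congr 1
    ext N
    rw [mem_coe, mem_AA]
    rfl
  have hnum : ∀ X, ({N : ℕ | N ≤ X ∧ N.primeFactorsList.length = k ∧ Bad N} : Set ℕ).ncard =
      ((AA k X).filter Bad).card := by
    intro X
    rw [← Set.ncard_coe_finset]
    congr 1
    ext N
    rw [mem_coe, mem_filter, mem_AA, and_assoc]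
    rfl
  simp only [hden, hnum]
  rw [Metric.tendsto_atTop]
  intro ε hε
  obtain ⟨X₀, hX₀⟩ := h (ε / 2 / k.factorial) (by positivity)
  refine ⟨X₀, fun X hX => ?_⟩
  have h1 := hX₀ X hX
  have h2 := card_bad_le (k := k) (X := X) hk Bad
  have h3 := NN_le k X
  have hf : (0 : ℝ) < k.factorial := by exact_mod_cast k.factorial_pos
  have h4 : (((AA k X).filter Bad).card : ℝ) ≤ ε / 2 * (AA k X).card := by
    calc (((AA k X).filter Bad).card : ℝ)
        ≤ (((LL k X).filter (fun l => Bad (∏ i, l i))).card : ℝ) := by exact_mod_cast h2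
      _ ≤ ε / 2 / k.factorial * NN k X := h1
      _ ≤ ε / 2 / k.factorial * (k.factorial * (AA k X).card) :=
          mul_le_mul_of_nonneg_left (by exact_mod_cast h3) (by positivity)
      _ = ε / 2 * (AA k X).card := by field_simp
  rw [Real.dist_eq, sub_zero, abs_of_nonneg (by positivity)]
  rcases Nat.eq_zero_or_pos (AA k X).card with h0 | h0
  · rw [h0, Nat.cast_zero, div_zero]
    exact hε
  · have h5 : (0 : ℝ) < (AA k X).card := by exact_mod_cast h0
    rw [div_lt_iff₀ h5]
    nlinarith

end Pool.Agent.TH66.SG
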