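import Mathlib
import Pool.Agent.TH66.SG.Gal4
import Pool.Agent.TH66.SG.Key

/-!
# Every order which is not a prime power: dimensions `m₀ t` with `n ^ m₀` a square
-/

set_option autoImplicit false

namespace Pool.Agent.TH66.SG

open Finset

theorem exists_good (s M K₀ : ℕ) (hs : 3 ≤ s) (hM : Odd M) {k : ℕ} (p : Fin k → ℕ)
    (hp : ∀ i, (p i).Prime) (hinj : Function.Injective p) (x : Fin k → ℕ) :
    ∃ w, w ∈ Good s M K₀ p x := by
  by_contra hcon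
  push Not at hcon
  apply good_diverges s M K₀ hs hM p hp hinj x
  have h : (Good s M K₀ p x) = ∅ := Set.eq_empty_of_forall_notMem hcon
  rw [h]
  simp

/-- the exponents -/
def xx {k : ℕ} (i₁ i₂ : Fin k) (s φ₁ φ₂ Y : ℕ) (i : Fin k) : ℕ :=
  if i = i₁ then 2 ^ (s - 3 - φ₁) else if i = i₂ then 2 ^ (s - 3 - φ₂) * Y else 2 ^ (s - 2)

theorem value {k : ℕ} (i₁ i₂ : Fin k) (h12 : i₁ ≠ i₂) (φ₁ φ₂ Y : ℕ)
    (f : Fin k → ℕ) (f₁ f₂ : ℕ) (hf₁ : f i₁ = 2 ^ φ₁ * f₁) (hf₂ : f i₂ = 2 ^ φ₂ * f₂)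
    (hY : Odd Y) (ho₁ : Odd f₁) (ho₂ : Odd f₂) {w : ℕ} (q : Fin k → ZMod w) (g : ZMod w) (s : ℕ)
    (hs : s = φ₁ + φ₂ + 3)
    (hg : g ^ 2 ^ (s - 1) = -1) (hq : ∀ i, q i = g ^ (2 * xx i₁ i₂ s φ₁ φ₂ Y i)) :
    ∏ i, q i ^ f i =
      (-1) ^ ((f₁ + f₂ * Y) / 2 + ∑ i ∈ (univ.erase i₁).erase i₂, f i) := by
  have hmem : i₂ ∈ univ.erase i₁ := mem_erase.2 ⟨h12.symm, mem_univ _⟩
  rw [← Finset.mul_prod_erase univ _ (mem_univ i₁), ← Finset.mul_prod_erase _ _ hmem]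
  have h1 : q i₁ ^ f i₁ = g ^ (2 ^ (s - 2) * f₁) := by
    rw [hq, hf₁, xx, if_pos rfl, ← pow_mul]
    congr 1
    have : 2 ^ (s - 2) = 2 * 2 ^ (s - 3 - φ₁) * 2 ^ φ₁ := by
      rw [mul_assoc, ← pow_add, ← pow_succ']
      congr 1
      omega
    rw [this]
    ring
  have h2 : q i₂ ^ f i₂ = g ^ (2 ^ (s - 2) * (f₂ * Y)) := by
    rw [hq, hf₂, xx, if_neg h12.symm, if_pos rfl, ← pow_mul]
    congr 1
    have : 2 ^ (s - 2) = 2 * 2 ^ (s - 3 - φ₂) * 2 ^ φ₂ := by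
      rw [mul_assoc, ← pow_add, ← pow_succ']
      congr 1
      omega
    rw [this]
    ring
  have h3 : ∏ i ∈ (univ.erase i₁).erase i₂, q i ^ f i =
      (-1) ^ (∑ i ∈ (univ.erase i₁).erase i₂, f i) := by
    rw [← Finset.prod_pow_eq_pow_sum]
    refine Finset.prod_congr rfl fun i hi => ?_
    rw [mem_erase, mem_erase] at hi
    rw [hq, xx, if_neg hi.2.1, if_neg hi.1]
    congr 1
    rw [← hg]
    congr 1
    rw [← pow_succ']
    congr 1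
    omega
  rw [h1, h2, h3, ← mul_assoc, ← pow_add, ← mul_add, pow_add]
  congr 1
  obtain ⟨V, hV⟩ : 2 ∣ f₁ + f₂ * Y := (ho₁.add_odd (ho₂.mul hY)).two_dvd
  rw [hV, Nat.mul_div_cancel_left _ (by norm_num), ← hg, ← pow_mul, ← mul_assoc]
  congr 2
  rw [← pow_succ]
  congr 1
  omega

theorem order_exp {k : ℕ} (i₁ i₂ : Fin k) (φ₁ φ₂ Y : ℕ)
    (hY : Odd Y) {w : ℕ} (q : Fin k → ZMod w) (g : ZMod w) (s : ℕ)
    (hs : s = φ₁ + φ₂ + 3)
    (hg : g ^ 2 ^ (s - 1) = -1) (hq : ∀ i, q i = g ^ (2 * xx i₁ i₂ s φ₁ φ₂ Y i)) (i : Fin k) :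
    q i ^ (if i = i₁ then 2 ^ (φ₁ + 1) else if i = i₂ then 2 ^ (φ₂ + 1) else 1) = -1 := by
  rw [hq, xx, ← pow_mul]
  split_ifs with h1 h2
  · rw [← hg]
    congr 1
    rw [← pow_succ', ← pow_add]
    congr 1
    omega
  · have e : 2 * (2 ^ (s - 3 - φ₂) * Y) * 2 ^ (φ₂ + 1) = 2 ^ (s - 1) * Y := by
      have : 2 ^ (s - 1) = 2 * 2 ^ (s - 3 - φ₂) * 2 ^ (φ₂ + 1) := by
        rw [← pow_succ', ← pow_add]
        congr 1
        omega
      rw [this]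
      ring
    rw [e, pow_mul, hg, hY.neg_one_pow]
  · rw [mul_one, ← hg]
    congr 1
    rw [← pow_succ']
    congr 1
    omega

theorem every_order {N e m₀ : ℕ} (hN : 2 ≤ N) (hNp : ¬ IsPrimePow N) (he : 1 ≤ e) (hm₀ : 1 ≤ m₀)
    (hem : Even (e * m₀)) :
    ∃ t : ℕ, Odd t ∧ ∀ t' : ℕ, Odd t' → t ∣ t' → 3 ≤ m₀ * t' → ¬ NilSinger (N ^ e) (m₀ * t') := by
  classical
  have hN0 : N ≠ 0 := by omega
  -- the prime factors
  set k := N.primeFactors.card with hk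
  have hk2 : 2 ≤ k := by
    have h1 : k ≠ 1 := fun h => hNp (isPrimePow_iff_card_primeFactors_eq_one.2 h)
    have h2 : k ≠ 0 := by
      intro h
      rw [hk, Finset.card_eq_zero, Nat.primeFactors_eq_empty] at h
      omega
    omega
  set p : Fin k → ℕ := fun i => (N.primeFactors.equivFin.symm i : ℕ) with hpdef
  have hpmem : ∀ i, p i ∈ N.primeFactors := fun i => (N.primeFactors.equivFin.symm i).2
  have hp : ∀ i, (p i).Prime := fun i => Nat.prime_of_mem_primeFactors (hpmem i)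
  have hinj : Function.Injective p := by
    intro i j h
    exact N.primeFactors.equivFin.symm.injective (Subtype.ext h)
  have hsurj : ∀ q ∈ N.primeFactors, ∃ i, p i = q := by
    intro q hq
    refine ⟨N.primeFactors.equivFin ⟨q, hq⟩, ?_⟩
    simp [hpdef]
  have hprod : N = ∏ i, p i ^ N.factorization (p i) := by
    conv_lhs => rw [← Nat.prod_factorization_pow_eq_self hN0]
    rw [Finsupp.prod, Nat.support_factorization, ← Finset.prod_coe_sort]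
    exact (Fintype.prod_equiv N.primeFactors.equivFin.symm _ _ (fun i => rfl)).symm
  have ha : ∀ i, N.factorization (p i) ≠ 0 := by
    intro i
    have := hpmem i
    rw [← Nat.support_factorization, Finsupp.mem_support_iff] at this
    exact this
  obtain ⟨i₁, i₂, h12⟩ : ∃ i₁ i₂ : Fin k, i₁ ≠ i₂ :=
    ⟨⟨0, by omega⟩, ⟨1, by omega⟩, by simp⟩
  obtain ⟨E₀, hE₀⟩ := hem
  have hE₀pos : E₀ ≠ 0 := by
    rintro rfl
    have : 0 < e * m₀ := Nat.mul_pos (by omega) (by omega)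
    omega
  set f : Fin k → ℕ := fun i => N.factorization (p i) * E₀ with hf
  have hf0 : ∀ i, f i ≠ 0 := fun i => Nat.mul_ne_zero (ha i) hE₀pos
  obtain ⟨φ₁, f₁, hf₁o', hf₁⟩ := Nat.exists_eq_pow_mul_and_not_dvd (hf0 i₁) 2 (by norm_num)
  obtain ⟨φ₂, f₂, hf₂o', hf₂⟩ := Nat.exists_eq_pow_mul_and_not_dvd (hf0 i₂) 2 (by norm_num)
  have hf₁o : Odd f₁ := by rwa [← Nat.not_even_iff_odd, even_iff_two_dvd]
  have hf₂o : Odd f₂ := by rwa [← Nat.not_even_iff_odd, even_iff_two_dvd]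
  set s := φ₁ + φ₂ + 3 with hs
  set O := ∑ i ∈ (univ.erase i₁).erase i₂, f i with hO
  -- the facts for a prime `w` of the type `Y`
  have facts : ∀ Y K₀ : ℕ, Odd Y → N ^ e ≤ K₀ → ∃ w b : ℕ, w.Prime ∧ K₀ < w ∧ w ≠ 2 ∧ Odd b ∧
      ((N : ZMod w) ^ E₀) ^ b = (-1) ^ ((f₁ + f₂ * Y) / 2 + O) ∧
      (∀ i, ((p i : ZMod w) ^ b) ^
        (if i = i₁ then 2 ^ (φ₁ + 1) else if i = i₂ then 2 ^ (φ₂ + 1) else 1) = -1) := by
    intro Y K₀ hY hK
    obtain ⟨w, hw, hKw, b, hb, hwb, -, g, hg, hgx, -⟩ :=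
      exists_good s 1 K₀ (by omega) odd_one p hp hinj (xx i₁ i₂ s φ₁ φ₂ Y)
    refine ⟨w, b, hw, hKw, ?_, hb, ?_, ?_⟩
    · intro h
      have h2 : 2 ^ 1 ≤ 2 ^ s := Nat.pow_le_pow_right (by norm_num) (by omega)
      have h3 := hb.pos
      have h4 : 2 ^ s * 1 ≤ 2 ^ s * b := Nat.mul_le_mul_left _ h3
      omega
    · rw [← value i₁ i₂ h12 φ₁ φ₂ Y f f₁ f₂ hf₁ hf₂ hY hf₁o hf₂o _ g s hs hg hgx]
      have h1 : (N : ZMod w) = ∏ i, (p i : ZMod w) ^ N.factorization (p i) := by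
        have h2 := congrArg (fun a : ℕ => (a : ZMod w)) hprod
        simp only [Nat.cast_prod, Nat.cast_pow] at h2
        exact h2
      rw [← pow_mul, h1, ← Finset.prod_pow]
      refine Finset.prod_congr rfl fun i _ => ?_
      rw [hf, ← pow_mul, ← pow_mul]
      congr 1
      ring
    · exact order_exp i₁ i₂ φ₁ φ₂ Y hY _ g s hs hg hgx
  obtain ⟨w, b, hw, hKw, hw2, hb, hz, hpw⟩ := facts 1 (N ^ e) odd_one le_rfl
  obtain ⟨w', b', hw', hKw', hw2', hb', hz', hpw'⟩ := facts 3 w (by decide) hKw.le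
  have hww : w ≠ w' := by omega
  -- the general conclusion
  have concl : ∀ w₁ w₂ b₁ b₂ : ℕ, w₁.Prime → w₂.Prime → N ^ e < w₁ → N ^ e < w₂ → w₁ ≠ 2 →
      w₂ ≠ 2 → w₁ ≠ w₂ → Odd b₁ → Odd b₂ → ((N : ZMod w₁) ^ E₀) ^ b₁ = -1 →
      ((N : ZMod w₂) ^ E₀) ^ b₂ = 1 →
      (∀ i, ((p i : ZMod w₁) ^ b₁) ^
        (if i = i₁ then 2 ^ (φ₁ + 1) else if i = i₂ then 2 ^ (φ₂ + 1) else 1) = -1) →
      (∀ i, ((p i : ZMod w₂) ^ b₂) ^
        (if i = i₁ then 2 ^ (φ₁ + 1) else if i = i₂ then 2 ^ (φ₂ + 1) else 1) = -1) →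
      ∀ t' : ℕ, Odd t' → b₁ * b₂ ∣ t' → 3 ≤ m₀ * t' → ¬ NilSinger (N ^ e) (m₀ * t') := by
    intro w₁ w₂ b₁ b₂ h1 h2 hn₁ hn₂ ho₁ ho₂ hne hb₁ hb₂ hz₁ hz₂ hq₁ hq₂ t' ht' hdvd h3
    have hNe : 2 ≤ N ^ e := by
      calc 2 ≤ N := hN
        _ = N ^ 1 := (pow_one _).symm
        _ ≤ N ^ e := Nat.pow_le_pow_right (by omega) he
    have hle : e ≤ E₀ * t' := by
      have h4 : 2 * (E₀ * t') = e * (m₀ * t') := by
        rw [← mul_assoc e, hE₀]
        ring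
      nlinarith
    have hn_ne : ∀ w : ℕ, w.Prime → N ^ e < w → ((N ^ e : ℕ) : ZMod w) ≠ 1 := by
      intro w hw hlt h
      have h5 : ((N ^ e : ℕ) : ZMod w) = ((1 : ℕ) : ZMod w) := by rw [h, Nat.cast_one]
      rw [ZMod.natCast_eq_natCast_iff'] at h5
      rw [Nat.mod_eq_of_lt hlt, Nat.mod_eq_of_lt hw.one_lt] at h5
      omega
    refine key (z := N ^ (E₀ * t')) (u := N ^ (E₀ * t' - e)) (v := 1) (w₁ := w₁) (w₂ := w₂)
      hNe h3 ?_ ?_ (by positivity) one_pos ?_ h1 h2 ho₁ ho₂ hne ?_ ?_ (hn_ne w₁ h1 hn₁)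
      (hn_ne w₂ h2 hn₂) ?_
    · rw [← pow_mul, ← pow_mul]
      congr 1
      rw [← mul_assoc e, hE₀]
      ring
    · rw [mul_one, ← pow_add]
      congr 1
      omega
    · have h6 : 3 ≤ w₁ := by omega
      have h7 : 3 ≤ w₂ := by omega
      nlinarith
    · obtain ⟨d, hd⟩ := (Dvd.intro _ rfl : b₁ ∣ b₁ * b₂).trans hdvd
      have hdo : Odd d := by
        rw [hd] at ht'
        exact (Nat.odd_mul.1 ht').2
      push_cast
      rw [hd, pow_mul, pow_mul, hz₁, hdo.neg_one_pow]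
    · obtain ⟨d, hd⟩ := (Dvd.intro_left _ rfl : b₂ ∣ b₁ * b₂).trans hdvd
      push_cast
      rw [hd, pow_mul, pow_mul, hz₂, one_pow]
    · intro p' hp' hdv
      have hp'N : p' ∈ N.primeFactors := Nat.mem_primeFactors.2 ⟨hp', hp'.dvd_of_dvd_pow hdv, hN0⟩
      obtain ⟨i, rfl⟩ := hsurj p' hp'N
      have hi₁ := hq₁ i
      have hi₂ := hq₂ i
      generalize (if i = i₁ then 2 ^ (φ₁ + 1) else if i = i₂ then 2 ^ (φ₂ + 1) else 1) = d at hi₁ hi₂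
      refine ⟨b₁ * b₂ * d, Nat.Coprime.mul_dvd_of_dvd_of_dvd
        ((Nat.coprime_primes h1 h2).2 hne) ?_ ?_⟩
      · rw [← ZMod.natCast_eq_zero_iff]
        push_cast
        have e1 : b₁ * b₂ * d = b₁ * d * b₂ := by ring
        rw [e1, pow_mul, pow_mul, hi₁, hb₂.neg_one_pow, neg_add_cancel]
      · rw [← ZMod.natCast_eq_zero_iff]
        push_cast
        have e1 : b₁ * b₂ * d = b₂ * d * b₁ := by ring
        rw [e1, pow_mul, pow_mul, hi₂, hb₁.neg_one_pow, neg_add_cancel]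
  -- parities
  have hV : (f₁ + f₂ * 3) / 2 + O = ((f₁ + f₂ * 1) / 2 + O) + f₂ := by
    obtain ⟨V, hV⟩ : 2 ∣ f₁ + f₂ := (hf₁o.add_odd hf₂o).two_dvd
    omega
  rw [hV] at hz'
  generalize (f₁ + f₂ * 1) / 2 + O = V at hz hz'
  rcases Nat.even_or_odd V with hVe | hVo
  · rw [hVe.neg_one_pow] at hz
    rw [(hVe.add_odd hf₂o).neg_one_pow] at hz'
    exact ⟨b' * b, hb'.mul hb, concl w' w b' b hw' hw (by omega) hKw hw2' hw2 hww.symm hb' hb hz' hz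
      hpw' hpw⟩
  · rw [hVo.neg_one_pow] at hz
    rw [(hVo.add_odd hf₂o).neg_one_pow] at hz'
    exact ⟨b * b', hb.mul hb', concl w w' b b' hw hw' hKw (by omega) hw2 hw2' hww hb hb' hz hz'
      hpw hpw'⟩

theorem every_square {n : ℕ} (hn : 2 ≤ n) (hpp : ¬ IsPrimePow n) {m₀ : ℕ} (hm₀ : 1 ≤ m₀)
    (hsq : IsSquare (n ^ m₀)) :
    ∃ t : ℕ, Odd t ∧ ∀ t' : ℕ, Odd t' → t ∣ t' → 3 ≤ m₀ * t' → ¬ NilSinger n (m₀ * t') := by
  rcases Nat.even_or_odd m₀ with h | h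
  · have := every_order (N := n) (e := 1) hn hpp le_rfl hm₀ (by rwa [one_mul])
    simpa only [pow_one] using this
  · obtain ⟨j, hj⟩ := h
    obtain ⟨y, hy⟩ := hsq
    have hnpos : 0 < n ^ j := by positivity
    have h1 : n ^ j * n ^ j ∣ y * y := by
      rw [← hy, hj]
      exact ⟨n, by ring⟩
    have h2 : n ^ j ∣ y :=
      (Nat.pow_dvd_pow_iff (n := 2) (by norm_num)).1 (by rw [sq, sq]; exact h1)
    obtain ⟨N, rfl⟩ := h2
    have h3 : n = N ^ 2 := by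
      have h4 : (n ^ j * n ^ j) * n = (n ^ j * n ^ j) * N ^ 2 := by
        rw [hj] at hy
        calc (n ^ j * n ^ j) * n = n ^ (2 * j + 1) := by ring
          _ = n ^ j * N * (n ^ j * N) := hy
          _ = (n ^ j * n ^ j) * N ^ 2 := by ring
      exact Nat.eq_of_mul_eq_mul_left (by positivity) h4
    have hN2 : 2 ≤ N := by
      by_contra hcon
      have : N ^ 2 ≤ 1 := by
        have : N ≤ 1 := by omega
        calc N ^ 2 ≤ 1 ^ 2 := Nat.pow_le_pow_left this 2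
          _ = 1 := by norm_num
      omega
    have hNp : ¬ IsPrimePow N := fun hcon => hpp (h3 ▸ hcon.pow (by norm_num))
    have := every_order (N := N) (e := 2) (m₀ := m₀) hN2 hNp (by norm_num) hm₀ (even_two_mul _)
    rw [← h3] at this
    exact this

end Pool.Agent.TH66.SG
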