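import Mathlib
import Pool.Agent.TH66.SG.Tup3
import Pool.Agent.TH66.SG.Fin2

/-!
# The local sets of tuples, and the passage from local sets to tuples of primes
-/

set_option autoImplicit false

namespace Pool.Agent.TH66.SG

open Finset Filter Topology

/-- the exponents of `2` -/
def exx (s : ℕ) {k : ℕ} (i : Fin (k + 1 + 1)) : ℕ := if i.val ≤ 1 then s - 1 else 0

/-- the set of tuples of classes -/
def SS (s k : ℕ) (P : ∀ w : ℕ, ZMod w → Prop) (w : ℕ) : Set (Fin (k + 1 + 1) → ZMod w) :=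
  {x | (∀ i, x i ^ (2 ^ exx s i * ((w - 1) / 2 ^ s)) = -1) ∧ P w (∏ i, x i)}

theorem SS_card (s k : ℕ) (P : ∀ w : ℕ, ZMod w → Prop) (w b : ℕ) (hw : w.Prime) (hb : 0 < b)
    (hwb : w = 2 ^ s * b + 1) (c : Fin (k + 1 + 1) → ZMod w) (hc : c ∈ SS s k P w) :
    b ^ (k + 1) ≤ (SS s k P w).ncard := by
  have hwf : Fact w.Prime := ⟨hw⟩
  have hw1 : w - 1 = 2 ^ s * b := by rw [hwb, Nat.add_sub_cancel]
  have hb' : (w - 1) / 2 ^ s = b := by
    rw [hw1, Nat.mul_div_cancel_left _ (by positivity)]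
  obtain ⟨ζ, hζ⟩ := exists_zeta' w b (by rw [hw1]; exact dvd_mul_left _ _)
  have hζb : ζ ^ b = 1 := (hζ b).2 dvd_rfl
  have hord : orderOf ζ = b :=
    Nat.dvd_antisymm (orderOf_dvd_of_pow_eq_one hζb) ((hζ _).1 (pow_orderOf_eq_one ζ))
  obtain ⟨hc1, hc2⟩ := hc
  rw [hb'] at hc1
  have hc0 : ∀ i, c i ≠ 0 := by
    intro i h
    have h1 := hc1 i
    rw [h, zero_pow (by positivity)] at h1
    have h2 : (1 : ZMod w) = 0 := by linear_combination h1
    exact one_ne_zero h2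
  set Φ : (Fin (k + 1) → Fin b) → (Fin (k + 1 + 1) → ZMod w) := fun j =>
    Fin.cons (c 0 * ζ ^ (∑ i, (b - (j i : ℕ)))) (fun i => c i.succ * ζ ^ (j i : ℕ)) with hΦ
  have hinj : Function.Injective Φ := by
    intro j j' h
    funext i
    have h1 := congrFun h i.succ
    simp only [hΦ, Fin.cons_succ] at h1
    have h2 := mul_left_cancel₀ (hc0 _) h1
    have h3 : (j i : ℕ) = j' i := by
      apply pow_injOn_Iio_orderOf (x := ζ) _ _ h2
      · rw [Set.mem_Iio, hord]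
        exact (j i).2
      · rw [Set.mem_Iio, hord]
        exact (j' i).2
    exact Fin.ext h3
  have hmem : ∀ j, Φ j ∈ SS s k P w := by
    intro j
    have hpow : ∀ (y : ZMod w) (N M : ℕ), (y * ζ ^ N) ^ (2 ^ M * b) = y ^ (2 ^ M * b) := by
      intro y N M
      rw [mul_pow, ← pow_mul]
      have : ζ ^ (N * (2 ^ M * b)) = 1 := (hζ _).2 ⟨N * 2 ^ M, by ring⟩
      rw [this, mul_one]
    refine ⟨?_, ?_⟩
    · rw [hb']
      intro i
      refine Fin.cases ?_ (fun i => ?_) i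
      · simp only [hΦ, Fin.cons_zero]
        rw [hpow]
        exact hc1 0
      · simp only [hΦ, Fin.cons_succ]
        rw [hpow]
        exact hc1 i.succ
    · have h1 : ∏ i, Φ j i = ∏ i, c i := by
        rw [Fin.prod_univ_succ, Fin.prod_univ_succ (f := c)]
        simp only [hΦ, Fin.cons_zero, Fin.cons_succ]
        rw [Finset.prod_mul_distrib, Finset.prod_pow_eq_pow_sum]
        have h2 : ζ ^ (∑ i, (b - (j i : ℕ))) * ζ ^ (∑ i, (j i : ℕ)) = 1 := by
          rw [← pow_add, ← Finset.sum_add_distrib]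
          rw [Finset.sum_congr rfl (g := fun _ => b) (fun i _ => by have := (j i).2; omega)]
          rw [sum_const, smul_eq_mul]
          exact (hζ _).2 (dvd_mul_left _ _)
        linear_combination (c 0 * ∏ i : Fin (k + 1), c i.succ) * h2
      rw [h1]
      exact hc2
  calc b ^ (k + 1) = (Set.univ : Set (Fin (k + 1) → Fin b)).ncard := by
        rw [Set.ncard_univ, Nat.card_eq_fintype_card, Fintype.card_fun, Fintype.card_fin,
          Fintype.card_fin]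
    _ = (Φ '' Set.univ).ncard := (Set.ncard_image_of_injective _ hinj).symm
    _ ≤ (SS s k P w).ncard := by
        refine Set.ncard_le_ncard ?_ (Set.toFinite _)
        rintro _ ⟨j, -, rfl⟩
        exact hmem j

theorem SS_nonempty (s k : ℕ) (hs : 2 ≤ s) (P : ∀ w : ℕ, ZMod w → Prop) (w b : ℕ) (hb : Odd b)
    (hwb : w = 2 ^ s * b + 1) (g t : ZMod w) (hg : g ^ 2 ^ (s - 1) = -1)
    (ht : t ^ (2 ^ (s - 1) * b) = 1) (hP : P w t) :
    ∃ c, c ∈ SS s k P w := by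
  have hw1 : w - 1 = 2 ^ s * b := by rw [hwb, Nat.add_sub_cancel]
  have hb' : (w - 1) / 2 ^ s = b := by
    rw [hw1, Nat.mul_div_cancel_left _ (by positivity)]
  have hg2s : g ^ 2 ^ s = 1 := by
    have : 2 ^ s = 2 ^ (s - 1) * 2 := by
      rw [← pow_succ]
      congr 1
      omega
    rw [this, pow_mul, hg]
    norm_num
  have h2s : 2 ^ s - 1 + 1 = 2 ^ s := Nat.sub_add_cancel (Nat.one_le_two_pow)
  refine ⟨Fin.cons g (Fin.cons (t * g ^ (2 ^ s - 1) * (-1) ^ k) (fun _ => -1)), ?_, ?_⟩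
  · rw [hb']
    intro i
    refine Fin.cases ?_ (fun i => ?_) i
    · simp only [Fin.cons_zero, exx]
      rw [if_pos (by simp), pow_mul, hg, hb.neg_one_pow]
    refine Fin.cases ?_ (fun i => ?_) i
    · simp only [Fin.cons_succ, Fin.cons_zero, exx]
      rw [if_pos (by simp), mul_pow, mul_pow, ht, one_mul]
      have e1 : (g ^ (2 ^ s - 1)) ^ (2 ^ (s - 1) * b) = -1 := by
        have h3 : Odd ((2 ^ s - 1) * b) := by
          refine Odd.mul ?_ hb
          refine ⟨2 ^ (s - 1) - 1, ?_⟩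
          have h4 : 2 ^ s = 2 ^ (s - 1) * 2 := by
            rw [← pow_succ]
            congr 1
            omega
          have h5 : 1 ≤ 2 ^ (s - 1) := Nat.one_le_two_pow
          omega
        rw [← pow_mul, show (2 ^ s - 1) * (2 ^ (s - 1) * b) = 2 ^ (s - 1) * ((2 ^ s - 1) * b) by ring,
          pow_mul, hg, h3.neg_one_pow]
      have e2 : (((-1 : ZMod w)) ^ k) ^ (2 ^ (s - 1) * b) = 1 := by
        rw [← pow_mul]
        have h4 : 2 ^ (s - 1) = 2 * 2 ^ (s - 2) := by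
          rw [← pow_succ']
          congr 1
          omega
        rw [h4, show k * (2 * 2 ^ (s - 2) * b) = 2 * (k * 2 ^ (s - 2) * b) by ring, pow_mul]
        norm_num
      rw [e1, e2, mul_one]
    · simp only [Fin.cons_succ, exx]
      rw [if_neg (by simp), pow_zero, one_mul, hb.neg_one_pow]
  · have h1 : ∏ i, (Fin.cons g (Fin.cons (t * g ^ (2 ^ s - 1) * (-1) ^ k) (fun _ => -1)) :
        Fin (k + 1 + 1) → ZMod w) i = t := by
      rw [Fin.prod_univ_succ, Fin.prod_univ_succ]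
      simp only [Fin.cons_succ, Fin.cons_zero, prod_const, card_univ, Fintype.card_fin]
      have h3 : (-1 : ZMod w) ^ k * (-1) ^ k = 1 := by
        rw [← mul_pow]
        norm_num
      have h4 : g ^ (2 ^ s - 1) * g = 1 := by
        rw [← pow_succ, h2s, hg2s]
      linear_combination (t * g ^ (2 ^ s - 1) * g) * h3 + t * h4
    rw [h1]
    exact hP

open Classical in
/-- from local conditions to tuples of primes -/
theorem tup_main (s k L K₀ a : ℕ) (hs : 3 ≤ s) (hL : Odd L) (ha : 1 ≤ a)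
    (P₁ P₂ : ∀ w : ℕ, ZMod w → Prop)
    (hex : ∀ w : ℕ, w.Prime → w ≠ 2 → L ∣ w - 1 → K₀ < w → ∀ g : ZMod w, g ^ 2 ^ (s - 1) = -1 →
      ∃ t₁ t₂ : ZMod w, t₁ ^ (2 ^ (s - 1) * L) = 1 ∧ t₂ ^ (2 ^ (s - 1) * L) = 1 ∧
        P₁ w t₁ ∧ P₂ w t₂)
    (Bad : ℕ → Prop)
    (hbad : ∀ w₁ b₁ w₂ b₂ : ℕ, w₁.Prime → w₂.Prime → K₀ < w₁ → K₀ < w₂ → Odd b₁ → Odd b₂ →
      w₁ = 2 ^ s * b₁ + 1 → w₂ = 2 ^ s * b₂ + 1 →
      (∀ q : ℕ, q.Prime → q ∣ a → (q : ZMod w₁) ^ b₁ = 1) →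
      ∀ p : Fin (k + 1 + 1) → ℕ, (∀ i, (p i).Prime) →
      (∀ i, (p i : ZMod w₁) ^ (2 ^ exx s i * b₁) = -1) →
      (∀ i, (p i : ZMod w₂) ^ (2 ^ exx s i * b₂) = -1) →
      P₁ w₁ ((a * ∏ i, p i : ℕ) : ZMod w₁) → P₂ w₂ ((a * ∏ i, p i : ℕ) : ZMod w₂) →
      ¬ Bad (∏ i, p i))
    (ε : ℝ) (hε : 0 < ε) :
    ∃ X₀ : ℕ, ∀ X : ℕ, X₀ ≤ X →
      (((LL (k + 1 + 1) X).filter (fun l => Bad (∏ i, l i))).card : ℝ) ≤
        ε * NN (k + 1 + 1) X := by
  -- the prime factors of `a`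
  set k' := a.primeFactors.card with hk'
  set pa : Fin k' → ℕ := fun i => (a.primeFactors.equivFin.symm i : ℕ) with hpdef
  have hpmem : ∀ i, pa i ∈ a.primeFactors := fun i => (a.primeFactors.equivFin.symm i).2
  have hp : ∀ i, (pa i).Prime := fun i => Nat.prime_of_mem_primeFactors (hpmem i)
  have hinj : Function.Injective pa := by
    intro i j h
    exact a.primeFactors.equivFin.symm.injective (Subtype.ext h)
  have hsurj : ∀ q ∈ a.primeFactors, ∃ i, pa i = q := by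
    intro q hq
    refine ⟨a.primeFactors.equivFin ⟨q, hq⟩, ?_⟩
    simp [hpdef]
  have hprod : a = ∏ i, pa i ^ a.factorization (pa i) := by
    conv_lhs => rw [← Nat.prod_factorization_pow_eq_self (show a ≠ 0 by omega)]
    rw [Finsupp.prod, Nat.support_factorization, ← Finset.prod_coe_sort]
    exact (Fintype.prod_equiv a.primeFactors.equivFin.symm _ _ (fun i => rfl)).symm
  set R : Set ℕ := Good s L (K₀ + 2) pa (fun _ => 0) with hRdef
  have hR : ∀ w ∈ R, w.Prime ∧ K₀ + 2 < w ∧ ∃ b : ℕ, Odd b ∧ w = 2 ^ s * b + 1 ∧ L ∣ b ∧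
      (∀ q : ℕ, q.Prime → q ∣ a → (q : ZMod w) ^ b = 1) ∧ (a : ZMod w) ^ b = 1 ∧
      ∃ g : ZMod w, g ^ (2 ^ (s - 1)) = -1 := by
    rintro w ⟨h1, h2, b, h3, h4, h5, g, h6, h7, -⟩
    simp only [mul_zero, pow_zero] at h7
    refine ⟨h1, h2, b, h3, h4, h5, ?_, ?_, g, h6⟩
    · intro q hq hqa
      obtain ⟨i, rfl⟩ := hsurj q (Nat.mem_primeFactors.2 ⟨hq, hqa, by omega⟩)
      exact h7 i
    · have e1 := congrArg (fun a : ℕ => (a : ZMod w)) hprod
      simp only [Nat.cast_prod, Nat.cast_pow] at e1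
      rw [e1, ← Finset.prod_pow]
      refine Finset.prod_eq_one fun i _ => ?_
      rw [← pow_mul, mul_comm, pow_mul, h7 i, one_pow]
  have hdiv : ¬ Summable (fun n : ℕ => R.indicator (fun n : ℕ => (1 : ℝ) / n) n) :=
    good_diverges s L (K₀ + 2) hs hL _ hp hinj _
  have hRp : ∀ w ∈ R, w.Prime ∧ w ≠ 2 := by
    intro w hw
    obtain ⟨h1, h2, -⟩ := hR w hw
    exact ⟨h1, by omega⟩
  -- the lower bound for the local sets
  have local_ : ∀ P : ∀ w : ℕ, ZMod w → Prop, (∀ w ∈ R, ∀ b, w = 2 ^ s * b + 1 →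
      ∃ t : ZMod w, t ^ (2 ^ (s - 1) * b) = 1 ∧ P w t) → ∀ ε' : ℝ, 0 < ε' →
      ∃ F : Finset ℕ, (∀ w ∈ F, w ∈ R) ∧ ∃ X₀ : ℕ, ∀ X : ℕ, X₀ ≤ X →
      (((LL (k + 1 + 1) X).filter (fun l => ∀ w ∈ F, (fun i => (l i : ZMod w)) ∉
        SS s k (fun w y => P w (a * y)) w)).card : ℝ)
        ≤ ε' * NN (k + 1 + 1) X := by
    intro P hP ε' hε'
    refine tuple_avoid (k + 1) R hRp hdiv (SS s k (fun w y => P w (a * y)))
      ((1 / 2 ^ s) ^ (k + 1)) (by positivity) ?_ ?_ ε' hε'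
    · intro w hw x hx i h
      obtain ⟨h1, h2, b, h3, h4, -⟩ := hR w hw
      have hwf : Fact w.Prime := ⟨h1⟩
      have hw1 : w - 1 = 2 ^ s * b := by omega
      have hb' : (w - 1) / 2 ^ s = b := by
        rw [hw1, Nat.mul_div_cancel_left _ (by positivity)]
      have h5 := hx.1 i
      rw [h, hb', zero_pow (Nat.mul_ne_zero (by positivity) h3.pos.ne')] at h5
      have h6 : (1 : ZMod w) = 0 := by linear_combination h5
      exact one_ne_zero h6
    · intro w hw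
      obtain ⟨h1, h2, b, h3, h4, h5, -, hab, g, hg⟩ := hR w hw
      obtain ⟨t, ht, hPt⟩ := hP w hw b h4
      have hb1 : b - 1 + 1 = b := Nat.sub_add_cancel h3.pos
      obtain ⟨c, hc⟩ := SS_nonempty s k (by omega) (fun w y => P w (a * y)) w b h3 h4 g
        (t * (a : ZMod w) ^ (b - 1)) hg (by
          rw [mul_pow, ht, one_mul, ← pow_mul, show (b - 1) * (2 ^ (s - 1) * b) =
            b * ((b - 1) * 2 ^ (s - 1)) by ring, pow_mul, hab, one_pow]) (by
          have e1 : (a : ZMod w) * (t * (a : ZMod w) ^ (b - 1)) = t := by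
            have e2 : (a : ZMod w) ^ (b - 1) * a = 1 := by rw [← pow_succ, hb1, hab]
            linear_combination t * e2
          rw [e1]
          exact hPt)
      have h6 := SS_card s k (fun w y => P w (a * y)) w b h1 h3.pos h4 c hc
      have h7 : ((b : ℝ)) ^ (k + 1) ≤ ((SS s k (fun w y => P w (a * y)) w).ncard : ℝ) := by
        exact_mod_cast h6
      refine le_trans ?_ h7
      have hwr : (w : ℝ) - 1 = 2 ^ s * b := by
        rw [h4]
        push_cast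
        ring
      have hw0 : (0 : ℝ) < w := by exact_mod_cast h1.pos
      have hle : 2 ^ s * (b : ℝ) ≤ w := by linarith
      rw [hwr, div_mul_eq_mul_div, div_le_iff₀ hw0]
      have h2s : (0 : ℝ) < 2 ^ s := by positivity
      calc (1 / 2 ^ s : ℝ) ^ (k + 1) * (2 ^ s * (b : ℝ)) ^ (k + 1 + 1)
          = (b : ℝ) ^ (k + 1) * (2 ^ s * b) := by
            rw [pow_succ (2 ^ s * (b : ℝ)) (k + 1), ← mul_assoc, ← mul_pow]
            congr 2
            field_simp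
        _ ≤ (b : ℝ) ^ (k + 1) * w := mul_le_mul_of_nonneg_left hle (by positivity)
  have hex' : ∀ w ∈ R, ∀ b, w = 2 ^ s * b + 1 → ∃ t₁ t₂ : ZMod w,
      t₁ ^ (2 ^ (s - 1) * b) = 1 ∧ t₂ ^ (2 ^ (s - 1) * b) = 1 ∧ P₁ w t₁ ∧ P₂ w t₂ := by
    intro w hw b hb
    obtain ⟨h1, h2, b', h3, h4, h5, -, -, g, hg⟩ := hR w hw
    have hbb : b' = b := by
      have h6 : 2 ^ s * b' = 2 ^ s * b := by omega
      exact Nat.eq_of_mul_eq_mul_left (by positivity) h6
    subst hbb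
    obtain ⟨t₁, t₂, e1, e2, e3, e4⟩ := hex w h1 (by omega)
      (by rw [show w - 1 = 2 ^ s * b' by omega]; exact h5.mul_left _) (by omega) g hg
    exact ⟨t₁, t₂, pow_one_of_dvd e1 (Nat.mul_dvd_mul_left _ h5),
      pow_one_of_dvd e2 (Nat.mul_dvd_mul_left _ h5), e3, e4⟩
  obtain ⟨F₁, hF₁, X₁, hX₁⟩ := local_ P₁ (fun w hw b hb => by
    obtain ⟨t₁, t₂, e1, e2, e3, e4⟩ := hex' w hw b hb
    exact ⟨t₁, e1, e3⟩) (ε / 2) (by positivity)
  obtain ⟨F₂, hF₂, X₂, hX₂⟩ := local_ P₂ (fun w hw b hb => by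
    obtain ⟨t₁, t₂, e1, e2, e3, e4⟩ := hex' w hw b hb
    exact ⟨t₂, e2, e4⟩) (ε / 2) (by positivity)
  refine ⟨max X₁ X₂, fun X hX => ?_⟩
  have h1 := hX₁ X (le_of_max_le_left hX)
  have h2 := hX₂ X (le_of_max_le_right hX)
  have hsub : (LL (k + 1 + 1) X).filter (fun l => Bad (∏ i, l i)) ⊆
      (LL (k + 1 + 1) X).filter (fun l => ∀ w ∈ F₁, (fun i => (l i : ZMod w)) ∉
        SS s k (fun w y => P₁ w (a * y)) w) ∪
      (LL (k + 1 + 1) X).filter (fun l => ∀ w ∈ F₂, (fun i => (l i : ZMod w)) ∉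
        SS s k (fun w y => P₂ w (a * y)) w) := by
    intro l hl
    rw [mem_filter] at hl
    rw [mem_union, mem_filter, mem_filter]
    by_contra hcon
    push Not at hcon
    obtain ⟨w₁, hw₁, e₁⟩ := hcon.1 hl.1
    obtain ⟨w₂, hw₂, e₂⟩ := hcon.2 hl.1
    obtain ⟨a1, a2, b₁, a3, a4, a5, a6, -⟩ := hR w₁ (hF₁ w₁ hw₁)
    obtain ⟨a1', a2', b₂, a3', a4', a5', a6', -⟩ := hR w₂ (hF₂ w₂ hw₂)
    have d1 : (w₁ - 1) / 2 ^ s = b₁ := by
      rw [show w₁ - 1 = 2 ^ s * b₁ by omega, Nat.mul_div_cancel_left _ (by positivity)]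
    have d2 : (w₂ - 1) / 2 ^ s = b₂ := by
      rw [show w₂ - 1 = 2 ^ s * b₂ by omega, Nat.mul_div_cancel_left _ (by positivity)]
    obtain ⟨e3, e4⟩ := e₁
    obtain ⟨e5, e6⟩ := e₂
    rw [d1] at e3
    rw [d2] at e5
    refine hbad w₁ b₁ w₂ b₂ a1 a1' (by omega) (by omega) a3 a3' a4 a4' a6 l (mem_LL.1 hl.1).1
      e3 e5 ?_ ?_ hl.2
    · push_cast
      exact e4
    · push_cast
      exact e6
  have h3 := (card_le_card hsub).trans (card_union_le _ _)
  have h4 := (Nat.cast_le (α := ℝ)).2 h3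
  rw [Nat.cast_add] at h4
  linarith

end Pool.Agent.TH66.SG
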