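import Mathlib
import Pool.Agent.TH66.SG.Tup4
import Pool.Agent.TH66.SG.Odd

/-!
# Almost all tuples of primes are excluded
-/

set_option autoImplicit false

namespace Pool.Agent.TH66.SG

open Finset Filter Topology
open Pool.Agent.H771R2.SingerDS (HasSinger)

theorem neg_ne_one {w : ℕ} (hw : w.Prime) (hw2 : w ≠ 2) : (-1 : ZMod w) ≠ 1 := by
  intro h
  have : Fact w.Prime := ⟨hw⟩
  have h3 : (2 : ZMod w) = 0 := by linear_combination -h
  have h4 : ((2 : ℕ) : ZMod w) = 0 := by exact_mod_cast h3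
  rw [ZMod.natCast_eq_zero_iff] at h4
  exact hw2 ((Nat.prime_dvd_prime_iff_eq hw Nat.prime_two).1 h4)

theorem pow_of_primes {w b a : ℕ} (ha : a ≠ 0)
    (h : ∀ q : ℕ, q.Prime → q ∣ a → (q : ZMod w) ^ b = 1) : (a : ZMod w) ^ b = 1 := by
  induction a using Nat.recOnMul with
  | zero => exact absurd rfl ha
  | one => simp
  | prime p hp => exact h p hp dvd_rfl
  | mul x y hx hy =>
    have hx0 : x ≠ 0 := fun h0 => ha (by rw [h0, zero_mul])
    have hy0 : y ≠ 0 := fun h0 => ha (by rw [h0, mul_zero])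
    rw [Nat.cast_mul, mul_pow, hx hx0 (fun q hq hqx => h q hq (hqx.mul_right _)),
      hy hy0 (fun q hq hqy => h q hq (hqy.mul_left _)), one_mul]

theorem two_le_prod {k : ℕ} (p : Fin (k + 1) → ℕ) (hp : ∀ i, (p i).Prime) : 2 ≤ ∏ i, p i := by
  rw [Fin.prod_univ_succ]
  have h1 := (hp 0).two_le
  have h2 : 0 < ∏ i : Fin k, p i.succ := Finset.prod_pos fun i _ => (hp i.succ).pos
  nlinarith

open Classical in
theorem tup_even (k a m e : ℕ) (ha : 1 ≤ a) (hm : 3 ≤ m) (he : 1 ≤ e) (hem : Even (e * m))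
    (ε : ℝ) (hε : 0 < ε) :
    ∃ X₀ : ℕ, ∀ X : ℕ, X₀ ≤ X →
      (((LL (k + 1 + 1) X).filter (fun l => NilSinger ((a * ∏ i, l i) ^ e) m)).card : ℝ) ≤
        ε * NN (k + 1 + 1) X := by
  obtain ⟨E, hE⟩ := hem
  have heE : e ≤ E := by nlinarith
  have hE0 : E ≠ 0 := by omega
  obtain ⟨r, E₁, hE₁o', hE₁⟩ := Nat.exists_eq_pow_mul_and_not_dvd hE0 2 (by norm_num)
  have hE₁o : Odd E₁ := by rwa [← Nat.not_even_iff_odd, even_iff_two_dvd]
  obtain ⟨v, e₁, he₁o', he₁⟩ :=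
    Nat.exists_eq_pow_mul_and_not_dvd (by omega : e ≠ 0) 2 (by norm_num)
  have he₁o : Odd e₁ := by rwa [← Nat.not_even_iff_odd, even_iff_two_dvd]
  obtain ⟨s, hs⟩ : ∃ s, s = r + 3 := ⟨_, rfl⟩
  have reduce : ∀ L : ℕ, Odd L → (∀ w : ℕ, w.Prime → w ≠ 2 → L ∣ w - 1 →
      ∀ g : ZMod w, g ^ 2 ^ (s - 1) = -1 → ∃ t₁ t₂ : ZMod w,
        t₁ ^ (2 ^ (r + 1) * L) = 1 ∧ t₂ ^ (2 ^ (r + 1) * L) = 1 ∧ t₁ ^ E = -1 ∧ t₁ ^ e ≠ 1 ∧
        t₂ ^ E = 1 ∧ t₂ ^ e ≠ 1) →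
      ∃ X₀ : ℕ, ∀ X : ℕ, X₀ ≤ X →
      (((LL (k + 1 + 1) X).filter (fun l => NilSinger ((a * ∏ i, l i) ^ e) m)).card : ℝ) ≤
        ε * NN (k + 1 + 1) X := by
    intro L hL ht
    refine tup_main s k L (4 * (a ^ (E - e)) ^ 4) a (by omega) hL ha
      (fun w t => t ^ E = -1 ∧ t ^ e ≠ 1)
      (fun w t => t ^ E = 1 ∧ t ^ e ≠ 1) ?_ (fun N => NilSinger ((a * N) ^ e) m) ?_ ε hε
    · intro w hw hw2 hLw _ g hg
      obtain ⟨t₁, t₂, h1, h2, h3, h4, h5, h6⟩ := ht w hw hw2 hLw g hg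
      have hd : 2 ^ (r + 1) * L ∣ 2 ^ (s - 1) * L :=
        Nat.mul_dvd_mul_right (pow_dvd_pow 2 (by omega)) L
      exact ⟨t₁, t₂, pow_one_of_dvd h1 hd, pow_one_of_dvd h2 hd, ⟨h3, h4⟩, h5, h6⟩
    · intro w₁ b₁ w₂ b₂ hw₁ hw₂ hK₁ hK₂ hb₁ hb₂ hwb₁ hwb₂ _ p hp hc₁ hc₂ hP₁ hP₂
      have hap : 0 < (a ^ (E - e)) ^ 4 := by positivity
      have ho₁ : w₁ ≠ 2 := by omega
      have ho₂ : w₂ ≠ 2 := by omega
      have hne : w₁ ≠ w₂ := by
        rintro rfl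
        exact neg_ne_one hw₁ ho₁ (hP₁.1.symm.trans hP₂.1)
      have hN2 : 2 ≤ ∏ i, p i := two_le_prod p hp
      obtain ⟨N, hN⟩ : ∃ N, N = ∏ i, p i := ⟨_, rfl⟩
      rw [← hN] at hP₁ hP₂ hN2 ⊢
      refine key (z := (a * N) ^ E) (u := N ^ (E - e)) (v := a ^ (E - e))
        (w₁ := w₁) (w₂ := w₂) ?_ hm ?_ ?_ (by positivity) (by positivity) ?_ hw₁ hw₂ ho₁ ho₂ hne
        ?_ ?_ ?_ ?_ ?_
      · have h2 : 2 ≤ a * N := by nlinarith
        calc 2 ≤ a * N := h2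
          _ = (a * N) ^ 1 := (pow_one _).symm
          _ ≤ (a * N) ^ e := Nat.pow_le_pow_right (by omega) he
      · rw [← pow_mul, ← pow_mul, hE]
        congr 1
        ring
      · rw [mul_comm (N ^ (E - e)), ← mul_pow, ← pow_add]
        congr 1
        omega
      · calc 4 * (a ^ (E - e)) ^ 4 < w₁ := hK₁
          _ ≤ w₁ * w₂ := Nat.le_mul_of_pos_right _ hw₂.pos
      · rw [Nat.cast_pow]
        exact hP₁.1
      · rw [Nat.cast_pow]
        exact hP₂.1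
      · rw [Nat.cast_pow]
        exact hP₁.2
      · rw [Nat.cast_pow]
        exact hP₂.2
      · intro p' hp' hdvd
        have h3 : p' ∣ ∏ i, p i := hN ▸ hp'.dvd_of_dvd_pow hdvd
        obtain ⟨i, -, hi⟩ := (Prime.dvd_finsetProd_iff hp'.prime _).1 h3
        rw [(Nat.prime_dvd_prime_iff_eq hp' (hp i)).1 hi]
        refine ⟨2 ^ exx s i * b₁ * b₂,
          Nat.Coprime.mul_dvd_of_dvd_of_dvd ((Nat.coprime_primes hw₁ hw₂).2 hne) ?_ ?_⟩
        · rw [← ZMod.natCast_eq_zero_iff]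
          push_cast
          rw [pow_mul, hc₁ i, hb₂.neg_one_pow, neg_add_cancel]
        · rw [← ZMod.natCast_eq_zero_iff]
          push_cast
          rw [mul_right_comm, pow_mul, hc₂ i, hb₁.neg_one_pow, neg_add_cancel]
  have hneg : ∀ w : ℕ, w.Prime → w ≠ 2 → (-1 : ZMod w) ≠ 1 := fun w => neg_ne_one
  have hθ : ∀ (w : ℕ) (g : ZMod w), g ^ 2 ^ (s - 1) = -1 → ∀ j : ℕ, j ≤ s - 1 →
      (g ^ 2 ^ (s - 1 - j)) ^ 2 ^ j = -1 := by
    intro w g hg j hj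
    rw [← pow_mul, ← hg, ← pow_add]
    congr 2
    omega
  have hrE : ∀ {w : ℕ} (t : ZMod w), t ^ 2 ^ r = -1 → t ^ E = -1 := by
    intro w t ht
    rw [hE₁, pow_mul, ht, hE₁o.neg_one_pow]
  have hone : ∀ {w : ℕ} (t : ZMod w) (j n : ℕ), t ^ 2 ^ j = -1 → 2 ^ (j + 1) ∣ n → t ^ n = 1 := by
    rintro w t j n h ⟨d, rfl⟩
    rw [pow_succ, mul_assoc, pow_mul, h, pow_mul]
    norm_num
  rcases exists_l' hm with h4 | ⟨l, hl, hl2, hlm⟩
  · -- `l = 2`
    obtain ⟨y, rfl⟩ := h4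
    have hEy : E = e * (2 * y) := by nlinarith
    have hvr : v + 1 ≤ r := by
      by_contra hcon
      have h5 : 2 ^ (v + 1) ∣ E := by
        rw [hEy, pow_succ]
        exact Nat.mul_dvd_mul ⟨e₁, he₁⟩ (dvd_mul_right _ _)
      have h6 : 2 ^ (r + 1) ∣ E := (pow_dvd_pow 2 (by omega)).trans h5
      rw [hE₁, pow_succ] at h6
      exact hE₁o' (Nat.dvd_of_mul_dvd_mul_left (by positivity) h6)
    refine reduce 1 odd_one fun w hw hw2 _ g hg => ?_
    have h11 := hneg w hw hw2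
    have ht₁ := hθ w g hg r (by omega)
    have ht₂ := hθ w g hg v (by omega)
    generalize g ^ 2 ^ (s - 1 - r) = t₁ at ht₁
    generalize g ^ 2 ^ (s - 1 - v) = t₂ at ht₂
    refine ⟨t₁, t₂, ?_, ?_, hrE _ ht₁, ?_, ?_, ?_⟩
    · exact hone t₁ r _ ht₁ (dvd_mul_right _ _)
    · exact hone t₂ v _ ht₂ ((pow_dvd_pow 2 (by omega)).mul_right _)
    · intro h
      have h3 := hrE _ ht₁
      rw [hEy, pow_mul, h, one_pow] at h3
      exact h11 h3.symm
    · apply hone t₂ v _ ht₂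
      rw [hEy, pow_succ]
      exact Nat.mul_dvd_mul ⟨e₁, he₁⟩ (dvd_mul_right _ _)
    · rw [he₁, pow_mul, ht₂, he₁o.neg_one_pow]
      exact h11
  · -- `l` odd
    have hlo : Odd l := hl.odd_of_ne_two hl2
    set κ := e.factorization l + 1 with hκ
    have hlkE : l ^ κ ∣ E := by
      have h3 : l ^ κ ∣ 2 * E := by
        have h4 : 2 * E = e * m := by omega
        rw [h4, hκ, pow_succ]
        exact Nat.mul_dvd_mul (Nat.ordProj_dvd e l) hlm
      exact (Nat.Coprime.pow_left κ (Nat.coprime_two_right.2 hlo)).dvd_of_dvd_mul_left h3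
    have hlke : ¬ l ^ κ ∣ e := Nat.pow_succ_factorization_not_dvd (by omega) hl
    refine reduce (l ^ κ) hlo.pow fun w hw hw2 hLw g hg => ?_
    have hwf : Fact w.Prime := ⟨hw⟩
    have h11 := hneg w hw hw2
    have ht₁ := hθ w g hg r (by omega)
    generalize g ^ 2 ^ (s - 1 - r) = t at ht₁
    obtain ⟨ζ, hζ⟩ := exists_zeta' w (l ^ κ) hLw
    have hζ1 : ζ ^ (2 ^ (r + 1) * l ^ κ) = 1 := (hζ _).2 (dvd_mul_left _ _)
    have hζE : ζ ^ E = 1 := (hζ _).2 hlkE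
    have hζe : ζ ^ e ≠ 1 := fun h => hlke ((hζ _).1 h)
    refine ⟨t * ζ, ζ, ?_, hζ1, ?_, ?_, hζE, hζe⟩
    · rw [mul_pow, hζ1, hone t r _ ht₁ (dvd_mul_right _ _), one_mul]
    · rw [mul_pow, hζE, hrE _ ht₁, mul_one]
    · rcases Nat.even_or_odd m with hme | hmo
      · obtain ⟨y, rfl⟩ := hme
        have hEy : E = e * y := by nlinarith
        intro h
        have h3 : (t * ζ) ^ E = -1 := by rw [mul_pow, hζE, hrE _ ht₁, mul_one]
        rw [hEy, pow_mul, h, one_pow] at h3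
        exact h11 h3.symm
      · have h3 : 2 ^ (r + 1) ∣ e := by
          have h4 : 2 ^ (r + 1) ∣ e * m := by
            have h5 : e * m = E * 2 := by omega
            rw [h5, pow_succ]
            exact Nat.mul_dvd_mul ⟨E₁, hE₁⟩ dvd_rfl
          exact (Nat.Coprime.pow_left (r + 1) (Nat.coprime_two_left.2 hmo)).dvd_of_dvd_mul_right h4
        rw [mul_pow, hone t r e ht₁ h3, one_mul]
        exact hζe

open Classical in
theorem tup_odd (k a m e : ℕ) (ha : 1 ≤ a) (hm : 3 ≤ m) (he : 1 ≤ e) (hem : Odd (e * m))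
    (ε : ℝ) (hε : 0 < ε) :
    ∃ X₀ : ℕ, ∀ X : ℕ, X₀ ≤ X →
      (((LL (k + 1 + 1) X).filter (fun l => HasSinger ((a * ∏ i, l i) ^ e) m)).card : ℝ) ≤
        ε * NN (k + 1 + 1) X := by
  obtain ⟨heo, hmo⟩ := Nat.odd_mul.1 hem
  set l := m.minFac with hl
  have hlp : l.Prime := Nat.minFac_prime (by omega)
  have hlm : l ∣ m := Nat.minFac_dvd m
  have hlo : Odd l := Odd.of_dvd_nat hmo hlm
  set κ := e.factorization l + 1 with hκ
  have hlkE : l ^ κ ∣ e * m := by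
    rw [hκ, pow_succ]
    exact Nat.mul_dvd_mul (Nat.ordProj_dvd e l) hlm
  have hlke : ¬ l ^ κ ∣ e := Nat.pow_succ_factorization_not_dvd (by omega) hlp
  refine tup_main 3 k (l ^ κ) 4 a le_rfl hlo.pow ha (fun w t => t ^ (e * m) = 1 ∧ t ^ e ≠ 1)
    (fun w t => t ^ (e * m) = 1 ∧ t ^ e ≠ 1) ?_ (fun N => HasSinger ((a * N) ^ e) m) ?_ ε hε
  · intro w hw hw2 hLw _ g _
    have hwf : Fact w.Prime := ⟨hw⟩
    obtain ⟨ζ, hζ⟩ := exists_zeta' w (l ^ κ) hLw
    have h1 : ζ ^ (2 ^ (3 - 1) * l ^ κ) = 1 := (hζ _).2 (dvd_mul_left _ _)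
    have h2 : ζ ^ (e * m) = 1 ∧ ζ ^ e ≠ 1 := ⟨(hζ _).2 hlkE, fun h => hlke ((hζ _).1 h)⟩
    exact ⟨ζ, ζ, h1, h1, h2, h2⟩
  · intro w b _ _ hw _ hK _ hb _ hwb _ hqa p hp hc _ hP _ hS
    have hwf : Fact w.Prime := ⟨hw⟩
    have hw2 : w ≠ 2 := by omega
    have h11 := neg_ne_one hw hw2
    have hN2 : 2 ≤ ∏ i, p i := two_le_prod p hp
    have hfact : ∏ i, p i = p 0 * ∏ i : Fin (k + 1), p i.succ := Fin.prod_univ_succ _
    have hc0 : (p 0 : ZMod w) ^ (4 * b) = -1 := by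
      have := hc 0
      simpa [exx] using this
    have hc1 : (p 1 : ZMod w) ^ (4 * b) = -1 := by
      have := hc 1
      simpa [exx] using this
    have hc2 : ∀ i : Fin k, (p i.succ.succ : ZMod w) ^ b = -1 := by
      intro i
      have := hc i.succ.succ
      simpa [exx] using this
    have hne2 : ∀ i : Fin k, p 0 ≠ p i.succ.succ := by
      intro i h
      apply h11
      rw [← hc0, h, mul_comm, pow_mul, hc2 i]
      norm_num
    have hab : (a : ZMod w) ^ b = 1 := pow_of_primes (by omega) hqa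
    have hne1 : p 0 ≠ p 1 := by
      intro h
      have h1 : ((a * ∏ i, p i : ℕ) : ZMod w) ^ (2 * b) = -1 := by
        rw [Fin.prod_univ_succ, Fin.prod_univ_succ]
        push_cast
        have e1 : (p (Fin.succ 0) : ZMod w) = p 0 := by
          rw [h]
          rfl
        have e2 : (∏ i : Fin k, (p i.succ.succ : ZMod w)) ^ (2 * b) = 1 := by
          rw [← Finset.prod_pow]
          refine Finset.prod_eq_one fun i _ => ?_
          rw [mul_comm, pow_mul, hc2 i]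
          norm_num
        have e3 : (a : ZMod w) ^ (2 * b) = 1 := by
          rw [mul_comm, pow_mul, hab, one_pow]
        rw [e1, mul_pow, mul_pow, mul_pow, e2, e3, mul_one, one_mul, ← pow_add, ← hc0]
        congr 1
        ring
      have h2 : ((a * ∏ i, p i : ℕ) : ZMod w) ^ (2 * b * (e * m)) = -1 := by
        rw [pow_mul, h1, hem.neg_one_pow]
      rw [mul_comm (2 * b) (e * m), pow_mul, hP.1, one_pow] at h2
      exact h11 h2.symm
    have hpa : ¬ p 0 ∣ a := by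
      intro h
      apply h11
      rw [← hc0, mul_comm, pow_mul, hqa (p 0) (hp 0) h, one_pow]
    have hN2' : 2 ≤ a * ∏ i, p i := by nlinarith
    refine excluded' (n := (a * ∏ i, p i) ^ e) (m := m) (w := w) (r := p 0) (j := 4 * b) (c := e)
      (n' := (a * ∏ i : Fin (k + 1), p i.succ) ^ e) hmo hm ?_ hS hw ?_ ?_ (hp 0) heo ?_ ?_ hc0
    · calc 2 ≤ a * ∏ i, p i := hN2'
          _ = (a * ∏ i, p i) ^ 1 := (pow_one _).symm
          _ ≤ (a * ∏ i, p i) ^ e := Nat.pow_le_pow_right (by omega) he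
    · have h3 := hP.1
      rw [Nat.cast_pow, ← pow_mul]
      exact h3
    · rw [Nat.cast_pow]
      exact hP.2
    · rw [hfact, ← mul_pow]
      congr 1
      ring
    · intro hdvd
      have h3 := ((hp 0).dvd_mul.1 ((hp 0).dvd_of_dvd_pow hdvd)).resolve_left hpa
      obtain ⟨i, -, hi⟩ := (Prime.dvd_finsetProd_iff (hp 0).prime _).1 h3
      have h4 := (Nat.prime_dvd_prime_iff_eq (hp 0) (hp i.succ)).1 hi
      revert h4
      refine Fin.cases ?_ (fun i => ?_) i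
      · exact fun h => hne1 h
      · exact fun h => hne2 i h

end Pool.Agent.TH66.SG
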